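import Pool.Agent.Lib.MP_16db06_lc.Defs

/-!
# HYP module AEHYP: asymptotically equivariant maps give hyperfiniteness
-/

set_option autoImplicit false

namespace HypSub

open Set Topology

universe u

section AEHyp

variable {Γ : Type u} [Group Γ] {Y : Subshift Γ}

/-- the normalised point -/
def aehyp_R (h : ℕ → Y.Pt → Γ) (k : ℕ) (y : Y.Pt) : Y.Pt := (h k y)⁻¹ • y

theorem aehyp_cont {h : ℕ → Y.Pt → Γ} (hloc : ∀ k, IsLocallyConstant (h k)) (k : ℕ) :
    Continuous (aehyp_R h k) := by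
  rw [continuous_iff_continuousAt]
  intro y
  have h1 : ContinuousAt (fun z : Y.Pt => (h k y)⁻¹ • z) y :=
    (continuous_const_smul _).continuousAt
  refine h1.congr ?_
  filter_upwards [(hloc k).eventually_eq y] with z hz
  rw [aehyp_R, hz]

theorem aehyp_back (h : ℕ → Y.Pt → Γ) (k : ℕ) (y : Y.Pt) : h k y • aehyp_R h k y = y := by
  rw [aehyp_R, smul_inv_smul]

end AEHyp

theorem hyperfinite_of_ae {Γ : Type u} [Group Γ] (Y : Subshift Γ)
    (h : AE Y.Pt (MonoidHom.id Γ)) : Hyperfinite (orbitRel Y) := by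
  obtain ⟨h, hloc, hfin, heq⟩ := h
  refine ⟨fun n x y => ∀ k ≥ n, aehyp_R h k x = aehyp_R h k y, ?_, ?_, ?_, ?_, ?_⟩
  · intro n
    exact ⟨fun x k _ => rfl, fun hxy k hk => (hxy k hk).symm,
      fun hxy hyz k hk => (hxy k hk).trans (hyz k hk)⟩
  · intro n
    have hcl : IsClosed {p : Y.Pt × Y.Pt | ∀ k ≥ n, aehyp_R h k p.1 = aehyp_R h k p.2} := by
      have : {p : Y.Pt × Y.Pt | ∀ k ≥ n, aehyp_R h k p.1 = aehyp_R h k p.2} =
          ⋂ k, ⋂ (_ : k ≥ n), {p : Y.Pt × Y.Pt | aehyp_R h k p.1 = aehyp_R h k p.2} := by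
        ext p
        simp
      rw [this]
      refine isClosed_iInter fun k => isClosed_iInter fun _ => ?_
      exact isClosed_eq ((aehyp_cont hloc k).comp continuous_fst)
        ((aehyp_cont hloc k).comp continuous_snd)
    have hm : @MeasurableSet _ (borel (Y.Pt × Y.Pt))
        {p : Y.Pt × Y.Pt | ∀ k ≥ n, aehyp_R h k p.1 = aehyp_R h k p.2}ᶜ :=
      MeasurableSpace.measurableSet_generateFrom hcl.isOpen_compl
    exact (@MeasurableSet.compl_iff _ _ (borel (Y.Pt × Y.Pt))).1 hm
  · intro n x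
    refine ((hfin n).image fun g : Γ => g • aehyp_R h n x).subset ?_
    intro y hy
    refine ⟨h n y, mem_range_self y, ?_⟩
    have h1 : aehyp_R h n x = aehyp_R h n y := hy n le_rfl
    simp only
    rw [h1, aehyp_back]
  · intro n x y hxy k hk
    exact hxy k (by omega)
  · intro x y
    constructor
    · rintro ⟨g, hg⟩
      have hy : y = g • x := Subtype.ext (by rw [smul_val, hg])
      obtain ⟨n, hn⟩ := Filter.eventually_atTop.1 (heq g x)
      refine ⟨n, fun k hk => ?_⟩
      have h1 := hn k hk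
      rw [MonoidHom.id_apply] at h1
      rw [hy, aehyp_R, aehyp_R, h1, mul_inv_rev, mul_smul, inv_smul_smul]
    · rintro ⟨n, hn⟩
      have h1 : aehyp_R h n x = aehyp_R h n y := hn n le_rfl
      refine ⟨h n y * (h n x)⁻¹, ?_⟩
      have h2 : (h n y * (h n x)⁻¹) • x = y := by
        rw [mul_smul]
        have : (h n x)⁻¹ • x = aehyp_R h n x := rfl
        rw [this, h1, aehyp_back]
      rw [← smul_val, h2]

end HypSub
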