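import Pool.Agent.Lib.MP_16db06_lc.Defs

/-!
# MP_16db06_lc : lifting asymptotically equivariant maps through one layer

`lift_core` is the end of the layer theorem: the labelling problem of the pictures is solved
continuously, and the functions of the algebraic lemma are applied to the solution.
-/

set_option autoImplicit false

namespace HypSub

open Set Topology

universe u

namespace LStep

section reach

variable {G Q : Type u} [Group G] [Group Q]

lemma reach_mono {π : G →* Q} {S : Set G} {T : Set Q} {q : Q} {n : ℕ} {γ : G}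
    (h : Reach π S T q n γ) : ∀ m, n ≤ m → Reach π S T q m γ := by
  induction h with
  | base n => exact fun m _ => Reach.base m
  | step n γ s _ hs hT ih =>
    intro m hm
    obtain ⟨k, rfl⟩ : ∃ k, m = k + 1 := ⟨m - 1, by omega⟩
    exact Reach.step k γ s (ih k (by omega)) hs hT

/-- reachable elements have heights in `T` -/
lemma reach_mem {π : G →* Q} {S : Set G} {T : Set Q} {q : Q} {n : ℕ} {γ : G}
    (h : Reach π S T q n γ) (hq : q ∈ T) : π γ * q ∈ T := by
  cases h with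
  | base n => simpa using hq
  | step n γ s _ _ hT => exact hT

/-- a first step can be added -/
lemma reach_first {π : G →* Q} {S : Set G} {T : Set Q} {q : Q} {s : G} (hs : s ∈ S)
    (hT : π s * q ∈ T) {n : ℕ} {γ : G} (h : Reach π S T (π s * q) n γ) :
    Reach π S T q (n + 1) (γ * s) := by
  induction h with
  | base n =>
    have h1 := Reach.step (π := π) (S := S) (T := T) (q := q) n 1 s (Reach.base n) hs
      (by rw [mul_one]; exact hT)
    rw [mul_one] at h1
    rw [one_mul]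
    exact h1
  | step n γ s' _ hs' hT' ih =>
    rw [mul_assoc]
    refine Reach.step (n + 1) (γ * s) s' ih hs' ?_
    rw [← mul_assoc, map_mul, mul_assoc]
    exact hT'

lemma reach_finite (π : G →* Q) {S : Set G} (hS : S.Finite) (T : Set Q) (q : Q) (n : ℕ) :
    {γ | Reach π S T q n γ}.Finite := by
  induction n with
  | zero =>
    refine (finite_singleton (1 : G)).subset ?_
    intro γ hγ
    cases hγ with
    | base _ => exact mem_singleton 1
  | succ n ih =>
    refine ((finite_singleton (1 : G)).union (hS.mul ih)).subset ?_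
    intro γ hγ
    cases hγ with
    | base _ => exact Or.inl (mem_singleton 1)
    | step _ γ' s h hs _ => exact Or.inr (mul_mem_mul hs h)

end reach

section same

variable {G Q : Type u} [Group G] [Group Q] {π : G →* Q} {L : ℕ → Set Q} {S : ℕ → Set G}
  (X : Layer π L S)

lemma same_refl (i κ : ℕ) (g : G) : Same X i κ g g := ⟨rfl, fun _ _ _ _ _ _ => rfl⟩

variable {X}

lemma same_symm {i κ : ℕ} {g g' : G} (h : Same X i κ g g') : Same X i κ g' g :=
  ⟨h.1.symm, fun γ hγ T hT r hr => (h.2 γ (by rw [h.1]; exact hγ) T hT r hr).symm⟩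

lemma same_trans {i κ : ℕ} {g g' g'' : G} (h : Same X i κ g g') (h' : Same X i κ g' g'') :
    Same X i κ g g'' :=
  ⟨h.1.trans h'.1, fun γ hγ T hT r hr =>
    (h.2 γ hγ T hT r hr).trans (h'.2 γ (by rw [← h.1]; exact hγ) T hT r hr)⟩

lemma same_mono {i κ κ' : ℕ} (hκ : κ ≤ κ') {g g' : G} (h : Same X i κ' g g') : Same X i κ g g' :=
  ⟨h.1, fun γ hγ T hT r hr => h.2 γ (reach_mono hγ κ' hκ) T hT r hr⟩

/-- an allowed step costs one in the radius -/
lemma same_step {i κ : ℕ} {g g' s : G} (h : Same X i (κ + 1) g g') (hs : s ∈ S i)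
    (hL : π s * π g ∈ L i) : Same X i κ (s * g) (s * g') := by
  refine ⟨by rw [map_mul, map_mul, h.1], fun γ hγ T hT r hr => ?_⟩
  rw [map_mul] at hγ
  have h1 := h.2 (γ * s) (reach_first hs hL hγ) T hT r hr
  rw [mul_assoc, mul_assoc] at h1
  exact h1

lemma exists_rep_of_finite {α β : Type*} [Finite β] (f : α → β) :
    ∃ R : Set α, R.Finite ∧ ∀ a, ∃ a' ∈ R, f a' = f a := by
  classical
  refine ⟨range fun b : range f => b.2.choose, finite_range _, fun a => ?_⟩
  refine ⟨(⟨f a, a, rfl⟩ : range f).2.choose, ⟨⟨f a, a, rfl⟩, rfl⟩, ?_⟩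
  exact (⟨f a, a, rfl⟩ : range f).2.choose_spec

variable (X)

/-- finitely many pictures -/
lemma exists_labels (hL : ∀ m, (L m).Finite) (hS : ∀ m, (S m).Finite) (i κ : ℕ) :
    ∃ R : Finset G, (∀ g ∈ R, π g ∈ L i) ∧ ∀ g, π g ∈ L i → ∃ g' ∈ R, Same X i κ g' g := by
  classical
  have hone : ∀ q ∈ L i, ∃ R : Set G, R.Finite ∧ (∀ g ∈ R, π g = q) ∧
      ∀ g, π g = q → ∃ g' ∈ R, Same X i κ g' g := by
    intro q hq
    have : Finite {γ | Reach π (S i) (L i) q κ γ} := (reach_finite π (hS i) (L i) q κ).to_subtype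
    have : Finite {T : Set Q | T ⊆ L i} := (hL i).finite_subsets.to_subtype
    have : Finite (X.Λ i) := (X.finΛ i).to_subtype
    obtain ⟨R, hR, hR'⟩ := exists_rep_of_finite
      (fun (g : {g : G // π g = q}) (p : ({γ | Reach π (S i) (L i) q κ γ} ×
        {T : Set Q | T ⊆ L i}) × Fin (X.N i + 1)) =>
        (⟨X.lam i p.1.2.1 p.2 (p.1.1.1 * g.1), X.memΛ i _ _ _ (by
          rw [map_mul, g.2]
          exact reach_mem p.1.1.2 hq)⟩ : X.Λ i))
    refine ⟨Subtype.val '' R, hR.image _, ?_, ?_⟩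
    · rintro g ⟨g', -, rfl⟩
      exact g'.2
    · intro g hg
      obtain ⟨g', hg', he⟩ := hR' ⟨g, hg⟩
      refine ⟨g'.1, ⟨g', hg', rfl⟩, by rw [g'.2, hg], fun γ hγ T hT r hr => ?_⟩
      rw [g'.2] at hγ
      have h1 := congrFun he ((⟨γ, hγ⟩, ⟨T, hT⟩), ⟨r, Nat.lt_succ_of_le hr⟩)
      exact congrArg Subtype.val h1
  choose! R hRf hRq hR using hone
  have hfin : (⋃ q ∈ L i, R q).Finite := (hL i).biUnion fun q hq => hRf q hq
  refine ⟨hfin.toFinset, ?_, ?_⟩
  · intro g hg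
    rw [Finite.mem_toFinset, mem_iUnion₂] at hg
    obtain ⟨q, hq, hg⟩ := hg
    rw [hRq q hq g hg]
    exact hq
  · intro g hg
    obtain ⟨g', hg', hs⟩ := hR (π g) hg g rfl
    exact ⟨g', hfin.mem_toFinset.2 (mem_biUnion hg hg'), hs⟩

end same

lemma lc_of_factor {Y α β : Type*} [TopologicalSpace Y] {f : Y → α} {g : Y → β}
    (hf : IsLocallyConstant f) (h : ∀ y y', f y = f y' → g y = g y') : IsLocallyConstant g := by
  rw [IsLocallyConstant.iff_eventually_eq] at hf ⊢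
  intro y
  filter_upwards [hf y] with y' hy'
  exact h _ _ hy'

/-- continuous labels with pictures which are equivariant along the good edges -/
lemma exists_points {Γ Y G Q : Type u} [Group Γ] [TopologicalSpace Y] [MulAction Γ Y]
    (hY : LCL Γ Y) [Group G] [Group Q] (π : G →* Q) (hπ : Function.Surjective π) (θ : Γ →* G)
    (h : ℕ → Y → Q) (hlc : ∀ k, IsLocallyConstant (h k)) (hfin : ∀ k, (range (h k)).Finite)
    (F : ℕ → Finset Γ) (h1 : ∀ i, 1 ∈ F i)
    (X : Layer π (fun i => range (h i)) (fun i => θ '' (F i : Set Γ))) (κ : ℕ → ℕ) (i : ℕ) :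
    ∃ x : Y → G, IsLocallyConstant x ∧ (∀ y, π (x y) = h i y) ∧
      ∀ γ ∈ F i, ∀ y, h i (γ • y) = π (θ γ) * h i y →
        Same X i (κ i) (x (γ • y)) (θ γ * x y) := by
  classical
  obtain ⟨R, hRL, hR⟩ := exists_labels X hfin (fun m => (F m).finite_toSet.image θ) i (κ i + 1)
  have : Finite (range (h i)) := (hfin i).to_subtype
  obtain ⟨a, ⟨eL⟩⟩ := Finite.exists_equiv_fin (range (h i))
  obtain ⟨eR⟩ : Nonempty (R ≃ Fin R.card) := ⟨R.equivFin⟩
  -- the labelling problem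
  let val : Fin a → Q := fun v => (eL.symm v).1
  let rep : Fin R.card → G := fun v => (eR.symm v).1
  let φ : Y → Fin a := fun y => eL ⟨h i y, y, rfl⟩
  have hval : ∀ y, val (φ y) = h i y := fun y => by
    show (eL.symm (eL ⟨h i y, y, rfl⟩)).1 = h i y
    rw [Equiv.symm_apply_apply]
  have hφ : IsLocallyConstant φ := by
    refine lc_of_factor (hlc i) fun y y' hyy => ?_
    show eL ⟨h i y, y, rfl⟩ = eL ⟨h i y', y', rfl⟩
    congr 1
    exact Subtype.ext hyy
  let P : (F i → Fin a) → (F i → Fin R.card) → Prop := fun v w =>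
    π (rep (w ⟨1, h1 i⟩)) = val (v ⟨1, h1 i⟩) ∧ ∀ γ : F i,
      val (v γ) = π (θ γ) * val (v ⟨1, h1 i⟩) →
        Same X i (κ i) (rep (w γ)) (θ γ * rep (w ⟨1, h1 i⟩))
  have hlab : ∀ g, π g ∈ range (h i) → ∃ v : Fin R.card, Same X i (κ i + 1) (rep v) g := by
    intro g hg
    obtain ⟨g', hg', hs⟩ := hR g hg
    refine ⟨eR ⟨g', hg'⟩, ?_⟩
    show Same X i (κ i + 1) (eR.symm (eR ⟨g', hg'⟩)).1 g
    rw [Equiv.symm_apply_apply]
    exact hs
  have hsolv : ∀ y : Y, ∃ w : Γ → Fin R.card, ∀ g : Γ,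
      P (fun s => φ ((s : Γ) • g • y)) (fun s => w ((s : Γ) * g)) := by
    intro y
    -- the lift of the heights along the orbit
    let u : Γ → Q := fun g => (π (θ g))⁻¹ * h i (g • y)
    let σ : Q → G := fun q => (hπ q).choose
    have hσ : ∀ q, π (σ q) = q := fun q => (hπ q).choose_spec
    let W : Γ → G := fun g => θ g * σ (u g)
    have hW : ∀ g, π (W g) = h i (g • y) := fun g => by
      show π (θ g * σ (u g)) = _
      rw [map_mul, hσ]
      show π (θ g) * ((π (θ g))⁻¹ * h i (g • y)) = _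
      rw [mul_inv_cancel_left]
    choose w hw using fun g : Γ => hlab (W g) (by rw [hW]; exact ⟨_, rfl⟩)
    refine ⟨w, fun g => ⟨?_, fun γ hγ => ?_⟩⟩
    · show π (rep (w (1 * g))) = val (φ ((1 : Γ) • g • y))
      rw [one_mul, one_smul, hval, (hw g).1, hW]
    · show Same X i (κ i) (rep (w ((γ : Γ) * g))) (θ γ * rep (w (1 * g)))
      have hγ' : h i ((γ : Γ) • g • y) = π (θ γ) * h i (g • y) := by
        have h2 : val (φ ((γ : Γ) • g • y)) = π (θ γ) * val (φ ((1 : Γ) • g • y)) := hγ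
        rwa [hval, one_smul, hval] at h2
      have hu : u ((γ : Γ) * g) = u g := by
        show (π (θ ((γ : Γ) * g)))⁻¹ * h i (((γ : Γ) * g) • y) = (π (θ g))⁻¹ * h i (g • y)
        rw [mul_smul, hγ', map_mul, map_mul, mul_inv_rev, mul_assoc, inv_mul_cancel_left]
      have hWγ : W ((γ : Γ) * g) = θ γ * W g := by
        show θ ((γ : Γ) * g) * σ (u ((γ : Γ) * g)) = θ γ * (θ g * σ (u g))
        rw [hu, map_mul, mul_assoc]
      rw [one_mul]
      have h3 : Same X i (κ i) (rep (w ((γ : Γ) * g))) (θ γ * W g) := by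
        rw [← hWγ]
        exact same_mono (Nat.le_succ _) (hw _)
      refine same_trans h3 (same_symm (same_step (hw g) ⟨γ, γ.2, rfl⟩ ?_))
      rw [(hw g).1, hW, ← hγ']
      exact ⟨_, rfl⟩
  obtain ⟨ψ, hψ, hψP⟩ := hY a R.card (F i) P φ hφ hsolv
  refine ⟨fun y => rep (ψ y), lc_of_factor hψ fun y y' hyy => by rw [hyy], fun y => ?_,
    fun γ hγ y he => ?_⟩
  · have h2 : π (rep (ψ ((1 : Γ) • y))) = val (φ ((1 : Γ) • y)) := (hψP y).1
    rwa [one_smul, hval] at h2
  · have h2 : Same X i (κ i) (rep (ψ (γ • y))) (θ γ * rep (ψ ((1 : Γ) • y))) :=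
      (hψP y).2 ⟨γ, hγ⟩ (by
        show val (φ (γ • y)) = π (θ γ) * val (φ ((1 : Γ) • y))
        rw [hval, hval, one_smul]
        exact he)
    rwa [one_smul] at h2

/-- the end of the layer theorem -/
theorem lift_core {Γ Y G Q : Type u} [Group Γ] [TopologicalSpace Y] [CompactSpace Y]
    [MulAction Γ Y] (hY : LCL Γ Y) [Group G] [Group Q] (π : G →* Q)
    (hπ : Function.Surjective π) (θ : Γ →* G) (h : ℕ → Y → Q)
    (hlc : ∀ k, IsLocallyConstant (h k)) (hfin : ∀ k, (range (h k)).Finite)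
    (heq : ∀ (γ : Γ) (y : Y), ∀ᶠ k in Filter.atTop, h k (γ • y) = π (θ γ) * h k y)
    (F : ℕ → Finset Γ) (h1 : ∀ i, 1 ∈ F i) (hF : ∀ γ, ∀ᶠ i in Filter.atTop, γ ∈ F i)
    (X : Layer π (fun i => range (h i)) (fun i => θ '' (F i : Set Γ)))
    (κ : ℕ → ℕ) (f : ℕ → (ℕ → G) → G)
    (hf1 : ∀ j x x', (∀ i, π (x i) ∈ range (h i)) → (∀ i, π (x' i) ∈ range (h i)) →
      (∀ i ≤ j, Same X i (κ i) (x i) (x' i)) → f j x = f j x')
    (hf2 : ∀ x x', (∀ i, π (x i) ∈ range (h i)) → (∀ i, π (x' i) ∈ range (h i)) →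
      ∀ (γ : G) (i₀ : ℕ), γ ∈ θ '' (F i₀ : Set Γ) → (∀ i ≥ i₀, x' i = γ * x i) →
      ∀ᶠ j in Filter.atTop, f j x' = γ * f j x) : AE Y θ := by
  classical
  choose x hxlc hxπ hxs using exists_points hY π hπ θ h hlc hfin F h1 X κ
  have hmem : ∀ y i, π (x i y) ∈ range (h i) := fun y i => by
    rw [hxπ]
    exact ⟨y, rfl⟩
  have hloc : ∀ j, IsLocallyConstant fun y => f j fun i => x i y := by
    intro j
    rw [IsLocallyConstant.iff_eventually_eq]
    intro y
    have h2 : ∀ᶠ y' in 𝓝 y, ∀ i ∈ Finset.range (j + 1), x i y' = x i y := by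
      rw [Filter.eventually_all_finset]
      exact fun i _ => (IsLocallyConstant.iff_eventually_eq _).1 (hxlc i) y
    filter_upwards [h2] with y' hy'
    refine hf1 j _ _ (hmem y') (hmem y) fun i hi => ?_
    show Same X i (κ i) (x i y') (x i y)
    rw [hy' i (Finset.mem_range.2 (Nat.lt_succ_of_le hi))]
    exact same_refl X i (κ i) _
  refine ⟨fun j y => f j fun i => x i y, hloc, fun j => (hloc j).range_finite, fun γ y => ?_⟩
  obtain ⟨i₀, hi₀⟩ := Filter.eventually_atTop.1 ((hF γ).and (heq γ y))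
  have hgood : ∀ i ≥ i₀, γ ∈ F i ∧ h i (γ • y) = π (θ γ) * h i y := hi₀
  set x' : ℕ → G := fun i => if i₀ ≤ i then θ γ * x i y else x i (γ • y) with hx'
  have hx'1 : ∀ i, i₀ ≤ i → x' i = θ γ * x i y := fun i hi => if_pos hi
  have hx'2 : ∀ i, ¬ i₀ ≤ i → x' i = x i (γ • y) := fun i hi => if_neg hi
  have hx'm : ∀ i, π (x' i) ∈ range (h i) := by
    intro i
    by_cases hi : i₀ ≤ i
    · rw [hx'1 i hi, map_mul, hxπ, ← (hgood i hi).2]
      exact ⟨_, rfl⟩
    · rw [hx'2 i hi]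
      exact hmem _ i
  have h3 := hf2 (fun i => x i y) x' (hmem y) hx'm (θ γ) i₀ ⟨γ, (hgood i₀ le_rfl).1, rfl⟩
    fun i hi => hx'1 i hi
  filter_upwards [h3] with j hj
  rw [← hj]
  refine hf1 j _ _ (hmem _) hx'm fun i _ => ?_
  by_cases hi : i₀ ≤ i
  · rw [hx'1 i hi]
    exact hxs i γ (hgood i hi).1 y (hgood i hi).2
  · rw [hx'2 i hi]
    exact same_refl X i (κ i) _

/-- an exhaustion of a countable group by finite symmetric sets -/
lemma exists_exhaustion (Γ : Type u) [Group Γ] [Countable Γ] : ∃ F : ℕ → Finset Γ,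
    (∀ i, 1 ∈ F i) ∧ (∀ i, F i ⊆ F (i + 1)) ∧ (∀ i, ∀ γ ∈ F i, γ⁻¹ ∈ F i) ∧
    ∀ γ, ∀ᶠ i in Filter.atTop, γ ∈ F i := by
  classical
  obtain ⟨e, he⟩ := exists_injective_nat Γ
  have hfin : ∀ i, {γ : Γ | e γ ≤ i}.Finite := fun i =>
    (finite_Iic i).preimage he.injOn
  have hfin' : ∀ i, {γ : Γ | e γ⁻¹ ≤ i}.Finite := fun i =>
    (finite_Iic i).preimage (he.comp inv_injective).injOn
  refine ⟨fun i => {1} ∪ ((hfin i).toFinset ∪ (hfin' i).toFinset), fun i => ?_, fun i => ?_,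
    fun i γ hγ => ?_, fun γ => ?_⟩
  · simp
  · intro γ hγ
    simp only [Finset.mem_union, Finset.mem_singleton, Finite.mem_toFinset, mem_ofPred_eq] at hγ ⊢
    rcases hγ with hγ | hγ | hγ
    · exact Or.inl hγ
    · exact Or.inr (Or.inl (by omega))
    · exact Or.inr (Or.inr (by omega))
  · simp only [Finset.mem_union, Finset.mem_singleton, Finite.mem_toFinset, mem_ofPred_eq,
      inv_inv, inv_eq_one] at hγ ⊢
    tauto
  · filter_upwards [Filter.eventually_ge_atTop (e γ)] with i hi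
    simp only [Finset.mem_union, Finset.mem_singleton, Finite.mem_toFinset, mem_ofPred_eq]
    exact Or.inr (Or.inl hi)

/-- the layer theorem from its two ingredients -/
theorem ae_lift_of {Γ Y G : Type u} [Group Γ] [Countable Γ] [TopologicalSpace Y] [CompactSpace Y]
    [MulAction Γ Y] (hY : LCL Γ Y) [Group G] (A : Subgroup G) [A.Normal] (θ : Γ →* G)
    (hex : ∀ (L : ℕ → Set (G ⧸ A)) (S : ℕ → Set G), (∀ m, (L m).Finite) → (∀ m, (S m).Finite) →
      Nonempty (Layer (QuotientGroup.mk' A) L S))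
    (halg : ∀ (L : ℕ → Set (G ⧸ A)) (S : ℕ → Set G),
      (∀ m, (L m).Finite) → (∀ m, (S m).Finite) → (∀ m, ∀ s ∈ S m, s⁻¹ ∈ S m) →
      (∀ m, S m ⊆ S (m + 1)) → ∀ X : Layer (QuotientGroup.mk' A) L S,
      ∃ (κ : ℕ → ℕ) (f : ℕ → (ℕ → G) → G),
        (∀ j x x', (∀ i, (QuotientGroup.mk' A) (x i) ∈ L i) →
          (∀ i, (QuotientGroup.mk' A) (x' i) ∈ L i) →
          (∀ i ≤ j, Same X i (κ i) (x i) (x' i)) → f j x = f j x') ∧
        (∀ x x', (∀ i, (QuotientGroup.mk' A) (x i) ∈ L i) →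
          (∀ i, (QuotientGroup.mk' A) (x' i) ∈ L i) → ∀ (γ : G) (i₀ : ℕ), γ ∈ S i₀ →
          (∀ i ≥ i₀, x' i = γ * x i) → ∀ᶠ j in Filter.atTop, f j x' = γ * f j x))
    (h : AE Y ((QuotientGroup.mk' A).comp θ)) : AE Y θ := by
  obtain ⟨h, hlc, hfin, heq⟩ := h
  obtain ⟨F, h1, hmono, hsymm, hF⟩ := exists_exhaustion Γ
  have hSfin : ∀ m, ((fun i => θ '' (F i : Set Γ)) m).Finite := fun m =>
    (F m).finite_toSet.image θ
  obtain ⟨X⟩ := hex (fun i => range (h i)) (fun i => θ '' (F i : Set Γ)) hfin hSfin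
  obtain ⟨κ, f, hf1, hf2⟩ := halg (fun i => range (h i)) (fun i => θ '' (F i : Set Γ)) hfin hSfin
    (by
      rintro m _ ⟨γ, hγ, rfl⟩
      exact ⟨γ⁻¹, hsymm m γ hγ, map_inv θ γ⟩)
    (fun m => image_mono (hmono m)) X
  exact lift_core hY (QuotientGroup.mk' A) (QuotientGroup.mk'_surjective A) θ h hlc hfin heq F h1
    hF X κ f hf1 hf2

end LStep

end HypSub
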