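import Pool.Agent.Lib.MP_16db06_lc.AlgBasic
import Pool.Agent.Lib.MP_16db06_lc.LayerCore

/-!
# MP_16db06_lc : locality of the functions of the ALG lemma

The value `FF X 0 j x` depends on `x i`, `i ≤ j`, only through the pictures of radius `κ i`.
-/

set_option autoImplicit false

namespace HypSub

open Set

universe u

namespace Loc

variable {G Q : Type u} [Group G] [Group Q] {π : G →* Q} {L : ℕ → Set Q} {S : ℕ → Set G}

theorem gmax_congr {P P' : ℕ → Prop} {N : ℕ} (h : ∀ r ≤ N, P r ↔ P' r) :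
    gmax P N = gmax P' N := by
  classical
  unfold gmax
  induction N with
  | zero => simp
  | succ N ih =>
    rw [Nat.findGreatest_succ, Nat.findGreatest_succ]
    have h1 := h (N + 1) le_rfl
    have h2 := ih fun r hr => h r (by omega)
    by_cases hP : P (N + 1)
    · rw [if_pos hP, if_pos (h1.1 hP)]
    · rw [if_neg hP, if_neg (fun hP' => hP (h1.2 hP')), h2]

omit [Group G] in
theorem S_mono (hmono : ∀ m, S m ⊆ S (m + 1)) {m i : ℕ} (h : m ≤ i) : S m ⊆ S i := by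
  induction i, h using Nat.le_induction with
  | base => exact le_rfl
  | succ i _ ih => exact ih.trans (hmono i)

theorem nf_mv_iff (F : (ℕ → G) → G) (δ : G) (y : ℕ → G) :
    nf F (mv δ y) = nf F y ↔ F (mv δ y) = δ * F y := by
  unfold nf
  rw [mv_apply, mul_inv_rev, mul_assoc, mul_right_inj, inv_mul_eq_iff_eq_mul]

variable (X : Layer π L S)

/-- the pictures agree in the coordinates `m, ..., j` -/
def Sim (m j : ℕ) (κ : ℕ → ℕ) (x x' : ℕ → G) : Prop :=
  ∀ i, m ≤ i → i ≤ j → Same X i (κ i) (x i) (x' i)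

variable {X}

theorem Sim.symm {m j : ℕ} {κ : ℕ → ℕ} {x x' : ℕ → G} (h : Sim X m j κ x x') :
    Sim X m j κ x' x := fun i h1 h2 => LStep.same_symm (h i h1 h2)

theorem Sim.mono {m j m' j' : ℕ} {κ κ' : ℕ → ℕ} {x x' : ℕ → G} (h : Sim X m j κ x x')
    (hm : m ≤ m') (hj : j' ≤ j) (hκ : ∀ i, m' ≤ i → i ≤ j' → κ' i ≤ κ i) :
    Sim X m' j' κ' x x' := fun i h1 h2 =>
  LStep.same_mono (hκ i h1 h2) (h i (hm.trans h1) (h2.trans hj))

theorem Sim.ok {m j : ℕ} {κ : ℕ → ℕ} {x x' : ℕ → G} (h : Sim X m j κ x x')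
    (hx : Ok π L m j x) : Ok π L m j x' := fun i h1 h2 => by
  rw [← (h i h1 h2).1]
  exact hx i h1 h2

theorem Sim.TT_eq {m j : ℕ} {κ : ℕ → ℕ} {x x' : ℕ → G} (h : Sim X m j κ x x') :
    TT π L m j x = TT π L m j x' := by
  ext q
  constructor
  · rintro ⟨h1, h2⟩
    refine ⟨h1, fun i hi hj => ?_⟩
    rw [← (h i hi hj).1, ← (h m le_rfl (hi.trans hj)).1]
    exact h2 i hi hj
  · rintro ⟨h1, h2⟩
    refine ⟨h1, fun i hi hj => ?_⟩
    rw [(h i hi hj).1, (h m le_rfl (hi.trans hj)).1]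
    exact h2 i hi hj

/-- moving along allowed steps -/
theorem move (hmono : ∀ m, S m ⊆ S (m + 1)) {m j n : ℕ} {x y : ℕ → G}
    (h : RN (Ed π L S m j) n x y) : ∀ (x' : ℕ → G) (κ : ℕ → ℕ),
      Sim X m j (fun i => κ i + n) x x' → ∃ γ, y = mv γ x ∧
        RN (Ed π L S m j) n x' (mv γ x') ∧ Sim X m j κ (mv γ x) (mv γ x') := by
  induction h with
  | base n a =>
    intro x' κ hs
    refine ⟨1, (mv_one a).symm, ?_, ?_⟩
    · rw [mv_one]
      exact RN.base _ _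
    · rw [mv_one, mv_one]
      exact hs.mono le_rfl le_rfl fun i _ _ => by omega
  | step n a b c _ hE ih =>
    intro x' κ hs
    obtain ⟨γ, rfl, hr, hsim⟩ := ih x' (fun i => κ i + 1)
      (hs.mono le_rfl le_rfl fun i _ _ => by omega)
    obtain ⟨h1, h2, s, hsS, rfl⟩ := hE
    have hsim' : Sim X m j κ (mv s (mv γ a)) (mv s (mv γ x')) := by
      intro i hi hj
      refine LStep.same_step (hsim i hi hj) (S_mono hmono hi hsS) ?_
      rw [← map_mul]
      exact h2 i hi hj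
    refine ⟨s * γ, by rw [mv_mv], ?_, by rw [← mv_mv, ← mv_mv]; exact hsim'⟩
    rw [← mv_mv]
    exact RN.step _ _ _ _ hr ⟨hsim.ok h1, hsim'.ok h2, s, hsS, rfl⟩

theorem mv_inj {γ δ : G} {x : ℕ → G} (h : mv γ x = mv δ x) : γ = δ := by
  have := congrFun h 0
  simpa [mv] using this

/-- moving along unbroken steps -/
theorem bmove {m r n : ℕ} {T : Set Q} (hT : T ⊆ L m) (hr : r ≤ X.N m) {x y : ℕ → G}
    (h : RN (BEd X m T r) n x y) : ∀ (x' : ℕ → G) (k : ℕ), Same X m (k + n) (x m) (x' m) →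
      ∃ γ, y = mv γ x ∧ RN (BEd X m T r) n x' (mv γ x') ∧
        Same X m k (mv γ x m) (mv γ x' m) := by
  induction h with
  | base n a =>
    intro x' k hs
    refine ⟨1, (mv_one a).symm, ?_, ?_⟩
    · rw [mv_one]
      exact RN.base _ _
    · rw [mv_one, mv_one]
      exact LStep.same_mono (by omega) hs
  | step n a b c _ hE ih =>
    intro x' k hs
    obtain ⟨γ, rfl, hrn, hsame⟩ := ih x' (k + 1) (LStep.same_mono (by omega) hs)
    obtain ⟨h1, h2, s, hsS, rfl, h3⟩ := hE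
    have hsame' : Same X m k (mv s (mv γ a) m) (mv s (mv γ x') m) := by
      refine LStep.same_step hsame hsS ?_
      rw [← map_mul]
      exact hT h2
    have e1 : X.lam m T r (mv γ a m) = X.lam m T r (mv γ x' m) := by
      have := hsame.2 1 (Reach.base _) T hT r hr
      rwa [one_mul, one_mul] at this
    have e2 : X.lam m T r (mv s (mv γ a) m) = X.lam m T r (mv s (mv γ x') m) := by
      have := hsame'.2 1 (Reach.base _) T hT r hr
      rwa [one_mul, one_mul] at this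
    refine ⟨s * γ, by rw [mv_mv], ?_, by rw [← mv_mv, ← mv_mv]; exact hsame'⟩
    rw [← mv_mv]
    refine RN.step _ _ _ _ hrn ⟨?_, ?_, s, hsS, rfl, ?_⟩
    · rw [← hsame.1]
      exact h1
    · rw [← hsame'.1]
      exact h2
    · rw [← e2, ← e1]
      exact h3

theorem bl_transfer {m r k : ℕ} {T : Set Q} (hT : T ⊆ L m) (hr : r ≤ X.N m) {x x' y : ℕ → G}
    (hx : π (x m) ∈ T) (hs : Same X m (k + X.D m) (x m) (x' m)) (h : y ∈ Bl X m T r x) :
    ∃ γ, y = mv γ x ∧ mv γ x' ∈ Bl X m T r x' ∧ Same X m k (mv γ x m) (mv γ x' m) := by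
  obtain ⟨γ, h1, h2, h3⟩ := bmove hT hr (Bl_bound X hT hx h) x' k hs
  exact ⟨γ, h1, ⟨_, h2⟩, h3⟩

theorem vals_sub {m r : ℕ} {T : Set Q} (hT : T ⊆ L m) (hr : r ≤ X.N m) {x x' : ℕ → G}
    (hx : π (x m) ∈ T) (hs : Same X m (X.D m) (x m) (x' m)) :
    vals X m T r x ⊆ vals X m T r x' := by
  rintro g ⟨y, hy, rfl⟩
  obtain ⟨γ, rfl, h2, h3⟩ := bl_transfer (k := 0) hT hr hx (by rwa [zero_add]) hy
  refine ⟨_, h2, ?_⟩
  have := h3.2 1 (Reach.base _) T hT r hr
  rwa [one_mul, one_mul] at this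

theorem disp_congr {m r : ℕ} {T : Set Q} (hT : T ⊆ L m) (hr : r ≤ X.N m) {x x' : ℕ → G}
    (hx : π (x m) ∈ T) (hs : Same X m (X.D m) (x m) (x' m)) :
    disp X m T r x = disp X m T r x' := by
  have hx' : π (x' m) ∈ T := by
    rw [← hs.1]
    exact hx
  have h1 : vals X m T r x = vals X m T r x' :=
    Subset.antisymm (vals_sub hT hr hx hs) (vals_sub hT hr hx' (LStep.same_symm hs))
  have h2 := hs.2 1 (Reach.base _) T hT r hr
  rw [one_mul, one_mul] at h2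
  unfold disp
  rw [h1, h2]

/-- the values of the family are local in the coordinates `m + 1, ...` -/
def FamLoc (X : Layer π L S) (m j : ℕ) (κ : ℕ → ℕ) (F : ℕ → (ℕ → G) → G) : Prop :=
  ∀ i ≤ j, m ≤ i → ∀ y y' : ℕ → G, Ok π L (m + 1) i y → Sim X (m + 1) i κ y y' → F i y = F i y'

theorem cut_imp (hmono : ∀ m, S m ⊆ S (m + 1)) {m j i R : ℕ} {κ : ℕ → ℕ}
    {F : ℕ → (ℕ → G) → G} (hF : FamLoc X m j κ F) (hi : i ≤ j) (hm : m ≤ i) {y y' : ℕ → G}
    (hy : Ok π L m j y) (hs : Sim X m j (fun i => κ i + R) y y')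
    (h : Cut (Ed π L S m j) (F i) R y) : Cut (Ed π L S m j) (F i) R y' := by
  obtain ⟨z, hz, hne⟩ := h
  have hzok := RN_Ed_ok hz hy
  obtain ⟨δ, rfl, hz', hsim⟩ := move hmono hz y' κ hs
  refine ⟨mv δ y', hz', ?_⟩
  have e1 : F i y = F i y' := hF i hi hm y y' (hy.mono (Nat.le_succ _) hi)
    (hs.mono (Nat.le_succ _) hi fun l _ _ => by omega)
  have e2 : F i (mv δ y) = F i (mv δ y') := hF i hi hm _ _ (hzok.mono (Nat.le_succ _) hi)
    (hsim.mono (Nat.le_succ _) hi fun l _ _ => le_rfl)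
  intro he
  rw [nf_mv_iff, ← e1, ← e2, ← nf_mv_iff] at he
  exact hne he

theorem sc_mono {m r r' : ℕ} (h : r ≤ r') : sc X m r ≤ sc X m r' := by
  unfold sc
  exact Nat.mul_le_mul_right _ (by omega)

theorem rank_eq (hmono : ∀ m, S m ⊆ S (m + 1)) {m j : ℕ} {κ : ℕ → ℕ}
    {F : ℕ → (ℕ → G) → G} (hF : FamLoc X m j κ F) {y y' : ℕ → G}
    (hy : Ok π L m j y) (hs : Sim X m j (fun i => κ i + sc X m (X.N m)) y y') :
    rank X m F j y = rank X m F j y' := by
  unfold rank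
  refine gmax_congr fun r hr => ?_
  have hs' : Sim X m j (fun i => κ i + sc X m r) y y' :=
    hs.mono le_rfl le_rfl fun i _ _ => Nat.add_le_add_left (sc_mono hr) _
  have hw : walls X m F j r y = walls X m F j r y' := by
    ext i
    constructor
    · rintro ⟨h1, h2, h3⟩
      exact ⟨h1, h2, cut_imp hmono hF h2.le h1 hy hs' h3⟩
    · rintro ⟨h1, h2, h3⟩
      exact ⟨h1, h2, cut_imp hmono hF h2.le h1 (hs.ok hy) hs'.symm h3⟩
  rw [hw]

theorem mem_TT_self {m j : ℕ} (hm : m ≤ j) {x : ℕ → G} (hx : Ok π L m j x) :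
    π (x m) ∈ TT π L m j x := by
  have := (mem_TT_iff (L := L) (π := π) hm 1 x).2 (by rwa [mv_one])
  rwa [mv_one] at this

/-- transport of a point of a block with all its pictures -/
theorem bl_sim (hmono : ∀ m, S m ⊆ S (m + 1)) {m j r : ℕ} (hm : m ≤ j) (hr : r ≤ X.N m)
    {κ : ℕ → ℕ} {x x' y : ℕ → G} (hx : Ok π L m j x)
    (hs : Sim X m j (fun i => κ i + X.D m) x x') (hy : y ∈ Bl X m (TT π L m j x) r x) :
    ∃ γ, y = mv γ x ∧ mv γ x' ∈ Bl X m (TT π L m j x') r x' ∧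
      Sim X m j κ (mv γ x) (mv γ x') ∧ Ok π L m j (mv γ x) := by
  have h1 := Bl_Ed X hm hx hy
  obtain ⟨γ, h2, h3, h4⟩ := move hmono h1 x' κ hs
  obtain ⟨δ, h5, h6, -⟩ := bl_transfer (k := κ m) (TT_sub m j x) hr (mem_TT_self hm hx)
    (hs m le_rfl hm) hy
  have e : δ = γ := mv_inj (h5.symm.trans h2)
  subst e
  refine ⟨δ, h2, ?_, h4, ?_⟩
  · rw [← hs.TT_eq]
    exact h6
  · rw [← h2]
    exact RN_Ed_ok h1 hx

theorem rstar_eq (hmono : ∀ m, S m ⊆ S (m + 1)) {m j : ℕ} (hm : m ≤ j) {κ : ℕ → ℕ}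
    {F : ℕ → (ℕ → G) → G} (hF : FamLoc X m j κ F) {x x' : ℕ → G} (hx : Ok π L m j x)
    (hs : Sim X m j (fun i => κ i + sc X m (X.N m) + X.D m) x x') :
    rstar X m F j x = rstar X m F j x' := by
  unfold rstar
  refine gmax_congr fun r hr => ?_
  constructor
  · rintro ⟨y, hy, hry⟩
    obtain ⟨γ, rfl, h1, h2, h3⟩ := bl_sim (κ := fun i => κ i + sc X m (X.N m)) hmono hm hr hx hs hy
    exact ⟨_, h1, by rw [← rank_eq hmono hF h3 h2]; exact hry⟩
  · rintro ⟨y, hy, hry⟩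
    obtain ⟨γ, rfl, h1, h2, h3⟩ := bl_sim (κ := fun i => κ i + sc X m (X.N m)) hmono hm hr
      (hs.ok hx) hs.symm hy
    exact ⟨_, h1, by rw [← rank_eq hmono hF h3 h2]; exact hry⟩

theorem lev_eq (hmono : ∀ m, S m ⊆ S (m + 1)) {m j : ℕ} (hm : m ≤ j) {κ : ℕ → ℕ}
    {F : ℕ → (ℕ → G) → G} (hF : FamLoc X m j κ F) {x x' : ℕ → G} (hx : Ok π L m j x)
    (hs : Sim X m j (fun i => κ i + sc X m (X.N m) + X.D m) x x') :
    lev X m F j x = lev X m F j x' := by
  have h1 := rstar_eq hmono hm hF hx hs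
  have hrN : rstar X m F j x ≤ X.N m := gmax_le _ _
  have h2 : DD X m F j x = DD X m F j x' := by
    unfold DD
    rw [← hs.TT_eq, ← h1]
    exact disp_congr (TT_sub m j x) hrN (mem_TT_self hm hx)
      (LStep.same_mono (Nat.le_add_left _ _) (hs m le_rfl hm))
  have hmem : mv (DD X m F j x) x ∈ Bl X m (TT π L m j x) (rstar X m F j x) x :=
    disp_mem X m _ _ x
  obtain ⟨γ, h3, h4, h5, h6⟩ := bl_sim (κ := fun i => κ i + sc X m (X.N m)) hmono hm hrN hx hs hmem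
  have e : DD X m F j x = γ := mv_inj h3
  have h7 : F j (mv (DD X m F j x) x) = F j (mv (DD X m F j x') x') := by
    rw [← h2, e]
    exact hF j le_rfl hm _ _ (h6.mono (Nat.le_succ _) le_rfl)
      (h5.mono (Nat.le_succ _) le_rfl fun i _ _ => by omega)
  unfold lev
  rw [h7, h2]

/-- the radius of the pictures -/
def rad (X : Layer π L S) (m i : ℕ) : ℕ :=
  ∑ l ∈ Finset.Ico m (i + 1), (sc X l (X.N l) + X.D l)

theorem rad_succ (X : Layer π L S) {m i : ℕ} (h : m ≤ i) :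
    rad X m i = rad X (m + 1) i + sc X m (X.N m) + X.D m := by
  unfold rad
  rw [Finset.sum_eq_sum_Ico_succ_bot (Nat.lt_succ_of_le h)]
  ring

theorem FF_local (hmono : ∀ m, S m ⊆ S (m + 1)) (X : Layer π L S) : ∀ (t m j : ℕ),
    j + 1 - m = t → ∀ x x' : ℕ → G, Ok π L m j x → Sim X m j (rad X m) x x' →
      FF X m j x = FF X m j x' := by
  intro t
  induction t using Nat.strong_induction_on with
  | _ t ih =>
    intro m j ht x x' hx hs
    by_cases hj : j < m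
    · rw [FF_lt X hj]
    · push Not at hj
      rw [FF_le X hj]
      have hF : FamLoc X m j (rad X (m + 1)) (FF X (m + 1)) := by
        intro i hi hmi y y' hy hsim
        exact ih (i + 1 - (m + 1)) (by omega) (m + 1) i rfl y y' hy hsim
      refine lev_eq hmono hj hF hx (hs.mono le_rfl le_rfl fun i hi _ => ?_)
      rw [rad_succ X hi]

end Loc

theorem ff_local {G Q : Type u} [Group G] [Group Q] {π : G →* Q} {L : ℕ → Set Q} {S : ℕ → Set G}
    (_hsymm : ∀ m, ∀ s ∈ S m, s⁻¹ ∈ S m) (hmono : ∀ m, S m ⊆ S (m + 1)) (X : Layer π L S) :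
    ∃ κ : ℕ → ℕ, ∀ (j : ℕ) (x x' : ℕ → G), Ok π L 0 j x → Ok π L 0 j x' →
      (∀ i ≤ j, Same X i (κ i) (x i) (x' i)) → FF X 0 j x = FF X 0 j x' :=
  ⟨Loc.rad X 0, fun j x x' hx _ hs =>
    Loc.FF_local hmono X (j + 1 - 0) 0 j rfl x x' hx fun i _ hi => hs i hi⟩

end HypSub
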