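import Pool.Agent.Lib.MP_16db06_lc.AlgConc
import Pool.Agent.Lib.MP_16db06_lc.AlgLoc

/-! The ALG lemma. -/

set_option autoImplicit false

namespace HypSub

open Set

universe u

theorem alg {G Q : Type u} [Group G] [Group Q] (π : G →* Q) (L : ℕ → Set Q) (S : ℕ → Set G)
    (hL : ∀ m, (L m).Finite) (_hS : ∀ m, (S m).Finite) (hsymm : ∀ m, ∀ s ∈ S m, s⁻¹ ∈ S m)
    (hmono : ∀ m, S m ⊆ S (m + 1)) (X : Layer π L S) :
    ∃ (κ : ℕ → ℕ) (f : ℕ → (ℕ → G) → G),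
      (∀ j x x', (∀ i, π (x i) ∈ L i) → (∀ i, π (x' i) ∈ L i) →
        (∀ i ≤ j, Same X i (κ i) (x i) (x' i)) → f j x = f j x') ∧
      (∀ x x', (∀ i, π (x i) ∈ L i) → (∀ i, π (x' i) ∈ L i) → ∀ (γ : G) (i₀ : ℕ), γ ∈ S i₀ →
        (∀ i ≥ i₀, x' i = γ * x i) → ∀ᶠ j in Filter.atTop, f j x' = γ * f j x) := by
  obtain ⟨κ, hκ⟩ := ff_local hsymm hmono X
  refine ⟨κ, fun j => FF X 0 j, fun j x x' hx hx' h => ?_, fun x x' hx hx' γ i₀ hγ h => ?_⟩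
  · exact hκ j x x' (fun i _ _ => hx i) (fun i _ _ => hx' i) h
  · exact ff_equiv X hL hsymm hmono x x' hx hx' γ i₀ hγ h

end HypSub
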