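import Pool.Agent.Lib.MP_16db06_lc.AlgDefs

/-! Basic properties of the construction of the ALG lemma. -/

set_option autoImplicit false

namespace HypSub

open Set

universe u

section

variable {G Q : Type u} [Group G] [Group Q] {π : G →* Q} {L : ℕ → Set Q} {S : ℕ → Set G}

theorem Ok.mono {m j m' j' : ℕ} {x : ℕ → G} (h : Ok π L m j x) (hm : m ≤ m') (hj : j' ≤ j) :
    Ok π L m' j' x := fun i h1 h2 => h i (hm.trans h1) (h2.trans hj)

theorem TT_sub (m j : ℕ) (x : ℕ → G) : TT π L m j x ⊆ L m := fun _ hq => hq.1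

theorem TT_mv (m j : ℕ) (γ : G) (x : ℕ → G) : TT π L m j (mv γ x) = TT π L m j x := by
  have h : ∀ (q : Q) (i : ℕ), q * (π (mv γ x m))⁻¹ * π (mv γ x i) = q * (π (x m))⁻¹ * π (x i) := by
    intro q i
    simp [mv, mul_assoc]
  ext q
  constructor
  · rintro ⟨h1, h2⟩
    exact ⟨h1, fun i hi hj => by rw [← h]; exact h2 i hi hj⟩
  · rintro ⟨h1, h2⟩
    exact ⟨h1, fun i hi hj => by rw [h]; exact h2 i hi hj⟩

theorem mem_TT_iff {m j : ℕ} (hm : m ≤ j) (γ : G) (x : ℕ → G) :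
    π (mv γ x m) ∈ TT π L m j x ↔ Ok π L m j (mv γ x) := by
  have h : ∀ (i : ℕ), π (mv γ x m) * (π (x m))⁻¹ * π (x i) = π (mv γ x i) := by
    intro i
    simp [mv, mul_assoc]
  constructor
  · rintro ⟨_, h2⟩ i hi hj
    rw [← h]; exact h2 i hi hj
  · intro h2
    exact ⟨h2 m le_rfl hm, fun i hi hj => by rw [h]; exact h2 i hi hj⟩

theorem TT_anti {m j k : ℕ} (hjk : j ≤ k) (x : ℕ → G) : TT π L m k x ⊆ TT π L m j x :=
  fun _ hq => ⟨hq.1, fun i hi hj => hq.2 i hi (hj.trans hjk)⟩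

theorem Ed.symm (hsymm : ∀ m, ∀ s ∈ S m, s⁻¹ ∈ S m) {m j : ℕ} {x y : ℕ → G}
    (h : Ed π L S m j x y) : Ed π L S m j y x := by
  obtain ⟨h1, h2, s, hs, rfl⟩ := h
  exact ⟨h2, h1, s⁻¹, hsymm m s hs, by rw [mv_mv, inv_mul_cancel, mv_one]⟩

theorem Ed.mono {m j m' j' : ℕ} {x y : ℕ → G} (h : Ed π L S m j x y) (hm : m ≤ m') (hj : j' ≤ j)
    (hS : S m ⊆ S m') : Ed π L S m' j' x y := by
  obtain ⟨h1, h2, s, hs, rfl⟩ := h
  exact ⟨h1.mono hm hj, h2.mono hm hj, s, hS hs, rfl⟩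

theorem RN_Ed_mono {m j m' j' n n' : ℕ} {x y : ℕ → G} (h : RN (Ed π L S m j) n x y) (hm : m ≤ m')
    (hj : j' ≤ j) (hn : n ≤ n') (hS : S m ⊆ S m') : RN (Ed π L S m' j') n' x y :=
  ((h.imp (fun _ => True) trivial fun _ _ _ he => ⟨trivial, he.mono hm hj hS⟩).2).mono hn

theorem RN_Ed_tr {m j n : ℕ} {x y : ℕ → G} (h : RN (Ed π L S m j) n x y) :
    ∃ γ, y = mv γ x := by
  induction h with
  | base n a => exact ⟨1, (mv_one a).symm⟩
  | step n a b c _ hE ih =>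
    obtain ⟨γ, rfl⟩ := ih
    obtain ⟨_, _, s, _, rfl⟩ := hE
    exact ⟨s * γ, by rw [mv_mv]⟩

theorem RN_Ed_ok {m j n : ℕ} {x y : ℕ → G} (h : RN (Ed π L S m j) n x y)
    (hx : Ok π L m j x) : Ok π L m j y := by
  cases h with
  | base => exact hx
  | step _ _ _ _ _ hE => exact hE.2.1

theorem RN_Ed_TT {m j m' j' n : ℕ} {x y : ℕ → G} (h : RN (Ed π L S m j) n x y) :
    TT π L m' j' y = TT π L m' j' x := by
  obtain ⟨γ, rfl⟩ := RN_Ed_tr h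
  exact TT_mv _ _ _ _

/-- If the allowed heights agree then so do the allowed steps. -/
theorem Ed_of_TT {m j k : ℕ} (hj : m ≤ j) (hk : m ≤ k) {x y z : ℕ → G}
    (hT : TT π L m j x = TT π L m k x) (hy : ∃ γ, y = mv γ x) (h : Ed π L S m j y z) :
    (∃ γ, z = mv γ x) ∧ Ed π L S m k y z := by
  obtain ⟨γ, rfl⟩ := hy
  obtain ⟨h1, h2, s, hs, rfl⟩ := h
  refine ⟨⟨s * γ, by rw [mv_mv]⟩, ?_, ?_, s, hs, rfl⟩
  · rw [← mem_TT_iff hk, ← hT, mem_TT_iff hj]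
    exact h1
  · rw [mv_mv] at h2 ⊢
    rw [← mem_TT_iff hk, ← hT, mem_TT_iff hj]
    exact h2

theorem RN_of_TT {m j k n : ℕ} (hj : m ≤ j) (hk : m ≤ k) {x y z : ℕ → G}
    (hT : TT π L m j x = TT π L m k x) (hy : ∃ γ, y = mv γ x) (h : RN (Ed π L S m j) n y z) :
    RN (Ed π L S m k) n y z :=
  (h.imp (fun y => ∃ γ, y = mv γ x) hy fun _ _ ha he => Ed_of_TT hj hk hT ha he).2

/-! ### Cuts -/

theorem Cut.move {E : (ℕ → G) → (ℕ → G) → Prop} (hE : ∀ a b, E a b → E b a)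
    {F : (ℕ → G) → G} {a R : ℕ} {x v : ℕ → G} (hv : RN E a x v) (h : Cut E F R x) :
    Cut E F (a + R) v := by
  obtain ⟨y, hy, hne⟩ := h
  by_cases hxv : nf F x = nf F v
  · exact ⟨y, (hv.symm hE).trans hy, by rwa [← hxv]⟩
  · exact ⟨x, (hv.symm hE).mono (by omega), hxv⟩

theorem Cut.mono {E : (ℕ → G) → (ℕ → G) → Prop} {F : (ℕ → G) → G} {R R' : ℕ} {x : ℕ → G}
    (h : Cut E F R x) (hR : R ≤ R') : Cut E F R' x := by
  obtain ⟨y, hy, hne⟩ := h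
  exact ⟨y, hy.mono hR, hne⟩

theorem Cut_of_TT {m j k R : ℕ} (hj : m ≤ j) (hk : m ≤ k) {x y : ℕ → G} {F : (ℕ → G) → G}
    (hT : TT π L m j x = TT π L m k x) (hy : ∃ γ, y = mv γ x) (h : Cut (Ed π L S m j) F R y) :
    Cut (Ed π L S m k) F R y := by
  obtain ⟨z, hz, hne⟩ := h
  exact ⟨z, RN_of_TT hj hk hT hy hz, hne⟩

theorem Cut_Ed_mono {m j m' j' R R' : ℕ} {x : ℕ → G} {F : (ℕ → G) → G}
    (h : Cut (Ed π L S m j) F R x) (hm : m ≤ m') (hj : j' ≤ j) (hR : R ≤ R')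
    (hS : S m ⊆ S m') : Cut (Ed π L S m' j') F R' x := by
  obtain ⟨z, hz, hne⟩ := h
  exact ⟨z, RN_Ed_mono hz hm hj hR hS, hne⟩

/-! ### Blocks -/

variable (X : Layer π L S)

theorem BEd.symm (hsymm : ∀ m, ∀ s ∈ S m, s⁻¹ ∈ S m) {m : ℕ} {T : Set Q} {r : ℕ} {x y : ℕ → G}
    (h : BEd X m T r x y) : BEd X m T r y x := by
  obtain ⟨h1, h2, s, hs, rfl, h3⟩ := h
  refine ⟨h2, h1, s⁻¹, hsymm m s hs, by rw [mv_mv, inv_mul_cancel, mv_one], ?_⟩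
  rw [h3, inv_mul_cancel_left]

theorem Bl_self (m : ℕ) (T : Set Q) (r : ℕ) (x : ℕ → G) : x ∈ Bl X m T r x := ⟨0, RN.base _ _⟩

theorem Bl_symm (hsymm : ∀ m, ∀ s ∈ S m, s⁻¹ ∈ S m) {m : ℕ} {T : Set Q} {r : ℕ} {x y : ℕ → G}
    (h : y ∈ Bl X m T r x) : x ∈ Bl X m T r y := by
  obtain ⟨n, hn⟩ := h
  exact ⟨n, hn.symm fun a b => BEd.symm X hsymm⟩

theorem Bl_trans {m : ℕ} {T : Set Q} {r : ℕ} {x y z : ℕ → G}
    (h : y ∈ Bl X m T r x) (h' : z ∈ Bl X m T r y) : z ∈ Bl X m T r x := by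
  obtain ⟨n, hn⟩ := h
  obtain ⟨k, hk⟩ := h'
  exact ⟨n + k, hn.trans hk⟩

theorem Bl_eq (hsymm : ∀ m, ∀ s ∈ S m, s⁻¹ ∈ S m) {m : ℕ} {T : Set Q} {r : ℕ} {x y : ℕ → G}
    (h : y ∈ Bl X m T r x) : Bl X m T r y = Bl X m T r x := by
  ext z
  exact ⟨fun hz => Bl_trans X h hz, fun hz => Bl_trans X (Bl_symm X hsymm h) hz⟩

theorem RN_BEd_tr {m : ℕ} {T : Set Q} {r n : ℕ} {x y : ℕ → G} (h : RN (BEd X m T r) n x y) :
    ∃ γ, y = mv γ x ∧ X.lam m T r (y m) = γ * X.lam m T r (x m) := by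
  induction h with
  | base n a => exact ⟨1, (mv_one a).symm, (one_mul _).symm⟩
  | step n a b c _ hE ih =>
    obtain ⟨γ, rfl, hγ⟩ := ih
    obtain ⟨_, _, s, _, rfl, hs⟩ := hE
    exact ⟨s * γ, by rw [mv_mv], by rw [hs, hγ, mul_assoc]⟩

theorem Bl_mem {m : ℕ} {T : Set Q} {r : ℕ} {x y : ℕ → G} (h : y ∈ Bl X m T r x)
    (hx : π (x m) ∈ T) : π (y m) ∈ T := by
  obtain ⟨n, hn⟩ := h
  cases hn with
  | base => exact hx
  | step _ _ _ _ _ hE => exact hE.2.1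

theorem Bl_bound {m : ℕ} {T : Set Q} {r : ℕ} {x y : ℕ → G} (hT : T ⊆ L m)
    (hx : π (x m) ∈ T) (h : y ∈ Bl X m T r x) : RN (BEd X m T r) (X.D m) x y := by
  obtain ⟨n, hn⟩ := h
  let U : Set G := {u : G | ∃ a ∈ X.Λ m, ∃ b ∈ X.Λ m, u = a * b⁻¹}
  have hU : U.Finite := by
    have : U = Set.image2 (fun a b => a * b⁻¹) (X.Λ m) (X.Λ m) := by
      ext u
      constructor
      · rintro ⟨a, ha, b, hb, rfl⟩
        exact ⟨a, ha, b, hb, rfl⟩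
      · rintro ⟨a, ha, b, hb, rfl⟩
        exact ⟨a, ha, b, hb, rfl⟩
    rw [this]
    exact (X.finΛ m).image2 _ (X.finΛ m)
  have hsub : {b | ∃ n, RN (BEd X m T r) n x b} ⊆ (fun u => mv u x) '' U := by
    rintro z hz
    have hzT : π (z m) ∈ T := Bl_mem X hz hx
    obtain ⟨k, hk⟩ := hz
    obtain ⟨γ, rfl, hγ⟩ := RN_BEd_tr X hk
    refine ⟨γ, ⟨X.lam m T r (mv γ x m), X.memΛ m T r _ (hT hzT), X.lam m T r (x m),
      X.memΛ m T r _ (hT hx), ?_⟩, rfl⟩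
    rw [hγ, mul_inv_cancel_right]
  refine RN.bound ((hU.image _).subset hsub) ?_ hn
  calc {b | ∃ n, RN (BEd X m T r) n x b}.ncard ≤ ((fun u => mv u x) '' U).ncard :=
        Set.ncard_le_ncard hsub (hU.image _)
    _ ≤ U.ncard := Set.ncard_image_le hU
    _ ≤ X.D m := X.hD m

theorem RN_BEd_Ed {m j : ℕ} (hm : m ≤ j) {r n : ℕ} {x y : ℕ → G}
    (h : RN (BEd X m (TT π L m j x) r) n x y) : RN (Ed π L S m j) n x y := by
  refine (h.imp (fun y => ∃ γ, y = mv γ x) ⟨1, (mv_one x).symm⟩ ?_).2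
  rintro a b ⟨γ, rfl⟩ ⟨h1, h2, s, hs, rfl, _⟩
  refine ⟨⟨s * γ, by rw [mv_mv]⟩, ?_, ?_, s, hs, rfl⟩
  · exact (mem_TT_iff hm γ x).1 h1
  · rw [mv_mv] at h2 ⊢
    exact (mem_TT_iff hm _ x).1 h2

theorem Bl_Ed {m j : ℕ} (hm : m ≤ j) {r : ℕ} {x y : ℕ → G} (hx : Ok π L m j x)
    (h : y ∈ Bl X m (TT π L m j x) r x) : RN (Ed π L S m j) (X.D m) x y := by
  refine RN_BEd_Ed X hm (Bl_bound X (TT_sub m j x) ?_ h)
  have := (mem_TT_iff (L := L) (π := π) hm 1 x).2 (by rwa [mv_one])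
  rwa [mv_one] at this

theorem vals_eq (hsymm : ∀ m, ∀ s ∈ S m, s⁻¹ ∈ S m) {m : ℕ} {T : Set Q} {r : ℕ} {x y : ℕ → G}
    (h : y ∈ Bl X m T r x) : vals X m T r y = vals X m T r x := by
  unfold vals
  rw [Bl_eq X hsymm h]

theorem vals_nonempty (m : ℕ) (T : Set Q) (r : ℕ) (x : ℕ → G) : (vals X m T r x).Nonempty :=
  ⟨X.lam m T r (x m), x, Bl_self X m T r x, rfl⟩

theorem disp_mem (m : ℕ) (T : Set Q) (r : ℕ) (x : ℕ → G) :
    mv (disp X m T r x) x ∈ Bl X m T r x := by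
  obtain ⟨z, hz, hpz⟩ := pick_mem (vals_nonempty X m T r x)
  have hz' := hz
  obtain ⟨n, hn⟩ := hz'
  obtain ⟨γ, hγ1, hγ2⟩ := RN_BEd_tr X hn
  have : disp X m T r x = γ := by
    unfold disp
    rw [hpz, hγ2, mul_inv_cancel_right]
  rw [this, ← hγ1]
  exact hz

theorem disp_eq (hsymm : ∀ m, ∀ s ∈ S m, s⁻¹ ∈ S m) {m : ℕ} {T : Set Q} {r : ℕ} {x y : ℕ → G}
    (h : y ∈ Bl X m T r x) : mv (disp X m T r y) y = mv (disp X m T r x) x := by
  have hv := vals_eq X hsymm h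
  obtain ⟨n, hn⟩ := h
  obtain ⟨γ, hγ1, hγ2⟩ := RN_BEd_tr X hn
  have : disp X m T r y * γ = disp X m T r x := by
    unfold disp
    rw [hv, hγ2]
    group
  rw [← this, ← mv_mv, ← hγ1]

/-! ### One level -/

/-- the centre of `x` -/
noncomputable def cen (m : ℕ) (F : ℕ → (ℕ → G) → G) (j : ℕ) (x : ℕ → G) : ℕ → G :=
  mv (DD X m F j x) x

theorem nf_lev (m : ℕ) (F : ℕ → (ℕ → G) → G) (j : ℕ) (x : ℕ → G) :
    nf (lev X m F j) x = nf (F j) (cen X m F j x) := by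
  unfold nf lev cen
  simp only [mv, mul_inv_rev, mul_assoc]

theorem cen_RN {m j : ℕ} (hm : m ≤ j) (F : ℕ → (ℕ → G) → G) {x : ℕ → G} (hx : Ok π L m j x) :
    RN (Ed π L S m j) (X.D m) x (cen X m F j x) :=
  Bl_Ed X hm hx (disp_mem X m _ _ x)

theorem rstar_spec (m j : ℕ) (F : ℕ → (ℕ → G) → G) (x : ℕ → G) :
    ∃ y ∈ Bl X m (TT π L m j x) (rstar X m F j x) x, rank X m F j y = rstar X m F j x := by
  unfold rstar
  exact gmax_spec (P := fun r => ∃ y ∈ Bl X m (TT π L m j x) r x, rank X m F j y = r)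
    (r := rank X m F j x) ⟨x, Bl_self X _ _ _ _, rfl⟩ (gmax_le _ _)

/-- a broken step near `x` -/
def Br (m k : ℕ) (T : Set Q) (r : ℕ) (x : ℕ → G) : Prop :=
  ∃ y, RN (Ed π L S m k) (X.ρ m) x y ∧ ∃ s ∈ S m, Ok π L m k (mv s y) ∧
    X.lam m T r (s * y m) ≠ s * X.lam m T r (y m)

theorem ball_block {m j k : ℕ} (hm : m ≤ j) (hjk : j ≤ k) {x : ℕ → G} {r : ℕ}
    (hb : ¬ Br X m k (TT π L m j x) r x) {n : ℕ} {y : ℕ → G} (h : RN (Ed π L S m k) n x y)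
    (hn : n ≤ X.ρ m) : y ∈ Bl X m (TT π L m j x) r x := by
  refine ⟨n, ?_⟩
  -- induction along the path
  have key : ∀ n y, RN (Ed π L S m k) n x y → n ≤ X.ρ m →
      RN (BEd X m (TT π L m j x) r) n x y := by
    intro n
    induction n with
    | zero =>
      intro y hy _
      cases hy
      exact RN.base _ _
    | succ n ih =>
      intro y hy hn
      cases hy with
      | base => exact RN.base _ _
      | step _ _ b _ h1 h2 =>
        refine RN.step _ _ _ _ (ih b h1 (by omega)) ?_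
        obtain ⟨γ, rfl⟩ := RN_Ed_tr h1
        obtain ⟨g1, g2, s, hs, rfl⟩ := h2
        refine ⟨(mem_TT_iff hm _ _).2 (g1.mono le_rfl hjk), ?_, s, hs, rfl, ?_⟩
        · rw [mv_mv] at g2 ⊢
          exact (mem_TT_iff hm _ _).2 (g2.mono le_rfl hjk)
        · by_contra hne
          exact hb ⟨mv γ x, h1.mono (by omega), s, hs, g2, hne⟩
  exact key n y h hn

theorem level_b (hsymm : ∀ m, ∀ s ∈ S m, s⁻¹ ∈ S m) {m j k : ℕ} (hm : m ≤ j) (hjk : j ≤ k)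
    (F : ℕ → (ℕ → G) → G) {x : ℕ → G} (hx : Ok π L m k x)
    (hb : ∀ v, RN (Ed π L S m j) (X.D m + X.ρ m) x v →
      ¬ Br X m k (TT π L m j x) (rank X m F j v) x) :
    ¬ Cut (Ed π L S m k) (lev X m F j) (X.ρ m) x := by
  rintro ⟨y, hy, hne⟩
  apply hne
  have hyok : Ok π L m k y := RN_Ed_ok hy hx
  have hyT : TT π L m j y = TT π L m j x := RN_Ed_TT hy
  have hyj : RN (Ed π L S m j) (X.ρ m) x y := RN_Ed_mono hy le_rfl hjk le_rfl le_rfl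
  have hq : ∀ r, (∃ z ∈ Bl X m (TT π L m j x) r y, rank X m F j z = r) ↔
      (∃ z ∈ Bl X m (TT π L m j x) r x, rank X m F j z = r) := by
    intro r
    constructor
    · rintro ⟨z, hz, hr⟩
      have h1 : RN (Ed π L S m j) (X.D m) y z :=
        Bl_Ed X hm (hyok.mono le_rfl hjk) (by rwa [hyT])
      have h2 := hb z ((hyj.trans h1).mono (by omega))
      rw [hr] at h2
      exact ⟨z, Bl_trans X (ball_block X hm hjk h2 hy le_rfl) hz, hr⟩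
    · rintro ⟨z, hz, hr⟩
      have h1 : RN (Ed π L S m j) (X.D m) x z := Bl_Ed X hm (hx.mono le_rfl hjk) hz
      have h2 := hb z (h1.mono (by omega))
      rw [hr] at h2
      exact ⟨z, Bl_trans X (Bl_symm X hsymm (ball_block X hm hjk h2 hy le_rfl)) hz, hr⟩
  have hstar : rstar X m F j y = rstar X m F j x := by
    unfold rstar
    rw [hyT]
    congr 1
    funext r
    exact propext (hq r)
  obtain ⟨z, hz, hr⟩ := rstar_spec X m j F x
  have h1 : RN (Ed π L S m j) (X.D m) x z := Bl_Ed X hm (hx.mono le_rfl hjk) hz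
  have h2 := hb z (h1.mono (by omega))
  rw [hr] at h2
  have h3 := ball_block X hm hjk h2 hy le_rfl
  have h4 : cen X m F j y = cen X m F j x := by
    unfold cen DD
    rw [hstar, hyT]
    exact disp_eq X hsymm h3
  rw [nf_lev, nf_lev, h4]

theorem level_a {m j k : ℕ} (hm : m ≤ j) (hjk : j ≤ k)
    (F : ℕ → (ℕ → G) → G) {x : ℕ → G} (hx : Ok π L m k x)
    (hc : Cut (Ed π L S m k) (lev X m F j) (X.ρ m) x) :
    Cut (Ed π L S m j) (F j) (X.D m + X.ρ m) x := by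
  by_contra hno
  have hno' : ∀ y, RN (Ed π L S m j) (X.D m + X.ρ m) x y → nf (F j) y = nf (F j) x := by
    intro y hy
    by_contra hne
    exact hno ⟨y, hy, hne⟩
  obtain ⟨y, hy, hne⟩ := hc
  apply hne
  have hyok : Ok π L m k y := RN_Ed_ok hy hx
  have hyj : RN (Ed π L S m j) (X.ρ m) x y := RN_Ed_mono hy le_rfl hjk le_rfl le_rfl
  rw [nf_lev, nf_lev, hno' _ ((hyj.trans (cen_RN X hm F (hyok.mono le_rfl hjk))).mono (by omega)),
    hno' _ ((cen_RN X hm F (hx.mono le_rfl hjk)).mono (by omega))]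

end

end HypSub
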