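import Pool.Agent.Lib.MP_16db06_lc.AlgRule

/-! Conclusion of the ALG lemma: eventual equivariance. -/

set_option autoImplicit false

namespace HypSub

open Set

universe u

section

variable {G Q : Type u} [Group G] [Group Q] {π : G →* Q} {L : ℕ → Set Q} {S : ℕ → Set G}

/-! ### dependence on the coordinates `≥ m` -/

theorem Ok_agree {m m' j : ℕ} (hm : m ≤ m') {x y : ℕ → G} (h : ∀ i, m ≤ i → x i = y i) :
    Ok π L m' j x ↔ Ok π L m' j y :=
  ⟨fun hx i h1 h2 => by rw [← h i (hm.trans h1)]; exact hx i h1 h2,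
   fun hx i h1 h2 => by rw [h i (hm.trans h1)]; exact hx i h1 h2⟩

theorem TT_agree {m m' j : ℕ} (hm : m ≤ m') {x y : ℕ → G} (h : ∀ i, m ≤ i → x i = y i) :
    TT π L m' j x = TT π L m' j y := by
  ext q
  constructor
  · rintro ⟨h1, h2⟩
    refine ⟨h1, fun i hi hj => ?_⟩
    rw [← h i (hm.trans hi), ← h m' hm]
    exact h2 i hi hj
  · rintro ⟨h1, h2⟩
    refine ⟨h1, fun i hi hj => ?_⟩
    rw [h i (hm.trans hi), h m' hm]
    exact h2 i hi hj

theorem mv_agree {m : ℕ} {x y : ℕ → G} (h : ∀ i, m ≤ i → x i = y i) (γ : G) :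
    ∀ i, m ≤ i → mv γ x i = mv γ y i := fun i hi => by simp [mv, h i hi]

/-- Paths at `x` give paths at `y`. -/
theorem RN_agree {m m' j n : ℕ} (hm : m ≤ m') {x y z : ℕ → G} (h : ∀ i, m ≤ i → x i = y i)
    (hz : RN (Ed π L S m' j) n x z) : ∃ γ, z = mv γ x ∧ RN (Ed π L S m' j) n y (mv γ y) := by
  induction hz with
  | base n a => exact ⟨1, (mv_one a).symm, by rw [mv_one]; exact RN.base _ _⟩
  | step n a b c _ hE ih =>
    obtain ⟨γ, rfl, hγ⟩ := ih h
    obtain ⟨h1, h2, s, hs, rfl⟩ := hE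
    refine ⟨s * γ, by rw [mv_mv], ?_⟩
    rw [← mv_mv]
    exact RN.step _ _ _ _ hγ ⟨(Ok_agree hm (mv_agree h γ)).1 h1,
      (Ok_agree hm (mv_agree (mv_agree h γ) s)).1 h2, s, hs, rfl⟩

variable (X : Layer π L S)

theorem RN_BEd_agree {m m' : ℕ} {T : Set Q} {r n : ℕ} (hm : m ≤ m') {x y z : ℕ → G}
    (h : ∀ i, m ≤ i → x i = y i) (hz : RN (BEd X m' T r) n x z) :
    ∃ γ, z = mv γ x ∧ RN (BEd X m' T r) n y (mv γ y) := by
  induction hz with
  | base n a => exact ⟨1, (mv_one a).symm, by rw [mv_one]; exact RN.base _ _⟩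
  | step n a b c _ hE ih =>
    obtain ⟨γ, rfl, hγ⟩ := ih h
    obtain ⟨h1, h2, s, hs, rfl, h3⟩ := hE
    refine ⟨s * γ, by rw [mv_mv], ?_⟩
    rw [← mv_mv]
    refine RN.step _ _ _ _ hγ ⟨?_, ?_, s, hs, rfl, ?_⟩
    · rw [← mv_agree h γ m' hm]; exact h1
    · rw [← mv_agree (mv_agree h γ) s m' hm]; exact h2
    · rw [← mv_agree (mv_agree h γ) s m' hm, ← mv_agree h γ m' hm]; exact h3

theorem Bl_agree {m m' : ℕ} {T : Set Q} {r : ℕ} (hm : m ≤ m') {x y : ℕ → G}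
    (h : ∀ i, m ≤ i → x i = y i) (γ : G) :
    mv γ x ∈ Bl X m' T r x ↔ mv γ y ∈ Bl X m' T r y := by
  have key : ∀ {x y : ℕ → G}, (∀ i, m ≤ i → x i = y i) →
      mv γ x ∈ Bl X m' T r x → mv γ y ∈ Bl X m' T r y := by
    rintro x y h ⟨n, hn⟩
    obtain ⟨δ, h1, h2⟩ := RN_BEd_agree X hm h hn
    have : γ = δ := by
      have := congrFun h1 m
      simpa [mv] using this
    exact ⟨n, by rw [this]; exact h2⟩
  exact ⟨key h, key fun i hi => (h i hi).symm⟩

/-- `F` depends on the coordinates `≥ m` only -/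
def Dep (m : ℕ) (F : (ℕ → G) → G) : Prop :=
  ∀ x y : ℕ → G, (∀ i, m ≤ i → x i = y i) → F x = F y

theorem nf_ne_iff (F : (ℕ → G) → G) (γ : G) (x : ℕ → G) :
    nf F (mv γ x) ≠ nf F x ↔ F (mv γ x) ≠ γ * F x := by
  unfold nf
  rw [not_iff_not]
  constructor
  · intro h
    have := congrArg (fun t => γ * x 0 * t) h
    simpa [mv, mul_assoc] using this
  · intro h
    rw [h]
    simp [mv, mul_assoc]

theorem Cut_agree {m m' j R : ℕ} (hm : m ≤ m') {F : (ℕ → G) → G} (hF : Dep m F) {x y : ℕ → G}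
    (h : ∀ i, m ≤ i → x i = y i) (hc : Cut (Ed π L S m' j) F R x) :
    Cut (Ed π L S m' j) F R y := by
  obtain ⟨z, hz, hne⟩ := hc
  obtain ⟨γ, rfl, hγ⟩ := RN_agree hm h hz
  refine ⟨mv γ y, hγ, ?_⟩
  rw [nf_ne_iff] at hne ⊢
  rwa [← hF _ _ h, ← hF _ _ (mv_agree h γ)]

theorem lev_dep {m : ℕ} {F : ℕ → (ℕ → G) → G} (hF : ∀ i, Dep m (F i)) (j : ℕ) :
    Dep m (lev X m F j) := by
  have hwalls : ∀ {x y : ℕ → G}, (∀ i, m ≤ i → x i = y i) → ∀ r,
      walls X m F j r x = walls X m F j r y := by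
    intro x y h r
    ext i
    constructor
    · rintro ⟨h1, h2, h3⟩
      exact ⟨h1, h2, Cut_agree le_rfl (hF i) h h3⟩
    · rintro ⟨h1, h2, h3⟩
      exact ⟨h1, h2, Cut_agree le_rfl (hF i) (fun i hi => (h i hi).symm) h3⟩
  have hrank : ∀ {x y : ℕ → G}, (∀ i, m ≤ i → x i = y i) →
      rank X m F j x = rank X m F j y := by
    intro x y h
    unfold rank
    simp only [hwalls h]
  intro x y h
  have hT : TT π L m j x = TT π L m j y := TT_agree le_rfl h
  have hstar : rstar X m F j x = rstar X m F j y := by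
    unfold rstar
    congr 1
    funext r
    rw [hT]
    apply propext
    constructor
    · rintro ⟨z, hz, hr⟩
      have hz' := hz
      obtain ⟨n, hn⟩ := hz'
      obtain ⟨γ, rfl, _⟩ := RN_BEd_tr X hn
      exact ⟨mv γ y, (Bl_agree X le_rfl h γ).1 hz, by rw [← hr, hrank (mv_agree h γ)]⟩
    · rintro ⟨z, hz, hr⟩
      have hz' := hz
      obtain ⟨n, hn⟩ := hz'
      obtain ⟨γ, rfl, _⟩ := RN_BEd_tr X hn
      exact ⟨mv γ x, (Bl_agree X le_rfl h γ).2 hz, by rw [← hr, hrank (mv_agree h γ)]⟩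
  have hvals : ∀ T r, vals X m T r x = vals X m T r y := by
    intro T r
    ext g
    constructor
    · rintro ⟨z, hz, hg⟩
      have hz' := hz
      obtain ⟨n, hn⟩ := hz'
      obtain ⟨γ, rfl, _⟩ := RN_BEd_tr X hn
      exact ⟨mv γ y, (Bl_agree X le_rfl h γ).1 hz, by rw [hg, mv_agree h γ m le_rfl]⟩
    · rintro ⟨z, hz, hg⟩
      have hz' := hz
      obtain ⟨n, hn⟩ := hz'
      obtain ⟨γ, rfl, _⟩ := RN_BEd_tr X hn
      exact ⟨mv γ x, (Bl_agree X le_rfl h γ).2 hz, by rw [hg, mv_agree h γ m le_rfl]⟩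
  have hDD : DD X m F j x = DD X m F j y := by
    unfold DD disp
    rw [hT, hstar, hvals, h m le_rfl]
  unfold lev
  rw [hDD, hF j _ _ (mv_agree h _)]

omit [Group G] in
theorem Dep.mono {m m' : ℕ} (h : m ≤ m') {F : (ℕ → G) → G} (hF : Dep m' F) : Dep m F :=
  fun x y hxy => hF x y fun i hi => hxy i (h.trans hi)

theorem FF_dep (m j : ℕ) : Dep m (FF X m j) := by
  obtain ⟨n, hn⟩ : ∃ n, j + 1 - m = n := ⟨_, rfl⟩
  induction n using Nat.strong_induction_on generalizing m j with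
  | _ n ih =>
    by_cases hmj : m ≤ j
    · rw [FF_le X hmj, lev_congr X m (F' := fun i => if i ≤ j then FF X (m + 1) i else fun _ => 1) j
        (fun i hi => by simp [hi])]
      refine lev_dep X (fun i => ?_) j
      by_cases hi : i ≤ j
      · simp only [hi, if_true]
        exact (ih (i + 1 - (m + 1)) (by omega) (m + 1) i rfl).mono (Nat.le_succ m)
      · simp only [hi, if_false]
        intro x y _
        rfl
    · rw [FF_lt X (by omega : j < m)]
      intro x y _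
      rfl

/-! ### unrolling -/

theorem unroll (hmono : ∀ m, S m ⊆ S (m + 1)) (m j : ℕ) (hm : m ≤ j) (x : ℕ → G)
    (hx : Ok π L 0 j x) :
    ∃ y, RN (Ed π L S m j) (∑ i ∈ Finset.range m, X.D i) x y ∧
      nf (FF X 0 j) x = nf (FF X m j) y := by
  induction m with
  | zero => exact ⟨x, RN.base _ _, rfl⟩
  | succ m ih =>
    obtain ⟨y, hy, he⟩ := ih (by omega)
    have hyok : Ok π L m j y := RN_Ed_ok hy (hx.mono (Nat.zero_le _) le_rfl)
    refine ⟨cen X m (FF X (m + 1)) j y, ?_, ?_⟩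
    · have h1 := hy.trans (cen_RN X (by omega : m ≤ j) (FF X (m + 1)) hyok)
      rw [Finset.sum_range_succ]
      exact RN_Ed_mono h1 (Nat.le_succ m) le_rfl le_rfl (hmono m)
    · rw [he, FF_le X (by omega : m ≤ j), nf_lev]

/-- Finitely many functions are cut near a point. -/
theorem bad_finite (hL : ∀ m, (L m).Finite) (hsymm : ∀ m, ∀ s ∈ S m, s⁻¹ ∈ S m)
    (hmono : ∀ m, S m ⊆ S (m + 1)) (m : ℕ) (x : ℕ → G) (hx : ∀ i, π (x i) ∈ L i) :
    ∀ᶠ j in Filter.atTop, ¬ Cut (Ed π L S m j) (FF X m j) (X.ρ m) x := by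
  classical
  -- stabilisation of the allowed heights
  have hstab : ∃ j₁, m ≤ j₁ ∧ ∀ j, j₁ ≤ j → TT π L m j x = TT π L m j₁ x := by
    have hfin : ∀ j, (TT π L m j x).Finite := fun j => (hL m).subset (TT_sub m j x)
    have hex : ∃ c, ∃ j, m ≤ j ∧ (TT π L m j x).ncard = c := ⟨_, m, le_rfl, rfl⟩
    obtain ⟨j₁, hj₁, hc⟩ := Nat.find_spec hex
    refine ⟨j₁, hj₁, fun j hj => ?_⟩
    refine Set.eq_of_subset_of_ncard_le (TT_anti hj x) ?_ (hfin j₁)
    rw [hc]
    exact Nat.find_min' hex ⟨j, hj₁.trans hj, rfl⟩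
  obtain ⟨j₁, hj₁, hst⟩ := hstab
  let B : Set ℕ := {j | j₁ ≤ j ∧ Cut (Ed π L S m j) (FF X m j) (X.ρ m) x}
  have hBfin : B.Finite := by
    by_contra hinf
    obtain ⟨J, hJ, hcard⟩ := (show B.Infinite from hinf).exists_subset_card_eq (X.d m + 1)
    have hle : J.card ≤ X.d m := by
      refine rule_all X hsymm hmono m (max j₁ (J.sup id)) x (fun i _ _ => hx i) J fun j hj => ?_
      obtain ⟨h1, h2⟩ := hJ hj
      have hjk : j ≤ max j₁ (J.sup id) := le_max_of_le_right (Finset.le_sup (f := id) hj)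
      refine ⟨hj₁.trans h1, hjk, ?_⟩
      refine Cut_of_TT (hj₁.trans h1) ((hj₁.trans h1).trans hjk) ?_ ⟨1, (mv_one x).symm⟩ h2
      rw [hst j h1, hst _ (le_max_left _ _)]
    omega
  obtain ⟨b, hb⟩ := hBfin.bddAbove
  filter_upwards [Filter.eventually_gt_atTop (max b j₁)] with j hj hcut
  have : j ∈ B := ⟨(le_max_right _ _).trans hj.le, hcut⟩
  have := hb this
  have := le_max_left b j₁
  omega

/-- Eventual equivariance. -/
theorem ff_equiv (hL : ∀ m, (L m).Finite) (hsymm : ∀ m, ∀ s ∈ S m, s⁻¹ ∈ S m)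
    (hmono : ∀ m, S m ⊆ S (m + 1)) (x x' : ℕ → G) (hx : ∀ i, π (x i) ∈ L i)
    (hx' : ∀ i, π (x' i) ∈ L i) (γ : G) (m : ℕ) (hγ : γ ∈ S m)
    (h : ∀ i ≥ m, x' i = γ * x i) :
    ∀ᶠ j in Filter.atTop, FF X 0 j x' = γ * FF X 0 j x := by
  filter_upwards [bad_finite X hL hsymm hmono m x hx, Filter.eventually_ge_atTop m] with j hj hmj
  have hno : ∀ y, RN (Ed π L S m j) (X.ρ m) x y → nf (FF X m j) y = nf (FF X m j) x := by
    intro y hy
    by_contra hne
    exact hj ⟨y, hy, hne⟩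
  obtain ⟨y, hy, he⟩ := unroll X hmono m j hmj x fun i _ _ => hx i
  obtain ⟨y', hy', he'⟩ := unroll X hmono m j hmj x' fun i _ _ => hx' i
  have hag : ∀ i, m ≤ i → x' i = mv γ x i := fun i hi => h i hi
  obtain ⟨ε, rfl, hε⟩ := RN_agree le_rfl hag hy'
  have hρ := X.hρ' m
  -- value at `x`
  have h1 : nf (FF X m j) y = nf (FF X m j) x := hno y (hy.mono (by omega))
  have h2 : FF X 0 j x = x 0 * nf (FF X m j) x := by
    rw [← h1, ← he]
    simp [nf]
  -- value at `x'`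
  have hedge : Ed π L S m j x (mv γ x) := by
    refine ⟨fun i _ _ => hx i, fun i hi _ => ?_, γ, hγ, rfl⟩
    rw [← hag i hi]
    exact hx' i
  have h3 : nf (FF X m j) (mv ε (mv γ x)) = nf (FF X m j) x :=
    hno _ (((RN.single hedge).trans hε).mono (by omega))
  have h4 : FF X m j (mv ε x') = FF X m j (mv ε (mv γ x)) := FF_dep X m j _ _ (mv_agree hag ε)
  have h5 : FF X 0 j x' = ε⁻¹ * FF X m j (mv ε x') := by
    have : FF X 0 j x' = x' 0 * nf (FF X 0 j) x' := by simp [nf]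
    rw [this, he']
    simp [nf, mv, mul_assoc]
  have h6 : FF X m j (mv ε (mv γ x)) = ε * γ * x 0 * nf (FF X m j) x := by
    rw [← h3]
    simp [nf, mv, mul_assoc]
  rw [h5, h4, h6, h2]
  simp [mul_assoc]

end

end HypSub
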