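import Mathlib

/-! Reachability within a bounded number of steps in a graph. -/

set_option autoImplicit false

namespace HypSub

universe u v

/-- `RN E n a b`: there is a path of at most `n` edges from `a` to `b`. -/
inductive RN {V : Type u} (E : V → V → Prop) : ℕ → V → V → Prop
  | base (n : ℕ) (a : V) : RN E n a a
  | step (n : ℕ) (a b c : V) : RN E n a b → E b c → RN E (n + 1) a c

variable {V : Type u} {E E' : V → V → Prop}

theorem RN.mono {n n' : ℕ} {a b : V} (h : RN E n a b) (hn : n ≤ n') : RN E n' a b := by
  induction h generalizing n' with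
  | base n a => exact RN.base _ _
  | step n a b c _ hE ih =>
    obtain ⟨k, rfl⟩ : ∃ k, n' = k + 1 := ⟨n' - 1, by omega⟩
    exact RN.step _ _ _ _ (ih (by omega)) hE

/-- Change of the edge relation along a path, with an invariant. -/
theorem RN.imp (P : V → Prop) {n : ℕ} {a b : V} (h : RN E n a b) (ha : P a)
    (hE : ∀ x y, P x → E x y → P y ∧ E' x y) : P b ∧ RN E' n a b := by
  induction h with
  | base n a => exact ⟨ha, RN.base _ _⟩
  | step n a b c _ hbc ih =>
    obtain ⟨hb, hr⟩ := ih ha
    obtain ⟨hc, he⟩ := hE b c hb hbc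
    exact ⟨hc, RN.step _ _ _ _ hr he⟩

theorem RN.trans {n n' : ℕ} {a b c : V} (h : RN E n a b) (h' : RN E n' b c) :
    RN E (n + n') a c := by
  induction h' with
  | base n' b => exact h.mono (by omega)
  | step n' b c d _ hE ih => exact RN.step _ _ _ _ (ih h) hE

theorem RN.single {a b : V} (h : E a b) : RN E 1 a b := RN.step 0 a a b (RN.base 0 a) h

theorem RN.symm (hs : ∀ a b, E a b → E b a) {n : ℕ} {a b : V} (h : RN E n a b) :
    RN E n b a := by
  induction h with
  | base n a => exact RN.base _ _
  | step n a b c _ hE ih =>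
    have := (RN.single (hs _ _ hE)).trans ih
    rwa [Nat.add_comm] at this

theorem RN.map {W : Type v} {E'' : W → W → Prop} (f : V → W)
    (hf : ∀ a b, E a b → E'' (f a) (f b)) {n : ℕ} {a b : V} (h : RN E n a b) :
    RN E'' n (f a) (f b) := by
  induction h with
  | base n a => exact RN.base _ _
  | step n a b c _ hE ih => exact RN.step _ _ _ _ ih (hf _ _ hE)

/-- In a finite set of at most `D` reachable points every point is reached in `D` steps. -/
theorem RN.bound {a : V} {D : ℕ} (hfin : {b | ∃ n, RN E n a b}.Finite)
    (hcard : {b | ∃ n, RN E n a b}.ncard ≤ D) {n : ℕ} {b : V} (h : RN E n a b) :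
    RN E D a b := by
  classical
  -- the sets of points reached in at most `n` steps
  by_contra hcon
  let B : ℕ → Set V := fun n => {b | RN E n a b}
  have hBsub : ∀ n, B n ⊆ {b | ∃ n, RN E n a b} := fun n b hb => ⟨n, hb⟩
  have hBfin : ∀ n, (B n).Finite := fun n => hfin.subset (hBsub n)
  have hmono : ∀ n, B n ⊆ B (n + 1) := fun n b hb => RN.mono hb (by omega)
  -- if `B k = B (k+1)` then everything is in `B k`
  have hstab : ∀ k, B (k + 1) ⊆ B k → ∀ n b, RN E n a b → b ∈ B k := by
    intro k hk n
    induction n with
    | zero =>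
      intro b hb
      cases hb
      exact RN.base _ _
    | succ n ih =>
      intro b hb
      cases hb with
      | base => exact RN.base _ _
      | step _ _ b' _ h1 h2 => exact hk (RN.step _ _ _ _ (ih _ h1) h2)
  have hlt : ∀ k, k ≤ D → k + 1 ≤ (B k).ncard := by
    intro k
    induction k with
    | zero =>
      intro _
      have : (B 0).Nonempty := ⟨a, RN.base _ _⟩
      have := (Set.ncard_pos (hBfin 0)).2 this
      omega
    | succ k ih =>
      intro hk
      have h1 := ih (by omega)
      have h2 : ¬ B (k + 1) ⊆ B k := by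
        intro hsub
        exact hcon (RN.mono (hstab k hsub n b h) (by omega))
      have h3 : (B k).ncard < (B (k + 1)).ncard :=
        Set.ncard_lt_ncard ⟨hmono k, h2⟩ (hBfin _)
      omega
  have h1 := hlt D le_rfl
  have h2 : (B D).ncard ≤ D := (Set.ncard_le_ncard (hBsub D) hfin).trans hcard
  omega

end HypSub
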