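import Pool.Agent.Lib.MP_16db06_lc.Defs
import Pool.Agent.Lib.MP_16db06_lc.Graph

/-! The construction of the functions of the ALG lemma. -/

set_option autoImplicit false

namespace HypSub

open Set

universe u

section

variable {G Q : Type u} [Group G] [Group Q]

/-- translation of a sequence -/
def mv (γ : G) (x : ℕ → G) : ℕ → G := fun i => γ * x i

theorem mv_apply (γ : G) (x : ℕ → G) (i : ℕ) : mv γ x i = γ * x i := rfl

theorem mv_mv (γ δ : G) (x : ℕ → G) : mv γ (mv δ x) = mv (γ * δ) x := by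
  funext i; simp [mv, mul_assoc]

theorem mv_one (x : ℕ → G) : mv 1 x = x := by
  funext i; simp [mv]

variable (π : G →* Q) (L : ℕ → Set Q) (S : ℕ → Set G)

/-- `x` is admissible in the coordinates `m, ..., j` -/
def Ok (m j : ℕ) (x : ℕ → G) : Prop := ∀ i, m ≤ i → i ≤ j → π (x i) ∈ L i

/-- the heights of level `m` which are allowed by the levels `m, ..., j` -/
def TT (m j : ℕ) (x : ℕ → G) : Set Q :=
  {q | q ∈ L m ∧ ∀ i, m ≤ i → i ≤ j → q * (π (x m))⁻¹ * π (x i) ∈ L i}

/-- allowed steps -/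
def Ed (m j : ℕ) (x y : ℕ → G) : Prop :=
  Ok π L m j x ∧ Ok π L m j y ∧ ∃ s ∈ S m, y = mv s x

/-- normalised value -/
def nf (F : (ℕ → G) → G) (x : ℕ → G) : G := (x 0)⁻¹ * F x

/-- `F` is cut within distance `R` of `x` -/
def Cut (E : (ℕ → G) → (ℕ → G) → Prop) (F : (ℕ → G) → G) (R : ℕ) (x : ℕ → G) : Prop :=
  ∃ y, RN E R x y ∧ nf F y ≠ nf F x

/-- choice of an element of a set -/
noncomputable def pick (s : Set G) : G := by
  classical
  exact if h : s.Nonempty then h.some else 1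

theorem pick_mem {s : Set G} (h : s.Nonempty) : pick s ∈ s := by
  classical
  unfold pick
  rw [dif_pos h]
  exact h.some_mem

/-- the largest `r ≤ N` with `P r` -/
noncomputable def gmax (P : ℕ → Prop) (N : ℕ) : ℕ := by
  classical
  exact Nat.findGreatest P N

theorem gmax_le (P : ℕ → Prop) (N : ℕ) : gmax P N ≤ N := by
  classical
  unfold gmax
  exact Nat.findGreatest_le N

theorem le_gmax {P : ℕ → Prop} {N r : ℕ} (h : P r) (hr : r ≤ N) : r ≤ gmax P N := by
  classical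
  unfold gmax
  exact Nat.le_findGreatest hr h

theorem gmax_spec {P : ℕ → Prop} {N r : ℕ} (h : P r) (hr : r ≤ N) : P (gmax P N) := by
  classical
  unfold gmax
  exact Nat.findGreatest_spec hr h

variable {π L S}
variable (X : Layer π L S)

/-- unbroken steps -/
def BEd (m : ℕ) (T : Set Q) (r : ℕ) (x y : ℕ → G) : Prop :=
  π (x m) ∈ T ∧ π (y m) ∈ T ∧ ∃ s ∈ S m, y = mv s x ∧
    X.lam m T r (y m) = s * X.lam m T r (x m)

/-- the block of `x` -/
def Bl (m : ℕ) (T : Set Q) (r : ℕ) (x : ℕ → G) : Set (ℕ → G) :=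
  {y | ∃ n, RN (BEd X m T r) n x y}

/-- the distances `s_r = 2 r (D + ρ)` -/
def sc (m r : ℕ) : ℕ := 2 * r * (X.D m + X.ρ m)

/-- the walls of the family `F` near `x` -/
def walls (m : ℕ) (F : ℕ → (ℕ → G) → G) (j r : ℕ) (x : ℕ → G) : Set ℕ :=
  {i | m ≤ i ∧ i < j ∧ Cut (Ed π L S m j) (F i) (sc X m r) x}

/-- the rank -/
noncomputable def rank (m : ℕ) (F : ℕ → (ℕ → G) → G) (j : ℕ) (x : ℕ → G) : ℕ :=
  gmax (fun r => r ≤ (walls X m F j r x).ncard) (X.N m)

/-- the largest qualifying rank -/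
noncomputable def rstar (m : ℕ) (F : ℕ → (ℕ → G) → G) (j : ℕ) (x : ℕ → G) : ℕ :=
  gmax (fun r => ∃ y ∈ Bl X m (TT π L m j x) r x, rank X m F j y = r) (X.N m)

/-- the values of `lam` on a block -/
def vals (m : ℕ) (T : Set Q) (r : ℕ) (x : ℕ → G) : Set G :=
  {g | ∃ y ∈ Bl X m T r x, g = X.lam m T r (y m)}

/-- the displacement from `x` to the centre of its block -/
noncomputable def disp (m : ℕ) (T : Set Q) (r : ℕ) (x : ℕ → G) : G :=
  pick (vals X m T r x) * (X.lam m T r (x m))⁻¹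

/-- the displacement for the largest qualifying rank -/
noncomputable def DD (m : ℕ) (F : ℕ → (ℕ → G) → G) (j : ℕ) (x : ℕ → G) : G :=
  disp X m (TT π L m j x) (rstar X m F j x) x

/-- one level of the construction -/
noncomputable def lev (m : ℕ) (F : ℕ → (ℕ → G) → G) (j : ℕ) (x : ℕ → G) : G :=
  (DD X m F j x)⁻¹ * F j (mv (DD X m F j x) x)

/-- the functions `F_m^j` -/
noncomputable def FF (m j : ℕ) : (ℕ → G) → G :=
  if h : j < m then fun _ => 1
  else lev X m (fun i => if h' : i ≤ j then FF (m + 1) i else fun _ => 1) j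
termination_by j + 1 - m
decreasing_by omega

/-! ### Congruence in the family -/

theorem walls_congr (m : ℕ) {F F' : ℕ → (ℕ → G) → G} (j : ℕ) (h : ∀ i ≤ j, F i = F' i)
    (r : ℕ) (x : ℕ → G) : walls X m F j r x = walls X m F' j r x := by
  ext i
  constructor
  · rintro ⟨h1, h2, h3⟩
    exact ⟨h1, h2, by rwa [← h i h2.le]⟩
  · rintro ⟨h1, h2, h3⟩
    exact ⟨h1, h2, by rwa [h i h2.le]⟩

theorem rank_congr (m : ℕ) {F F' : ℕ → (ℕ → G) → G} (j : ℕ) (h : ∀ i ≤ j, F i = F' i)
    (x : ℕ → G) : rank X m F j x = rank X m F' j x := by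
  unfold rank
  simp only [walls_congr X m j h]

theorem rstar_congr (m : ℕ) {F F' : ℕ → (ℕ → G) → G} (j : ℕ) (h : ∀ i ≤ j, F i = F' i)
    (x : ℕ → G) : rstar X m F j x = rstar X m F' j x := by
  unfold rstar
  simp only [rank_congr X m j h]

theorem lev_congr (m : ℕ) {F F' : ℕ → (ℕ → G) → G} (j : ℕ) (h : ∀ i ≤ j, F i = F' i) :
    lev X m F j = lev X m F' j := by
  funext x
  unfold lev DD
  rw [rstar_congr X m j h, h j le_rfl]

theorem FF_lt {m j : ℕ} (h : j < m) : FF X m j = fun _ => 1 := by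
  rw [FF, dif_pos h]

theorem FF_le {m j : ℕ} (h : m ≤ j) : FF X m j = lev X m (FF X (m + 1)) j := by
  rw [FF, dif_neg (by omega)]
  refine lev_congr X m j fun i hi => ?_
  simp [hi]

end

end HypSub
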