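import Pool.Agent.Lib.MP_16db06_lc.AlgBasic

/-! The rule: few of the functions `F_m^j` are cut near a point. -/

set_option autoImplicit false

namespace HypSub

open Set

universe u

section

variable {G Q : Type u} [Group G] [Group Q] {π : G →* Q} {L : ℕ → Set Q} {S : ℕ → Set G}
variable (X : Layer π L S)

/-- RULE(m) at time k -/
def Rule (m k : ℕ) (F : ℕ → (ℕ → G) → G) : Prop :=
  ∀ x, Ok π L m k x → ∀ J : Finset ℕ,
    (∀ j ∈ J, m ≤ j ∧ j ≤ k ∧ Cut (Ed π L S m k) (F j) (X.ρ m) x) → J.card ≤ X.d m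

theorem Reach_of_RN {m k n : ℕ} (hm : m ≤ k) {x y : ℕ → G} (h : RN (Ed π L S m k) n x y) :
    ∃ γ, y = mv γ x ∧ Reach π (S m) (L m) (π (x m)) n γ := by
  induction h with
  | base n a => exact ⟨1, (mv_one a).symm, Reach.base n⟩
  | step n a b c _ hE ih =>
    obtain ⟨γ, rfl, hγ⟩ := ih
    obtain ⟨_, h2, s, hs, rfl⟩ := hE
    refine ⟨s * γ, by rw [mv_mv], Reach.step n γ s hγ hs ?_⟩
    have := h2 m le_rfl hm
    simpa [mv, mul_assoc] using this

/-- The number of indices which are broken near `x`. -/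
theorem broken_card {m k : ℕ} (hm : m ≤ k) {x : ℕ → G} (hx : Ok π L m k x)
    (J : Finset (Set Q × ℕ))
    (hJ : ∀ p ∈ J, p.1 ⊆ L m ∧ p.2 ≤ X.N m ∧ Br X m k p.1 p.2 x) : J.card ≤ X.d m := by
  refine X.broken m (x m) (hx m le_rfl hm) J fun p hp => ?_
  obtain ⟨h1, h2, y, hy, s, hs, hok, hne⟩ := hJ p hp
  obtain ⟨γ, rfl, hγ⟩ := Reach_of_RN hm hy
  exact ⟨h1, h2, γ, hγ, s, hs, hok m le_rfl hm, hne⟩

theorem rule_step (hsymm : ∀ m, ∀ s ∈ S m, s⁻¹ ∈ S m) (hmono : ∀ m, S m ⊆ S (m + 1))
    (m k : ℕ) (F : ℕ → (ℕ → G) → G) (hF : ∀ j, m ≤ j → j ≤ k → Rule X (m + 1) j F) :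
    Rule X m k (lev X m F) := by
  classical
  intro x hx J hJ
  -- the data of the bad `j`
  have hB : ∀ j ∈ J, ∃ v, RN (Ed π L S m j) (X.D m + X.ρ m) x v ∧
      Br X m k (TT π L m j x) (rank X m F j v) x := by
    intro j hj
    obtain ⟨h1, h2, h3⟩ := hJ j hj
    by_contra hno
    push Not at hno
    exact level_b X hsymm h1 h2 F hx hno h3
  choose! v hv hbr using hB
  have hA : ∀ j ∈ J, Cut (Ed π L S m j) (F j) (X.D m + X.ρ m) x := by
    intro j hj
    obtain ⟨h1, h2, h3⟩ := hJ j hj
    exact level_a X h1 h2 F hx h3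
  -- ranks increase
  have hC : ∀ j ∈ J, ∀ j' ∈ J, j < j' → TT π L m j x = TT π L m j' x →
      rank X m F j (v j) < rank X m F j' (v j') := by
    intro j hj j' hj' hlt hT
    obtain ⟨h1, h2, _⟩ := hJ j hj
    obtain ⟨h1', h2', _⟩ := hJ j' hj'
    have hEs : ∀ a b, Ed π L S m j' a b → Ed π L S m j' b a := fun a b => Ed.symm hsymm
    set r := rank X m F j (v j) with hr
    have hrN : r ≤ X.N m := gmax_le _ _
    have hrW : r ≤ (walls X m F j r (v j)).ncard := by
      have := gmax_spec (P := fun r => r ≤ (walls X m F j r (v j)).ncard) (N := X.N m)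
        (r := 0) (Nat.zero_le _) (Nat.zero_le _)
      exact this
    have hx1 : ∃ γ, x = mv γ x := ⟨1, (mv_one x).symm⟩
    have hxv : RN (Ed π L S m j') (X.D m + X.ρ m) x (v j) :=
      RN_of_TT h1 h1' hT hx1 (hv j hj)
    have hxv' : RN (Ed π L S m j') (X.D m + X.ρ m) x (v j') := hv j' hj'
    have hvv' : RN (Ed π L S m j') (2 * (X.D m + X.ρ m)) (v j) (v j') :=
      ((hxv.symm hEs).trans hxv').mono (by omega)
    have hsc : sc X m (r + 1) = 2 * (X.D m + X.ρ m) + sc X m r := by
      unfold sc; ring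
    -- the walls of `j` and `j` itself are walls of `j'` at scale `r + 1`
    have hsub : insert j (walls X m F j r (v j)) ⊆ walls X m F j' (r + 1) (v j') := by
      intro i hi
      rcases hi with rfl | hi
      · refine ⟨h1, hlt, ?_⟩
        have e1 : Cut (Ed π L S m j') (F i) (X.D m + X.ρ m) x :=
          Cut_of_TT h1 h1' hT hx1 (hA i hj)
        exact (e1.move hEs hxv').mono (by rw [hsc]; omega)
      · obtain ⟨g1, g2, g3⟩ := hi
        refine ⟨g1, g2.trans hlt, ?_⟩
        have e1 : Cut (Ed π L S m j') (F i) (sc X m r) (v j) :=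
          Cut_of_TT h1 h1' hT (RN_Ed_tr hxv) g3
        rw [hsc]
        exact e1.move hEs hvv'
    have hfin' : (walls X m F j' (r + 1) (v j')).Finite :=
      (Set.finite_Iio j').subset fun i hi => hi.2.1
    have hfin : (walls X m F j r (v j)).Finite :=
      (Set.finite_Iio j).subset fun i hi => hi.2.1
    have hcard : r + 1 ≤ (walls X m F j' (r + 1) (v j')).ncard := by
      have hj0 : j ∉ walls X m F j r (v j) := fun h => lt_irrefl _ h.2.1
      calc r + 1 ≤ (walls X m F j r (v j)).ncard + 1 := by omega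
        _ = (insert j (walls X m F j r (v j))).ncard := (Set.ncard_insert_of_notMem hj0 hfin).symm
        _ ≤ _ := Set.ncard_le_ncard hsub hfin'
    -- the bound for the number of walls
    have hN : (insert j (walls X m F j r (v j))).ncard ≤ X.N m := by
      have hfin2 : (insert j (walls X m F j r (v j))).Finite := hfin.insert j
      set W : Finset ℕ := hfin2.toFinset with hW
      have hWm : (W.erase m).card ≤ X.d (m + 1) := by
        refine hF j' h1' h2' (v j') ((RN_Ed_ok hxv' (hx.mono le_rfl h2')).mono (by omega) le_rfl)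
          (W.erase m) fun i hi => ?_
        obtain ⟨hne, hiW⟩ := Finset.mem_erase.1 hi
        have hiW' : i ∈ walls X m F j' (r + 1) (v j') := hsub (hfin2.mem_toFinset.1 hiW)
        obtain ⟨g1, g2, g3⟩ := hiW'
        refine ⟨by omega, g2.le, Cut_Ed_mono g3 (Nat.le_succ m) le_rfl ?_ (hmono m)⟩
        refine le_trans ?_ (X.hρ m)
        unfold sc
        calc 2 * (r + 1) * (X.D m + X.ρ m) = 2 * (X.D m + X.ρ m) * (r + 1) := by ring
          _ ≤ 2 * (X.D m + X.ρ m) * (X.N m + 2) := Nat.mul_le_mul_left _ (by omega)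
      have hcW : W.card - 1 ≤ (W.erase m).card := Finset.pred_card_le_card_erase
      have hcW2 : (insert j (walls X m F j r (v j))).ncard = W.card :=
        Set.ncard_eq_toFinset_card _ hfin2
      rw [hcW2, X.hN m]
      omega
    have hj0 : j ∉ walls X m F j r (v j) := fun h => lt_irrefl _ h.2.1
    have hr1 : r + 1 ≤ X.N m := by
      rw [Set.ncard_insert_of_notMem hj0 hfin] at hN
      omega
    have : r + 1 ≤ rank X m F j' (v j') :=
      le_gmax (P := fun r => r ≤ (walls X m F j' r (v j')).ncard) hcard hr1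
    omega
  -- the map to the indices is injective
  let f : ℕ → Set Q × ℕ := fun j => (TT π L m j x, rank X m F j (v j))
  have hinj : Set.InjOn f J := by
    intro j hj j' hj' he
    have he1 : TT π L m j x = TT π L m j' x := congrArg Prod.fst he
    have he2 : rank X m F j (v j) = rank X m F j' (v j') := congrArg Prod.snd he
    rcases lt_trichotomy j j' with h | h | h
    · have := hC j hj j' hj' h he1
      omega
    · exact h
    · have := hC j' hj' j hj h he1.symm
      omega
  rw [← Finset.card_image_of_injOn hinj]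
  by_cases hJe : J = ∅
  · subst hJe; simp
  obtain ⟨j0, hj0⟩ := Finset.nonempty_iff_ne_empty.2 hJe
  have hmk : m ≤ k := (hJ j0 hj0).1.trans (hJ j0 hj0).2.1
  refine broken_card X hmk hx _ fun p hp => ?_
  obtain ⟨j, hj, rfl⟩ := Finset.mem_image.1 hp
  exact ⟨TT_sub _ _ _, gmax_le _ _, hbr j hj⟩

theorem Rule_congr {m k : ℕ} {F F' : ℕ → (ℕ → G) → G} (h : ∀ j, m ≤ j → j ≤ k → F j = F' j)
    (hF : Rule X m k F) : Rule X m k F' := by
  intro x hx J hJ
  refine hF x hx J fun j hj => ?_
  obtain ⟨h1, h2, h3⟩ := hJ j hj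
  exact ⟨h1, h2, by rwa [h j h1 h2]⟩

theorem rule_all (hsymm : ∀ m, ∀ s ∈ S m, s⁻¹ ∈ S m) (hmono : ∀ m, S m ⊆ S (m + 1)) (m k : ℕ) :
    Rule X m k (FF X m) := by
  -- induction on `k + 1 - m`
  obtain ⟨n, hn⟩ : ∃ n, k + 1 - m = n := ⟨_, rfl⟩
  induction n using Nat.strong_induction_on generalizing m k with
  | _ n ih =>
    by_cases hmk : m ≤ k
    · refine Rule_congr X (F := lev X m (FF X (m + 1))) (fun j hj _ => (FF_le X hj).symm) ?_
      refine rule_step X hsymm hmono m k _ fun j _ hj2 => ?_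
      exact ih (j + 1 - (m + 1)) (by omega) (m + 1) j rfl
    · intro x _ J hJ
      have : J = ∅ := by
        rw [Finset.eq_empty_iff_forall_notMem]
        intro j hj
        obtain ⟨h1, h2, _⟩ := hJ j hj
        omega
      subst this
      simp

end

end HypSub
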