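import Mathlib

/-!
# MP_16db06_lc : generic subshifts over the Hilbert cube

The definitions used in the statement of the theorem.
-/

set_option autoImplicit false

namespace HypSub

open Set Topology

universe u

/-- The full shift space `(I^ℕ)^Γ` over the Hilbert cube. -/
abbrev Full (Γ : Type u) : Type u := Γ → ℕ → unitInterval

/-- The shift action `(g · x)(h) = x(g⁻¹ h)`. -/
def shift {Γ : Type u} [Group Γ] (g : Γ) (x : Full Γ) : Full Γ := fun h => x (g⁻¹ * h)

/-- The space of subshifts: compact (equivalently closed) shift invariant subsets of `(I^ℕ)^Γ`, with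
the topology induced by the Vietoris topology. -/
def Subshift (Γ : Type u) [Group Γ] : Type u :=
  {K : TopologicalSpace.Compacts (Full Γ) // ∀ (g : Γ) (x : Full Γ), x ∈ K → shift g x ∈ K}

instance (Γ : Type u) [Group Γ] : TopologicalSpace (Subshift Γ) :=
  instTopologicalSpaceSubtype

/-- Points of a subshift. -/
abbrev Subshift.Pt {Γ : Type u} [Group Γ] (Y : Subshift Γ) : Type u := {x : Full Γ // x ∈ Y.1}

/-- The orbit equivalence relation of a subshift. -/
def orbitRel {Γ : Type u} [Group Γ] (Y : Subshift Γ) (x y : Y.Pt) : Prop :=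
  ∃ g : Γ, shift g x.1 = y.1

/-- A relation `E` on a topological space is hyperfinite: it is the union of an increasing sequence
of Borel equivalence relations with finite classes. -/
def Hyperfinite {X : Type u} [TopologicalSpace X] (E : X → X → Prop) : Prop :=
  ∃ F : ℕ → X → X → Prop,
    (∀ n, Equivalence (F n)) ∧
    (∀ n, @MeasurableSet (X × X) (borel (X × X)) {p | F n p.1 p.2}) ∧
    (∀ n x, {y | F n x y}.Finite) ∧
    (∀ n x y, F n x y → F (n + 1) x y) ∧
    (∀ x y, E x y ↔ ∃ n, F n x y)

/-- One step inside `U` along the finite set `S` (in either direction). -/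
def LinkIn {A : Type u} [Group A] (S : Finset A) (U : Set A) (g h : A) : Prop :=
  g ∈ U ∧ h ∈ U ∧ ∃ s ∈ S, h = s * g ∨ g = s * h

/-- `asdim A ≤ d`: for every finite `S` there is a cover of `A` by `d + 1` sets whose `S`-components
are finite with a uniform bound on their size. -/
def AsdimLE (A : Type u) [Group A] (d : ℕ) : Prop :=
  ∀ S : Finset A, ∃ U : Fin (d + 1) → Set A, (∀ g, ∃ c, g ∈ U c) ∧
    ∃ N : ℕ, ∀ c, ∀ g ∈ U c, {h | Relation.ReflTransGen (LinkIn S (U c)) g h}.Finite ∧
      {h | Relation.ReflTransGen (LinkIn S (U c)) g h}.ncard ≤ N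

/-- Locally finite asymptotic dimension: every finitely generated subgroup has finite asymptotic
dimension. -/
def LocFinAsdim (A : Type u) [Group A] : Prop :=
  ∀ H : Subgroup A, H.FG → ∃ d, AsdimLE H d

/-- `Tower n G`: there is a series `1 = M₀ ≤ M₁ ≤ ... ≤ M_n = G` of normal subgroups of `G` all of
whose factors have locally finite asymptotic dimension. -/
def Tower : ℕ → (G : Type u) → [Group G] → Prop
  | 0, G, _ => Subsingleton G
  | n + 1, G, _ => ∃ (A : Subgroup G) (_ : A.Normal), LocFinAsdim A ∧ Tower n (G ⧸ A)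

end HypSub
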