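import Mathlib
import Pool.Agent.Lib.MP_16db06_lc.Statement

/-!
# MP_16db06_lc : generic subshifts over the Hilbert cube

Auxiliary notions shared by the modules (the definitions of the statement are in `Statement.lean`).
-/

set_option autoImplicit false

namespace HypSub

open Set Topology

universe u

/-! ## Auxiliary notions (not in the statement) -/

section action

variable {Γ : Type u} [Group Γ]

theorem shift_one (x : Full Γ) : shift 1 x = x := by
  funext h; simp [shift]

theorem shift_mul (g k : Γ) (x : Full Γ) : shift (g * k) x = shift g (shift k x) := by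
  funext h; simp [shift, mul_assoc]

theorem continuous_shift (g : Γ) : Continuous (shift g : Full Γ → Full Γ) :=
  continuous_pi fun h => continuous_apply (g⁻¹ * h)

/-- The action on the points of a subshift. -/
instance (Y : Subshift Γ) : MulAction Γ Y.Pt where
  smul g x := ⟨shift g x.1, Y.2 g x.1 x.2⟩
  one_smul x := Subtype.ext (shift_one x.1)
  mul_smul g k x := Subtype.ext (shift_mul g k x.1)

theorem smul_val (Y : Subshift Γ) (g : Γ) (x : Y.Pt) : (g • x).1 = shift g x.1 := rfl

instance (Y : Subshift Γ) : ContinuousConstSMul Γ Y.Pt where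
  continuous_const_smul g :=
    Continuous.subtype_mk ((continuous_shift g).comp continuous_subtype_val) _

instance (Y : Subshift Γ) : CompactSpace Y.Pt := isCompact_iff_compactSpace.mp Y.1.2

end action

/-- Products of at most `n` elements of `C`. -/
def Ball {A : Type u} [Group A] (C : Set A) (n : ℕ) : Set A :=
  {u | ∃ l : List A, (∀ c ∈ l, c ∈ C) ∧ l.length ≤ n ∧ l.prod = u}

/-- Kolmogorov property: for every finite `C` there is `d` such that for all `ρ, n` there are `n` maps
`β` of finite range with at most `d` of them broken in each ball of radius `ρ`. -/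
def Kol (A : Type u) [Group A] : Prop :=
  ∀ C : Set A, C.Finite → ∃ d : ℕ, ∀ ρ n : ℕ, ∃ β : Fin n → A → A,
    (∀ t, (Set.range (β t)).Finite) ∧
    ∀ a : A, ({t | ∃ u ∈ Ball C ρ, ∃ c ∈ C, β t (c * (u * a)) ≠ c * β t (u * a)} :
      Set (Fin n)).ncard ≤ d

/-- Every locally checkable labelling problem that has a solution on each orbit has a continuous
solution. -/
def LCL (Γ : Type u) (Y : Type u) [Group Γ] [TopologicalSpace Y] [MulAction Γ Y] : Prop :=
  ∀ (a b : ℕ) (S : Finset Γ) (R : (S → Fin a) → (S → Fin b) → Prop) (φ : Y → Fin a),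
    IsLocallyConstant φ →
    (∀ y : Y, ∃ w : Γ → Fin b, ∀ g : Γ,
      R (fun s => φ ((s : Γ) • g • y)) (fun s => w ((s : Γ) * g))) →
    ∃ ψ : Y → Fin b, IsLocallyConstant ψ ∧
      ∀ y : Y, R (fun s => φ ((s : Γ) • y)) (fun s => ψ ((s : Γ) • y))

/-- Asymptotically equivariant maps along `θ : Γ → G`. -/
def AE {Γ : Type u} (Y : Type u) [Group Γ] [TopologicalSpace Y] [MulAction Γ Y]
    {G : Type u} [Group G] (θ : Γ →* G) : Prop :=
  ∃ h : ℕ → Y → G, (∀ k, IsLocallyConstant (h k)) ∧ (∀ k, (Set.range (h k)).Finite) ∧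
    ∀ (γ : Γ) (y : Y), ∀ᶠ k in Filter.atTop, h k (γ • y) = θ γ * h k y

/-! ## The combinatorial layer -/

section layer

variable {G Q : Type u} [Group G] [Group Q]

/-- `Reach π S T q n γ`: `γ` is a product of at most `n` elements of `S`, and all nontrivial partial
products `γ'` satisfy `π γ' * q ∈ T`. -/
inductive Reach (π : G →* Q) (S : Set G) (T : Set Q) (q : Q) : ℕ → G → Prop
  | base (n : ℕ) : Reach π S T q n 1
  | step (n : ℕ) (γ s : G) : Reach π S T q n γ → s ∈ S → π (s * γ) * q ∈ T →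
      Reach π S T q (n + 1) (s * γ)

/-- The data of one layer: heights in `Q`, finite sets `L m` of heights, finite sets `S m` of
displacements and the maps `lam m T r`. -/
structure Layer (π : G →* Q) (L : ℕ → Set Q) (S : ℕ → Set G) where
  /-- the maps `lam m T r` for `T ⊆ L m`, `r ≤ N m` -/
  lam : ℕ → Set Q → ℕ → G → G
  /-- a finite set containing the values of `lam m T r` -/
  Λ : ℕ → Set G
  N : ℕ → ℕ
  d : ℕ → ℕ
  ρ : ℕ → ℕ
  D : ℕ → ℕ
  finΛ : ∀ m, (Λ m).Finite
  memΛ : ∀ m T r g, π g ∈ L m → lam m T r g ∈ Λ m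
  hD : ∀ m, {u : G | ∃ a ∈ Λ m, ∃ b ∈ Λ m, u = a * b⁻¹}.ncard ≤ D m
  hN : ∀ m, N m = d (m + 1) + 1
  hρ : ∀ m, 2 * (D m + ρ m) * (N m + 2) ≤ ρ (m + 1)
  hρ' : ∀ m, 1 + ∑ i ∈ Finset.range m, D i ≤ ρ m
  /-- at most `d m` indices are broken in a ball of radius `ρ m` -/
  broken : ∀ m g, π g ∈ L m → ∀ J : Finset (Set Q × ℕ),
    (∀ p ∈ J, p.1 ⊆ L m ∧ p.2 ≤ N m ∧
      ∃ γ, Reach π (S m) (L m) (π g) (ρ m) γ ∧ ∃ s ∈ S m, π (s * (γ * g)) ∈ L m ∧
        lam m p.1 p.2 (s * (γ * g)) ≠ s * lam m p.1 p.2 (γ * g)) →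
    J.card ≤ d m

/-- Two points have the same picture of radius `κ` at level `i`. -/
def Same {π : G →* Q} {L : ℕ → Set Q} {S : ℕ → Set G} (X : Layer π L S) (i κ : ℕ)
    (g g' : G) : Prop :=
  π g = π g' ∧ ∀ γ, Reach π (S i) (L i) (π g) κ γ → ∀ T ⊆ L i, ∀ r ≤ X.N i,
    X.lam i T r (γ * g) = X.lam i T r (γ * g')

end layer

end HypSub
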