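import Pool.Agent.Lib.MP_16db06_lc.Defs

/-! Subshifts with a labelling written in a far coordinate. -/

set_option autoImplicit false

namespace HypSub

open Set Topology Filter

universe u

section

attribute [local instance] TopologicalSpace.vietoris

/-- the code of a label -/
noncomputable def dnEnc {b : ℕ} (i : Fin b) : unitInterval :=
  ⟨1 / ((i : ℝ) + 1), by
    have h : (0 : ℝ) ≤ ((i : ℕ) : ℝ) := Nat.cast_nonneg _
    refine ⟨by positivity, ?_⟩
    rw [div_le_one (by positivity)]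
    linarith⟩

theorem dnEnc_injective (b : ℕ) : Function.Injective (dnEnc (b := b)) := by
  intro i k h
  have h1 : (1 : ℝ) / ((i : ℝ) + 1) = 1 / ((k : ℝ) + 1) := congrArg Subtype.val h
  have hi : (0 : ℝ) < (i : ℝ) + 1 := by positivity
  have hk : (0 : ℝ) < (k : ℝ) + 1 := by positivity
  rw [div_eq_div_iff hi.ne' hk.ne'] at h1
  have h2 : ((i : ℕ) : ℝ) = ((k : ℕ) : ℝ) := by linarith
  exact Fin.ext (by exact_mod_cast h2)

variable {Γ : Type u} [Group Γ]

open Classical in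
/-- write the labelling `w` in the coordinate `n` -/
noncomputable def dnPhi {b : ℕ} (n : ℕ) (p : Full Γ × (Γ → Fin b)) : Full Γ :=
  fun h m => if m = n then dnEnc (p.2 h⁻¹) else p.1 h m

theorem dnPhi_ne {b : ℕ} {n m : ℕ} (hm : m ≠ n) (p : Full Γ × (Γ → Fin b)) (h : Γ) :
    dnPhi n p h m = p.1 h m := by
  simp [dnPhi, hm]

theorem dnPhi_eq {b : ℕ} {n : ℕ} (p : Full Γ × (Γ → Fin b)) (h : Γ) :
    dnPhi n p h n = dnEnc (p.2 h⁻¹) := by
  simp [dnPhi]

theorem dnPhi_continuous {b : ℕ} (n : ℕ) :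
    Continuous (dnPhi n : Full Γ × (Γ → Fin b) → Full Γ) := by
  refine continuous_pi fun h => continuous_pi fun m => ?_
  by_cases hm : m = n
  · have : (fun p : Full Γ × (Γ → Fin b) => dnPhi n p h m) =
        fun p : Full Γ × (Γ → Fin b) => dnEnc (p.2 h⁻¹) := by
      funext p; simp [dnPhi, hm]
    rw [this]
    exact (continuous_of_discreteTopology (f := fun i : Fin b => dnEnc i)).comp
      ((continuous_apply h⁻¹).comp continuous_snd)
  · have : (fun p : Full Γ × (Γ → Fin b) => dnPhi n p h m) =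
        fun p : Full Γ × (Γ → Fin b) => p.1 h m := by
      funext p; simp [dnPhi, hm]
    rw [this]
    exact (continuous_apply m).comp ((continuous_apply h).comp continuous_fst)

theorem dnPhi_shift {b : ℕ} (n : ℕ) (g : Γ) (y : Full Γ) (w : Γ → Fin b) :
    shift g (dnPhi n (y, w)) = dnPhi n (shift g y, fun k => w (k * g)) := by
  funext h m
  by_cases hm : m = n
  · subst hm
    simp [shift, dnPhi]
  · simp [shift, dnPhi, hm]

theorem dnPhi_tendsto {b : ℕ} (z : Full Γ × (Γ → Fin b)) :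
    Tendsto (fun p : ℕ × (Full Γ × (Γ → Fin b)) => dnPhi p.1 p.2) (atTop ×ˢ 𝓝 z) (𝓝 z.1) := by
  rw [tendsto_pi_nhds]
  intro h
  rw [tendsto_pi_nhds]
  intro m
  have h1 : Tendsto (fun p : ℕ × (Full Γ × (Γ → Fin b)) => p.2.1 h m) (atTop ×ˢ 𝓝 z)
      (𝓝 (z.1 h m)) := by
    have hc : Continuous fun q : Full Γ × (Γ → Fin b) => q.1 h m :=
      (continuous_apply m).comp ((continuous_apply h).comp continuous_fst)
    exact (hc.tendsto z).comp tendsto_snd
  refine h1.congr' ?_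
  have h2 : ∀ᶠ p : ℕ × (Full Γ × (Γ → Fin b)) in atTop ×ˢ 𝓝 z, m < p.1 :=
    (eventually_gt_atTop m).prod_inl _
  filter_upwards [h2] with p hp
  exact (dnPhi_ne (by omega) p.2 h).symm

/-- the subshift of all `dnPhi n (y, w)` -/
noncomputable def dnSub {b : ℕ} (Y : Subshift Γ) (P : Full Γ → (Γ → Fin b) → Prop)
    (hclosed : IsClosed {p : Full Γ × (Γ → Fin b) | p.1 ∈ Y.1 ∧ P p.1 p.2})
    (hinv : ∀ y ∈ Y.1, ∀ w, P y w → ∀ k : Γ, P (shift k y) (fun g => w (g * k))) (n : ℕ) :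
    Subshift Γ :=
  ⟨⟨dnPhi n '' {p : Full Γ × (Γ → Fin b) | p.1 ∈ Y.1 ∧ P p.1 p.2},
    hclosed.isCompact.image (dnPhi_continuous n)⟩, by
    rintro g _ ⟨⟨y, w⟩, ⟨h1, h2⟩, rfl⟩
    exact ⟨(shift g y, fun k => w (k * g)), ⟨Y.2 g y h1, hinv y h1 w h2 g⟩,
      (dnPhi_shift n g y w).symm⟩⟩

theorem dnSub_mem {b : ℕ} (Y : Subshift Γ) (P : Full Γ → (Γ → Fin b) → Prop)
    (hclosed : IsClosed {p : Full Γ × (Γ → Fin b) | p.1 ∈ Y.1 ∧ P p.1 p.2})
    (hinv : ∀ y ∈ Y.1, ∀ w, P y w → ∀ k : Γ, P (shift k y) (fun g => w (g * k))) (n : ℕ)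
    (x : Full Γ) : x ∈ (dnSub Y P hclosed hinv n).1 ↔
      ∃ y w, y ∈ Y.1 ∧ P y w ∧ dnPhi n (y, w) = x := by
  constructor
  · rintro ⟨⟨y, w⟩, ⟨h1, h2⟩, h3⟩
    exact ⟨y, w, h1, h2, h3⟩
  · rintro ⟨y, w, h1, h2, h3⟩
    exact ⟨(y, w), ⟨h1, h2⟩, h3⟩

theorem dnSub_tendsto {b : ℕ} (Y : Subshift Γ) (P : Full Γ → (Γ → Fin b) → Prop)
    (hclosed : IsClosed {p : Full Γ × (Γ → Fin b) | p.1 ∈ Y.1 ∧ P p.1 p.2})
    (hinv : ∀ y ∈ Y.1, ∀ w, P y w → ∀ k : Γ, P (shift k y) (fun g => w (g * k)))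
    (hex : ∀ y ∈ Y.1, ∃ w, P y w) :
    Tendsto (fun n => dnSub Y P hclosed hinv n) atTop (𝓝 Y) := by
  have h0 : Tendsto (fun n => ((dnSub Y P hclosed hinv n).1 : TopologicalSpace.Compacts (Full Γ)))
      atTop (𝓝 Y.1) := by
    rw [TopologicalSpace.Compacts.isEmbedding_coe.tendsto_nhds_iff]
    refine TopologicalSpace.tendsto_nhds_generateFrom_iff.2 ?_
    rintro s hs hYs
    rcases hs with ⟨U, hU, rfl⟩ | ⟨U, hU, rfl⟩
    · -- `Y ⊆ U`
      have hU' : IsOpen U := hU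
      have hYU : ∀ y ∈ Y.1, y ∈ U := fun y hy => hYs hy
      have hK : IsCompact {p : Full Γ × (Γ → Fin b) | p.1 ∈ Y.1 ∧ P p.1 p.2} := hclosed.isCompact
      have h1 : ∀ᶠ p : ℕ × (Full Γ × (Γ → Fin b)) in
          atTop ×ˢ 𝓝ˢ {p : Full Γ × (Γ → Fin b) | p.1 ∈ Y.1 ∧ P p.1 p.2}, dnPhi p.1 p.2 ∈ U := by
        rw [hK.prod_nhdsSet_eq_biSup]
        simp only [Filter.eventually_iSup]
        intro z hz
        exact (dnPhi_tendsto z).eventually (hU'.mem_nhds (hYU z.1 hz.1))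
      obtain ⟨pa, hpa, pb, hpb, hab⟩ := Filter.eventually_prod_iff.1 h1
      filter_upwards [hpa] with n hn
      rintro _ ⟨z, hz, rfl⟩
      exact hab hn (hpb.self_of_nhdsSet z hz)
    · -- `Y` meets `U`
      have hU' : IsOpen U := hU
      obtain ⟨y, hy, hyU⟩ := hYs
      obtain ⟨w, hw⟩ := hex y hy
      have h1 : Tendsto (fun n => dnPhi n (y, w)) atTop (𝓝 y) := by
        have h2 : Tendsto (fun n : ℕ => (n, (y, w))) atTop (atTop ×ˢ 𝓝 (y, w)) :=
          tendsto_id.prodMk tendsto_const_nhds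
        exact (dnPhi_tendsto (y, w)).comp h2
      filter_upwards [h1.eventually (hU'.mem_nhds hyU)] with n hn
      exact ⟨dnPhi n (y, w), ⟨(y, w), ⟨hy, hw⟩, rfl⟩, hn⟩
  exact tendsto_subtype_rng.2 h0

theorem lcl_density [Countable Γ] (Y : Subshift Γ) (b : ℕ)
    (P : Full Γ → (Γ → Fin b) → Prop)
    (hclosed : IsClosed {p : Full Γ × (Γ → Fin b) | p.1 ∈ Y.1 ∧ P p.1 p.2})
    (hinv : ∀ y ∈ Y.1, ∀ w, P y w → ∀ k : Γ, P (shift k y) (fun g => w (g * k)))
    (hex : ∀ y ∈ Y.1, ∃ w, P y w) (O : Set (Subshift Γ)) (hO : IsOpen O) (hY : Y ∈ O) (N : ℕ) :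
    ∃ (Y' : Subshift Γ) (n₀ : ℕ) (ψ : Y'.Pt → Fin b), Y' ∈ O ∧ N ≤ n₀ ∧ IsLocallyConstant ψ ∧
      ∀ y' : Y'.Pt, ∃ y ∈ Y.1, (∀ h n, n ≠ n₀ → y'.1 h n = y h n) ∧ P y (fun g => ψ (g • y')) := by
  have h1 := (dnSub_tendsto Y P hclosed hinv hex).eventually (hO.mem_nhds hY)
  obtain ⟨n, hn, hN⟩ := (h1.and (eventually_ge_atTop N)).exists
  have hdec : ∀ y' : (dnSub Y P hclosed hinv n).Pt, ∃ i : Fin b, dnEnc i = y'.1 1 n := by
    rintro ⟨x, hx⟩
    obtain ⟨y, w, h1, h2, rfl⟩ := (dnSub_mem Y P hclosed hinv n x).1 hx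
    refine ⟨w 1, ?_⟩
    show dnEnc (w 1) = dnPhi n (y, w) 1 n
    rw [dnPhi_eq, inv_one]
  choose ψ hψ using hdec
  refine ⟨dnSub Y P hclosed hinv n, n, ψ, hn, hN, ?_, ?_⟩
  · -- the fibres are closed, hence open
    have hcl : ∀ i : Fin b, IsClosed (ψ ⁻¹' {i}) := by
      intro i
      have : ψ ⁻¹' {i} = {y' | y'.1 1 n = dnEnc i} := by
        ext y'
        constructor
        · intro h
          have h' : ψ y' = i := h
          show y'.1 1 n = dnEnc i
          rw [← h', hψ]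
        · intro h
          have h' : y'.1 1 n = dnEnc i := h
          exact dnEnc_injective b ((hψ y').trans h')
      rw [this]
      refine isClosed_eq ?_ continuous_const
      exact (continuous_apply n).comp ((continuous_apply (1 : Γ)).comp continuous_subtype_val)
    rw [IsLocallyConstant.iff_isOpen_fiber]
    intro i
    have : ψ ⁻¹' {i} = (⋃ k ∈ {k : Fin b | k ≠ i}, ψ ⁻¹' {k})ᶜ := by
      ext y'
      simp only [mem_compl_iff, mem_iUnion, not_exists]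
      constructor
      · intro h k hk h'
        exact hk ((show ψ y' = k from h').symm.trans h)
      · intro h
        by_contra hne
        exact h (ψ y') (fun he => hne he) rfl
    rw [this]
    exact ((Set.toFinite _).isClosed_biUnion fun k _ => hcl k).isOpen_compl
  · rintro ⟨x, hx⟩
    obtain ⟨y, w, h1, h2, rfl⟩ := (dnSub_mem Y P hclosed hinv n x).1 hx
    refine ⟨y, h1, fun h m hm => dnPhi_ne hm (y, w) h, ?_⟩
    have : (fun g => ψ (g • (⟨dnPhi n (y, w), hx⟩ : (dnSub Y P hclosed hinv n).Pt))) = w := by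
      funext g
      apply dnEnc_injective b
      rw [hψ, smul_val]
      show dnPhi n (y, w) (g⁻¹ * 1) n = _
      rw [dnPhi_eq]
      simp
    rw [this]
    exact h2

end

end HypSub
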