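import Pool.Agent.Lib.MP_16db06_lc.Defs

/-!
# Lemma 0: comeagerly many subshifts have the LCL property
-/

set_option autoImplicit false

namespace HypSub

open Set Topology Filter

universe u

namespace Gen

/-! ## Changing a far coordinate -/

/-- `y` with the coordinate `n` replaced by `z` -/
def md {Γ : Type u} (n : ℕ) (y : Full Γ) (z : Γ → unitInterval) : Full Γ :=
  fun h k => if k = n then z h else y h k

theorem md_tendsto {Γ : Type u} (y : Full Γ) (z : Full Γ × ℕ → Γ → unitInterval) :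
    Tendsto (fun p : Full Γ × ℕ => md p.2 p.1 (z p)) (𝓝 y ×ˢ atTop) (𝓝 y) := by
  rw [tendsto_pi_nhds]
  intro h
  rw [tendsto_pi_nhds]
  intro k
  have h1 : Tendsto (fun p : Full Γ × ℕ => p.1 h k) (𝓝 y ×ˢ atTop) (𝓝 (y h k)) :=
    (((continuous_apply k).comp (continuous_apply h)).tendsto y).comp tendsto_fst
  refine h1.congr' ?_
  have h2 : ∀ᶠ p : Full Γ × ℕ in 𝓝 y ×ˢ atTop, k < p.2 :=
    tendsto_snd.eventually (eventually_gt_atTop k)
  filter_upwards [h2] with p hp
  simp [md, hp.ne]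

theorem md_eventually {Γ : Type u} (y : Full Γ) (U : Set (Full Γ)) (hU : IsOpen U) (hy : y ∈ U) :
    ∀ᶠ p : Full Γ × ℕ in 𝓝 y ×ˢ atTop, ∀ z, md p.2 p.1 z ∈ U := by
  classical
  let z : Full Γ × ℕ → Γ → unitInterval := fun p =>
    if h : ∃ z, md p.2 p.1 z ∉ U then h.choose else fun _ => 0
  filter_upwards [(md_tendsto y z).eventually (hU.mem_nhds hy)] with p hp z'
  by_contra hz
  have h : ∃ z, md p.2 p.1 z ∉ U := ⟨z', hz⟩
  have h1 : z p = h.choose := dif_pos h
  rw [h1] at hp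
  exact h.choose_spec hp

theorem md_compact {Γ : Type u} (K : Set (Full Γ)) (hK : IsCompact K) (U : Set (Full Γ))
    (hU : IsOpen U) (h : K ⊆ U) : ∀ᶠ n : ℕ in atTop, ∀ y ∈ K, ∀ z, md n y z ∈ U := by
  have h1 : {p : Full Γ × ℕ | ∀ z, md p.2 p.1 z ∈ U} ∈ 𝓝ˢ K ×ˢ (atTop : Filter ℕ) :=
    hK.mem_nhdsSet_prod_of_forall fun y hy => md_eventually y U hU (h hy)
  obtain ⟨t, ht, s, hs, hts⟩ := mem_prod_iff.mp h1
  filter_upwards [hs] with n hn y hy z
  exact hts (mk_mem_prod (subset_of_mem_nhdsSet ht hy) hn) z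

theorem md_continuous {Γ : Type u} (n : ℕ) {X : Type*} [TopologicalSpace X] (f : X → Full Γ)
    (g : X → Γ → unitInterval) (hf : Continuous f) (hg : Continuous g) :
    Continuous fun x => md n (f x) (g x) := by
  refine continuous_pi fun h => continuous_pi fun k => ?_
  by_cases hk : k = n
  · simp only [md, hk, if_true]
    exact (continuous_apply h).comp hg
  · simp only [md, hk, if_false]
    exact (continuous_apply k).comp ((continuous_apply h).comp hf)

/-! ## Solvability -/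

section solve

variable {Γ : Type u} [Group Γ] {a b : ℕ} (S : Finset Γ)
  (R : (S → Fin a) → (S → Fin b) → Prop) (O : Fin a → Set (Full Γ))

/-- `(y, w)` violates the rule somewhere -/
def Bad : Set (Full Γ × (Γ → Fin b)) :=
  {q | ∃ (g : Γ) (p : S → Fin a), (∀ s : S, shift ((s : Γ) * g) q.1 ∈ O (p s)) ∧
    ¬ R p (fun s => q.2 ((s : Γ) * g))}

theorem isOpen_bad (hO : ∀ i, IsOpen (O i)) : IsOpen (Bad S R O) := by
  have h : Bad S R O = ⋃ (g : Γ), ⋃ (p : S → Fin a),
      (⋂ s : S, {q : Full Γ × (Γ → Fin b) | shift ((s : Γ) * g) q.1 ∈ O (p s)}) ∩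
      {q : Full Γ × (Γ → Fin b) | ¬ R p (fun s => q.2 ((s : Γ) * g))} := by
    ext q
    simp [Bad]
  rw [h]
  refine isOpen_iUnion fun g => isOpen_iUnion fun p => IsOpen.inter ?_ ?_
  · refine isOpen_iInter_of_finite fun s => ?_
    exact (hO (p s)).preimage ((continuous_shift _).comp continuous_fst)
  · have hc : Continuous fun q : Full Γ × (Γ → Fin b) => fun s : S => q.2 ((s : Γ) * g) :=
      continuous_pi fun s => (continuous_apply _).comp continuous_snd
    exact (isOpen_discrete {v : S → Fin b | ¬ R p v}).preimage hc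

/-- points without a solution -/
def Uns : Set (Full Γ) := {y | ∀ w : Γ → Fin b, (y, w) ∈ Bad S R O}

theorem isOpen_uns (hO : ∀ i, IsOpen (O i)) : IsOpen (Uns S R O) := by
  have h : Uns S R O = (Prod.fst '' (Bad S R O)ᶜ)ᶜ := by
    ext y
    simp [Uns]
  rw [h, isOpen_compl_iff]
  exact isClosedMap_fst_of_compactSpace _ (isOpen_bad S R O hO).isClosed_compl

/-- points where the labels given by `V` are correct -/
def Good (V : Fin b → Set (Full Γ)) : Set (Full Γ) :=
  {x | ∃ (p : S → Fin a) (q : S → Fin b), R p q ∧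
    ∀ s : S, shift (s : Γ) x ∈ O (p s) ∧ shift (s : Γ) x ∈ V (q s)}

theorem isOpen_good (hO : ∀ i, IsOpen (O i)) (V : Fin b → Set (Full Γ))
    (hV : ∀ i, IsOpen (V i)) : IsOpen (Good S R O V) := by
  have h : Good S R O V = ⋃ (p : S → Fin a), ⋃ (q : S → Fin b), ⋃ (_ : R p q),
      ⋂ s : S, ({x | shift (s : Γ) x ∈ O (p s)} ∩ {x | shift (s : Γ) x ∈ V (q s)}) := by
    ext x
    simp [Good]
  rw [h]
  refine isOpen_iUnion fun p => isOpen_iUnion fun q => isOpen_iUnion fun _ =>
    isOpen_iInter_of_finite fun s => IsOpen.inter ?_ ?_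
  · exact (hO (p s)).preimage (continuous_shift _)
  · exact (hV (q s)).preimage (continuous_shift _)

end solve

section opens

variable {Γ : Type u} [Group Γ]

theorem isOpen_sub {U : Set (Full Γ)} (hU : IsOpen U) :
    IsOpen {Y : Subshift Γ | (Y.1 : Set (Full Γ)) ⊆ U} :=
  (TopologicalSpace.Compacts.isOpen_subsets_of_isOpen hU).preimage continuous_subtype_val

theorem isOpen_meet {U : Set (Full Γ)} (hU : IsOpen U) :
    IsOpen {Y : Subshift Γ | ((Y.1 : Set (Full Γ)) ∩ U).Nonempty} :=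
  (TopologicalSpace.Compacts.isOpen_inter_nonempty_of_isOpen hU).preimage continuous_subtype_val

theorem tendsto_sub {ι : Type*} {l : Filter ι} (F : ι → Subshift Γ) (Y : Subshift Γ)
    (h1 : ∀ U : Set (Full Γ), IsOpen U → (Y.1 : Set (Full Γ)) ⊆ U →
      ∀ᶠ n in l, ((F n).1 : Set (Full Γ)) ⊆ U)
    (h2 : ∀ U : Set (Full Γ), IsOpen U → ((Y.1 : Set (Full Γ)) ∩ U).Nonempty →
      ∀ᶠ n in l, (((F n).1 : Set (Full Γ)) ∩ U).Nonempty) :
    Tendsto F l (𝓝 Y) := by
  have hval : IsInducing (fun Y : Subshift Γ => Y.1) := ⟨rfl⟩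
  refine hval.tendsto_nhds_iff.mpr ?_
  let _ : TopologicalSpace (Set (Full Γ)) := TopologicalSpace.vietoris (Full Γ)
  refine (TopologicalSpace.Compacts.isEmbedding_coe (α := Full Γ)).tendsto_nhds_iff.mpr ?_
  refine TopologicalSpace.tendsto_nhds_generateFrom_iff.mpr ?_
  rintro s (⟨U, hU, rfl⟩ | ⟨U, hU, rfl⟩) hs
  · exact h1 U hU hs
  · exact h2 U hU hs

end opens

section code

variable {Γ : Type u} [Group Γ] {a b : ℕ}

/-- the conclusion for one code -/
def CodeOK (S : Finset Γ) (R : (S → Fin a) → (S → Fin b) → Prop) (O : Fin a → Set (Full Γ))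
    (Y : Subshift Γ) : Prop :=
  ∀ φ : Y.Pt → Fin a, (∀ y : Y.Pt, y.1 ∈ O (φ y)) →
    (∀ y : Y.Pt, ∃ w : Γ → Fin b, ∀ g : Γ,
      R (fun s => φ ((s : Γ) • g • y)) (fun s => w ((s : Γ) * g))) →
    ∃ ψ : Y.Pt → Fin b, IsLocallyConstant ψ ∧
      ∀ y : Y.Pt, R (fun s => φ ((s : Γ) • y)) (fun s => ψ ((s : Γ) • y))

/-- the open set of subshifts for which the problem is decided -/
def AA (S : Finset Γ) (R : (S → Fin a) → (S → Fin b) → Prop) (O : Fin a → Set (Full Γ)) :
    Set (Subshift Γ) :=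
  {Y | ((Y.1 : Set (Full Γ)) ∩ Uns S R O).Nonempty} ∪
    ⋃ V ∈ {V : Fin b → Set (Full Γ) | (∀ i, IsOpen (V i)) ∧ Pairwise fun i j => Disjoint (V i) (V j)},
      {Y : Subshift Γ | (Y.1 : Set (Full Γ)) ⊆ (⋃ k, V k) ∩ Good S R O V}

theorem isOpen_AA (S : Finset Γ) (R : (S → Fin a) → (S → Fin b) → Prop)
    (O : Fin a → Set (Full Γ)) (hO : ∀ i, IsOpen (O i)) : IsOpen (AA S R O) := by
  refine (isOpen_meet (isOpen_uns S R O hO)).union (isOpen_biUnion fun V hV => ?_)
  exact isOpen_sub ((isOpen_iUnion hV.1).inter (isOpen_good S R O hO V hV.1))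

omit [Group Γ] in
theorem eq_of_mem {ι : Type*} {O : ι → Set (Full Γ)} (hd : Pairwise fun i j => Disjoint (O i) (O j))
    {x : Full Γ} {i j : ι} (hi : x ∈ O i) (hj : x ∈ O j) : i = j := by
  by_contra h
  exact Set.disjoint_left.mp (hd h) hi hj

theorem ok_of_AA (S : Finset Γ) (R : (S → Fin a) → (S → Fin b) → Prop)
    (O : Fin a → Set (Full Γ)) (hd : Pairwise fun i j => Disjoint (O i) (O j))
    (Y : Subshift Γ) (hY : Y ∈ AA S R O) : CodeOK S R O Y := by
  intro φ hφ hsol
  rcases hY with ⟨y, hy, hyN⟩ | hY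
  · exfalso
    obtain ⟨w, hw⟩ := hsol ⟨y, hy⟩
    obtain ⟨g, p, hp, hR⟩ := hyN w
    apply hR
    have : p = fun s : S => φ ((s : Γ) • g • (⟨y, hy⟩ : Y.Pt)) := by
      funext s
      refine eq_of_mem hd (hp s) ?_
      have h1 := hφ ((s : Γ) • g • (⟨y, hy⟩ : Y.Pt))
      rwa [smul_val, smul_val, ← shift_mul] at h1
    rw [this]
    exact hw g
  · simp only [mem_iUnion] at hY
    obtain ⟨V, ⟨hVo, hVd⟩, hYV⟩ := hY
    have hYV' : ∀ x ∈ (Y.1 : Set (Full Γ)), x ∈ (⋃ k, V k) ∩ Good S R O V := fun x hx => hYV hx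
    have h1 : ∀ y : Y.Pt, ∃ k, y.1 ∈ V k := fun y => mem_iUnion.mp (hYV' y.1 y.2).1
    choose ψ hψ using h1
    refine ⟨ψ, ?_, fun y => ?_⟩
    · rw [IsLocallyConstant.iff_isOpen_fiber]
      intro k
      have : ψ ⁻¹' {k} = Subtype.val ⁻¹' (V k) := by
        ext y
        simp only [mem_preimage, mem_singleton_iff]
        constructor
        · rintro rfl
          exact hψ y
        · intro h
          exact eq_of_mem hVd (hψ y) h
      rw [this]
      exact (hVo k).preimage continuous_subtype_val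
    · obtain ⟨p, q, hR, hpq⟩ := (hYV' y.1 y.2).2
      have e1 : p = fun s : S => φ ((s : Γ) • y) := by
        funext s
        exact eq_of_mem hd (hpq s).1 (hφ ((s : Γ) • y))
      have e2 : q = fun s : S => ψ ((s : Γ) • y) := by
        funext s
        exact eq_of_mem hVd (hpq s).2 (hψ ((s : Γ) • y))
      rw [← e1, ← e2]
      exact hR

instance : Infinite unitInterval := Set.infinite_coe_iff.mpr (Set.Icc_infinite zero_lt_one)

/-- the pairs (point, solution) -/
def CC (S : Finset Γ) (R : (S → Fin a) → (S → Fin b) → Prop) (O : Fin a → Set (Full Γ))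
    (Y : Subshift Γ) : Set (Full Γ × (Γ → Fin b)) :=
  {q | q.1 ∈ (Y.1 : Set (Full Γ)) ∧ q ∉ Bad S R O}

theorem isCompact_CC (S : Finset Γ) (R : (S → Fin a) → (S → Fin b) → Prop)
    (O : Fin a → Set (Full Γ)) (hO : ∀ i, IsOpen (O i)) (Y : Subshift Γ) :
    IsCompact (CC S R O Y) := by
  have h1 : IsCompact ((Y.1 : Set (Full Γ)) ×ˢ (univ : Set (Γ → Fin b))) :=
    Y.1.isCompact.prod isCompact_univ
  have h2 : CC S R O Y = ((Y.1 : Set (Full Γ)) ×ˢ (univ : Set (Γ → Fin b))) ∩ (Bad S R O)ᶜ := by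
    ext q
    simp [CC]
  rw [h2]
  exact h1.inter_right (isOpen_bad S R O hO).isClosed_compl

/-- write the solution in the coordinate `n` -/
def wr (enc : Fin b → unitInterval) (n : ℕ) (q : Full Γ × (Γ → Fin b)) : Full Γ :=
  md n q.1 fun h => enc (q.2 h⁻¹)

theorem continuous_wr (enc : Fin b → unitInterval) (n : ℕ) :
    Continuous (wr enc n : Full Γ × (Γ → Fin b) → Full Γ) := by
  refine md_continuous n _ _ continuous_fst (continuous_pi fun h => ?_)
  exact (continuous_of_discreteTopology (f := enc)).comp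
    ((continuous_apply h⁻¹).comp continuous_snd)

theorem shift_wr (enc : Fin b → unitInterval) (n : ℕ) (g : Γ) (y : Full Γ) (w : Γ → Fin b) :
    shift g (wr enc n (y, w)) = wr enc n (shift g y, fun h => w (h * g)) := by
  funext h k
  simp [shift, wr, md]

theorem shift_CC (S : Finset Γ) (R : (S → Fin a) → (S → Fin b) → Prop)
    (O : Fin a → Set (Full Γ)) (Y : Subshift Γ) (g : Γ) (y : Full Γ) (w : Γ → Fin b)
    (h : (y, w) ∈ CC S R O Y) : (shift g y, fun h => w (h * g)) ∈ CC S R O Y := by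
  refine ⟨Y.2 g y h.1, ?_⟩
  rintro ⟨g', p, hp, hR⟩
  apply h.2
  refine ⟨g' * g, p, fun s => ?_, ?_⟩
  · have := hp s
    rw [← mul_assoc, shift_mul]
    exact this
  · intro hR'
    apply hR
    simpa [mul_assoc] using hR'

/-- the perturbed subshift -/
def YY (S : Finset Γ) (R : (S → Fin a) → (S → Fin b) → Prop)
    (O : Fin a → Set (Full Γ)) (hO : ∀ i, IsOpen (O i)) (Y : Subshift Γ)
    (enc : Fin b → unitInterval) (n : ℕ) : Subshift Γ :=
  ⟨⟨wr enc n '' CC S R O Y, (isCompact_CC S R O hO Y).image (continuous_wr enc n)⟩, by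
    rintro g x ⟨⟨y, w⟩, hq, rfl⟩
    exact ⟨_, shift_CC S R O Y g y w hq, (shift_wr enc n g y w).symm⟩⟩

theorem dom_subset (S : Finset Γ) (R : (S → Fin a) → (S → Fin b) → Prop)
    (O : Fin a → Set (Full Γ)) (hO : ∀ i, IsOpen (O i))
    (hd : Pairwise fun i j => Disjoint (O i) (O j)) :
    {Y : Subshift Γ | (Y.1 : Set (Full Γ)) ⊆ ⋃ i, O i} ⊆ closure (AA S R O) := by
  intro Y hY
  have hY' : ∀ x ∈ (Y.1 : Set (Full Γ)), ∃ i, x ∈ O i := fun x hx => mem_iUnion.mp (hY hx)
  by_cases hN : ((Y.1 : Set (Full Γ)) ∩ Uns S R O).Nonempty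
  · exact subset_closure (Or.inl hN)
  have hsol : ∀ y ∈ (Y.1 : Set (Full Γ)), ∃ w : Γ → Fin b, (y, w) ∈ CC S R O Y := by
    intro y hy
    by_contra h
    push Not at h
    apply hN
    refine ⟨y, hy, fun w => ?_⟩
    by_contra hb
    exact h w ⟨hy, hb⟩
  let enc : Fin b → unitInterval := fun k => Infinite.natEmbedding unitInterval k.val
  have henc : Function.Injective enc := fun i j h =>
    Fin.ext ((Infinite.natEmbedding unitInterval).injective h)
  obtain ⟨W, hW, hWd⟩ := Set.Finite.t2_separation (Set.finite_range enc)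
  have hlim : Tendsto (fun n => YY S R O hO Y enc n) atTop (𝓝 Y) := by
    refine tendsto_sub _ _ ?_ ?_
    · intro U hU hYU
      filter_upwards [md_compact _ Y.1.isCompact U hU hYU] with n hn
      rintro x ⟨⟨y, w⟩, hq, rfl⟩
      exact hn y hq.1 _
    · rintro U hU ⟨y, hy, hyU⟩
      obtain ⟨w, hw⟩ := hsol y hy
      filter_upwards [md_compact {y} isCompact_singleton U hU (by simpa using hyU)] with n hn
      exact ⟨wr enc n (y, w), ⟨_, hw, rfl⟩, hn y rfl _⟩
  have hcomp : ∀ i, IsCompact ((Y.1 : Set (Full Γ)) ∩ O i) := by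
    intro i
    have : (Y.1 : Set (Full Γ)) ∩ O i = (Y.1 : Set (Full Γ)) ∩ (⋃ j ∈ {j | j ≠ i}, O j)ᶜ := by
      ext x
      simp only [mem_inter_iff, mem_compl_iff, mem_iUnion, not_exists]
      refine and_congr_right fun hx => ⟨fun hi j hj hjx => hj (eq_of_mem hd hjx hi), fun h => ?_⟩
      obtain ⟨j, hj⟩ := hY' x hx
      by_cases hji : j = i
      · rw [← hji]; exact hj
      · exact absurd hj (h j hji)
    rw [this]
    exact Y.1.isCompact.inter_right (isOpen_biUnion fun j _ => hO j).isClosed_compl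
  have hev : ∀ᶠ n : ℕ in atTop, ∀ i, ∀ y ∈ (Y.1 : Set (Full Γ)) ∩ O i, ∀ z, md n y z ∈ O i :=
    eventually_all.mpr fun i => md_compact _ (hcomp i) _ (hO i) inter_subset_right
  refine mem_closure_of_tendsto hlim ?_
  filter_upwards [hev] with n hn
  refine Or.inr ?_
  let V : Fin b → Set (Full Γ) := fun k => {x | x 1 n ∈ W (enc k)}
  have hVo : ∀ k, IsOpen (V k) := fun k =>
    (hW (enc k)).2.preimage ((continuous_apply n).comp (continuous_apply (1 : Γ)))
  have hVd : Pairwise fun i j => Disjoint (V i) (V j) := by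
    intro i j hij
    rw [Set.disjoint_left]
    intro x hi hj
    exact Set.disjoint_left.mp (hWd (mem_range_self i) (mem_range_self j)
      (fun h => hij (henc h))) hi hj
  simp only [mem_iUnion]
  refine ⟨V, ⟨hVo, hVd⟩, ?_⟩
  rintro x ⟨⟨y, w⟩, hq, rfl⟩
  refine ⟨mem_iUnion.mpr ⟨w 1, ?_⟩, ?_⟩
  · change wr enc n (y, w) 1 n ∈ W (enc (w 1))
    have : wr enc n (y, w) 1 n = enc (w 1) := by simp [wr, md]
    rw [this]
    exact (hW _).1
  · have hlab : ∀ s : S, ∃ i, shift (s : Γ) y ∈ O i := fun s => hY' _ (Y.2 s y hq.1)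
    choose p hp using hlab
    refine ⟨p, fun s => w (s : Γ), ?_, fun s => ⟨?_, ?_⟩⟩
    · by_contra hR
      apply hq.2
      refine ⟨1, p, fun s => ?_, ?_⟩
      · rw [mul_one]; exact hp s
      · simpa using hR
    · rw [shift_wr]
      exact hn (p s) _ ⟨Y.2 s y hq.1, hp s⟩ _
    · change shift (s : Γ) (wr enc n (y, w)) 1 n ∈ W (enc (w s))
      have : shift (s : Γ) (wr enc n (y, w)) 1 n = enc (w s) := by simp [shift, wr, md]
      rw [this]
      exact (hW _).1

theorem code_residual (S : Finset Γ) (R : (S → Fin a) → (S → Fin b) → Prop)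
    (O : Fin a → Set (Full Γ)) (hO : ∀ i, IsOpen (O i))
    (hd : Pairwise fun i j => Disjoint (O i) (O j)) :
    ∀ᶠ Y in residual (Subshift Γ), CodeOK S R O Y := by
  have h1 : AA S R O ∪ (closure {Y : Subshift Γ | (Y.1 : Set (Full Γ)) ⊆ ⋃ i, O i})ᶜ ∈
      residual (Subshift Γ) := by
    refine residual_of_dense_open ((isOpen_AA S R O hO).union isClosed_closure.isOpen_compl) ?_
    intro Y
    by_cases hY : Y ∈ closure {Y : Subshift Γ | (Y.1 : Set (Full Γ)) ⊆ ⋃ i, O i}
    · exact closure_mono subset_union_left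
        (closure_minimal (dom_subset S R O hO hd) isClosed_closure hY)
    · exact subset_closure (Or.inr hY)
  filter_upwards [h1] with Y hY
  rcases hY with hY | hY
  · exact ok_of_AA S R O hd Y hY
  · intro φ hφ
    exfalso
    apply hY
    refine subset_closure fun x hx => ?_
    exact mem_iUnion.mpr ⟨_, hφ ⟨x, hx⟩⟩

end code

/-! ## Countably many codes -/

section codes

variable {Γ : Type u} [Group Γ] [Countable Γ]

open TopologicalSpace in
/-- the countable base -/
abbrev Bas (Γ : Type u) [Countable Γ] : Type u := countableBasis (Full Γ)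

instance : Countable (Bas Γ) := (TopologicalSpace.countable_countableBasis (Full Γ)).to_subtype

/-- finite unions of basic open sets -/
def Uf (F : Finset (Bas Γ)) : Set (Full Γ) := ⋃ B ∈ F, (B : Set (Full Γ))

omit [Group Γ] in
theorem isOpen_Uf (F : Finset (Bas Γ)) : IsOpen (Uf F) :=
  isOpen_biUnion fun B _ => TopologicalSpace.isOpen_of_mem_countableBasis B.2

/-- disjointified open sets -/
def OO {a : ℕ} (F : Fin a → Finset (Bas Γ)) (i : Fin a) : Set (Full Γ) :=
  Uf (F i) \ ⋃ j ∈ {j | j ≠ i}, closure (Uf (F j))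

omit [Group Γ] in
theorem isOpen_OO {a : ℕ} (F : Fin a → Finset (Bas Γ)) (i : Fin a) : IsOpen (OO F i) :=
  (isOpen_Uf _).sdiff ((Set.toFinite _).isClosed_biUnion fun _ _ => isClosed_closure)

omit [Group Γ] in
theorem disj_OO {a : ℕ} (F : Fin a → Finset (Bas Γ)) :
    Pairwise fun i j => Disjoint (OO F i) (OO F j) := by
  intro i j hij
  rw [Set.disjoint_left]
  rintro x ⟨hi, -⟩ ⟨-, hj⟩
  apply hj
  simp only [mem_iUnion]
  exact ⟨i, hij, subset_closure hi⟩

omit [Group Γ] in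
theorem exists_uf (K L : Set (Full Γ)) (hK : IsCompact K) (hL : IsClosed L)
    (h : Disjoint K L) : ∃ F : Finset (Bas Γ), K ⊆ Uf F ∧ Disjoint (closure (Uf F)) L := by
  classical
  refine hK.induction_on (p := fun K' => ∃ F : Finset (Bas Γ), K' ⊆ Uf F ∧
    Disjoint (closure (Uf F)) L) ?_ ?_ ?_ ?_
  · exact ⟨∅, empty_subset _, by simp [Uf]⟩
  · rintro s t hst ⟨F, h1, h2⟩
    exact ⟨F, hst.trans h1, h2⟩
  · rintro s t ⟨F, h1, h2⟩ ⟨F', h1', h2'⟩
    have e : Uf (F ∪ F') = Uf F ∪ Uf F' := by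
      unfold Uf
      exact Finset.set_biUnion_union F F' _
    refine ⟨F ∪ F', ?_, ?_⟩
    · rw [e]; exact union_subset_union h1 h1'
    · rw [e, closure_union]; exact Disjoint.union_left h2 h2'
  · intro x hx
    have hxL : x ∉ L := Set.disjoint_left.mp h hx
    obtain ⟨B, hB, hxB, hBL⟩ :=
      (TopologicalSpace.isBasis_countableBasis (Full Γ)).exists_closure_subset
        (hL.isOpen_compl.mem_nhds hxL)
    refine ⟨B, mem_nhdsWithin_of_mem_nhds
      ((TopologicalSpace.isOpen_of_mem_countableBasis hB).mem_nhds hxB), {⟨B, hB⟩}, ?_, ?_⟩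
    · simp [Uf]
    · have : Uf ({⟨B, hB⟩} : Finset (Bas Γ)) = B := by simp [Uf]
      rw [this]
      exact disjoint_left.mpr fun y hy hyL => hBL hy hyL

theorem exists_code {a : ℕ} (Y : Subshift Γ) (φ : Y.Pt → Fin a) (hφ : IsLocallyConstant φ) :
    ∃ F : Fin a → Finset (Bas Γ), ∀ y : Y.Pt, y.1 ∈ OO F (φ y) := by
  have h1 : ∀ i, ∃ F : Finset (Bas Γ), Subtype.val '' (φ ⁻¹' {i}) ⊆ Uf F ∧
      Disjoint (closure (Uf F)) (Subtype.val '' (φ ⁻¹' {i}ᶜ)) := by
    intro i
    refine exists_uf _ _ ?_ ?_ ?_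
    · exact ((hφ.isClosed_fiber i).isCompact).image continuous_subtype_val
    · refine IsCompact.isClosed ?_
      refine (IsClosed.isCompact ?_).image continuous_subtype_val
      rw [preimage_compl]
      exact (hφ.isOpen_fiber i).isClosed_compl
    · rw [Set.disjoint_left]
      rintro x ⟨y, hy, rfl⟩ ⟨y', hy', he⟩
      have : y' = y := Subtype.ext he
      rw [this] at hy'
      exact hy' hy
  choose F hF1 hF2 using h1
  refine ⟨F, fun y => ⟨hF1 (φ y) ⟨y, rfl, rfl⟩, ?_⟩⟩
  simp only [mem_iUnion, not_exists]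
  intro j hj hyj
  exact Set.disjoint_left.mp (hF2 j) hyj ⟨y, fun h => hj h.symm, rfl⟩

end codes

end Gen

/-- M1 (file Generic.lean) LEMMA 0 -/
theorem lcl_residual (Γ : Type u) [Group Γ] [Countable Γ] :
    {Y : Subshift Γ | LCL Γ Y.Pt} ∈ residual (Subshift Γ) := by
  have h : ∀ᶠ Y in residual (Subshift Γ), ∀ (a b : ℕ) (S : Finset Γ)
      (R : (S → Fin a) → (S → Fin b) → Prop) (F : Fin a → Finset (Gen.Bas Γ)),
      Gen.CodeOK S R (Gen.OO F) Y := by
    refine eventually_countable_forall.mpr fun a => ?_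
    refine eventually_countable_forall.mpr fun b => ?_
    refine eventually_countable_forall.mpr fun S => ?_
    refine eventually_countable_forall.mpr fun R => ?_
    refine eventually_countable_forall.mpr fun F => ?_
    exact Gen.code_residual S R _ (Gen.isOpen_OO F) (Gen.disj_OO F)
  filter_upwards [h] with Y hY
  intro a b S R φ hφ hsol
  obtain ⟨F, hF⟩ := Gen.exists_code Y φ hφ
  exact hY a b S R F φ hF hsol

end HypSub
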