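import Mathlib
import Pool.Agent.Lib.MP_16db06_lc.Defs

/-!
# Groups of locally finite asymptotic dimension have the Kolmogorov property
-/

set_option autoImplicit false

namespace HypSub

open Set

universe u

namespace KL

open Pointwise

variable {G : Type u} [Group G]

/-- one step in `U` along `S` -/
def Lk (S U : Set G) (x y : G) : Prop := x ∈ U ∧ y ∈ U ∧ y * x⁻¹ ∈ S

/-- the `S`-components of `U` are uniformly bounded -/
def Bd (S U : Set G) : Prop :=
  ∃ F : Set G, F.Finite ∧ ∀ x y, Relation.ReflTransGen (Lk S U) x y → y * x⁻¹ ∈ F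

/-- the points near `U` -/
def nbhd (K U : Set G) : Set G := {x | ∃ s ∈ K, s * x ∈ U}

/-- `n` sets with bounded `S`-components which cover every point at least `n - d` times -/
def Fam (n d : ℕ) (S : Set G) : Prop :=
  ∃ U : Fin n → Set G, (∀ t, Bd S (U t)) ∧ ∀ x, n ≤ d + ({t | x ∈ U t} : Set (Fin n)).ncard

theorem pow_finite {T : Set G} (hT : T.Finite) (k : ℕ) : (T ^ k).Finite := by
  induction k with
  | zero => rw [pow_zero]; exact Set.finite_singleton 1
  | succ k ih => rw [pow_succ]; exact ih.mul hT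

theorem rtg_mono {α : Type u} {r s : α → α → Prop} (h : ∀ a b, r a b → s a b) {x y : α}
    (hxy : Relation.ReflTransGen r x y) : Relation.ReflTransGen s x y := by
  induction hxy with
  | refl => exact Relation.ReflTransGen.refl
  | tail _ hbc ih => exact ih.tail (h _ _ hbc)

theorem Bd.mono {S S' U : Set G} (h : S ⊆ S') (hB : Bd S' U) : Bd S U := by
  obtain ⟨F, hF, h1⟩ := hB
  refine ⟨F, hF, fun x y hxy => h1 x y ?_⟩
  exact rtg_mono (fun a b hab => ⟨hab.1, hab.2.1, h hab.2.2⟩) hxy

/-- points reachable in at most `k` steps -/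
def EE (S : Finset G) (U : Set G) (g : G) : ℕ → Set G
  | 0 => {g}
  | k + 1 => {h | ∃ x ∈ EE S U g k, x = h ∨ LinkIn S U x h}

theorem EE_sub (S : Finset G) (U : Set G) (g : G) (k : ℕ) : EE S U g k ⊆ EE S U g (k + 1) :=
  fun x hx => ⟨x, hx, Or.inl rfl⟩

theorem EE_comp (S : Finset G) (U : Set G) (g : G) (k : ℕ) :
    EE S U g k ⊆ {h | Relation.ReflTransGen (LinkIn S U) g h} := by
  induction k with
  | zero =>
    rintro h hh
    have : h = g := hh
    rw [this]
    exact Relation.ReflTransGen.refl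
  | succ k ih =>
    rintro h ⟨x, hx, rfl | hxh⟩
    · exact ih hx
    · exact (ih hx).tail hxh

theorem EE_pow (S : Finset G) (U : Set G) (g : G) {T : Set G} (h1 : (1 : G) ∈ T)
    (hS : ∀ s ∈ S, s ∈ T) (hS' : ∀ s ∈ S, s⁻¹ ∈ T) (k : ℕ) :
    ∀ h ∈ EE S U g k, h * g⁻¹ ∈ T ^ k := by
  induction k with
  | zero =>
    intro h hh
    have : h = g := hh
    rw [this, mul_inv_cancel, pow_zero]
    exact Set.mem_one.mpr rfl
  | succ k ih =>
    rintro h ⟨x, hx, rfl | ⟨_, _, s, hs, hh | hh⟩⟩
    · rw [pow_succ]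
      have := Set.mul_mem_mul (ih x hx) h1
      rwa [mul_one] at this
    · rw [pow_succ', hh, mul_assoc]
      exact Set.mul_mem_mul (hS s hs) (ih x hx)
    · rw [pow_succ']
      have e : h * g⁻¹ = s⁻¹ * (x * g⁻¹) := by rw [hh]; group
      rw [e]
      exact Set.mul_mem_mul (hS' s hs) (ih x hx)

theorem EE_full (S : Finset G) (U : Set G) (g : G) {N : ℕ}
    (hfin : {h | Relation.ReflTransGen (LinkIn S U) g h}.Finite)
    (hN : {h | Relation.ReflTransGen (LinkIn S U) g h}.ncard ≤ N) :
    {h | Relation.ReflTransGen (LinkIn S U) g h} ⊆ EE S U g N := by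
  have key : ∀ k : ℕ, {h | Relation.ReflTransGen (LinkIn S U) g h} ⊆ EE S U g k ∨
      k + 1 ≤ (EE S U g k).ncard := by
    intro k
    induction k with
    | zero =>
      right
      change 0 + 1 ≤ ({g} : Set G).ncard
      rw [Set.ncard_singleton]
    | succ k ih =>
      rcases ih with h | h
      · exact Or.inl (h.trans (EE_sub S U g k))
      · by_cases he : EE S U g (k + 1) ⊆ EE S U g k
        · left
          intro h' hh
          have : h' ∈ EE S U g k := by
            change Relation.ReflTransGen (LinkIn S U) g h' at hh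
            induction hh with
            | refl =>
              have h0 : ∀ j, g ∈ EE S U g j := by
                intro j
                induction j with
                | zero => exact rfl
                | succ j ihj => exact EE_sub S U g j ihj
              exact h0 k
            | tail _ hbc ih2 => exact he ⟨_, ih2, Or.inr hbc⟩
          exact EE_sub S U g k this
        · right
          have hss : EE S U g k ⊂ EE S U g (k + 1) := ⟨EE_sub S U g k, he⟩
          have := Set.ncard_lt_ncard hss (hfin.subset (EE_comp S U g (k + 1)))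
          omega
  rcases key N with h | h
  · exact h
  · have := Set.ncard_le_ncard (EE_comp S U g N) hfin
    omega

theorem bd_of_ncard {S : Finset G} {U : Set G} {N : ℕ}
    (h : ∀ g ∈ U, {h | Relation.ReflTransGen (LinkIn S U) g h}.Finite ∧
      {h | Relation.ReflTransGen (LinkIn S U) g h}.ncard ≤ N) : Bd (S : Set G) U := by
  set T : Set G := {1} ∪ (S : Set G) ∪ (S : Set G)⁻¹ with hT
  have hTf : T.Finite := ((Set.finite_singleton 1).union S.finite_toSet).union S.finite_toSet.inv
  have h1 : (1 : G) ∈ T := Or.inl (Or.inl rfl)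
  refine ⟨T ^ N ∪ {1}, (pow_finite hTf N).union (Set.finite_singleton 1), fun x y hxy => ?_⟩
  rcases Relation.ReflTransGen.cases_head hxy with rfl | ⟨z, hxz, _⟩
  · right
    exact mul_inv_cancel x
  · left
    have hx : x ∈ U := hxz.1
    have h2 : Relation.ReflTransGen (LinkIn S U) x y :=
      rtg_mono (fun a b hab =>
        ⟨hab.1, hab.2.1, b * a⁻¹, hab.2.2, Or.inl (by group)⟩) hxy
    refine EE_pow S U x h1 (fun s hs => Or.inl (Or.inr hs)) (fun s hs => Or.inr ?_) N y
      (EE_full S U x (h x hx).1 (h x hx).2 h2)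
    rw [Set.mem_inv, inv_inv]
    exact hs

theorem bd_nbhd {K : Set G} (hK : K.Finite) (hs : ∀ s ∈ K, s⁻¹ ∈ K) {U : Set G}
    (h : Bd (K * K * K) U) : Bd K (nbhd K U) := by
  obtain ⟨F, hF, hFU⟩ := h
  refine ⟨K * F * K ∪ {1}, ((hK.mul hF).mul hK).union (Set.finite_singleton 1),
    fun x y hxy => ?_⟩
  rcases Relation.ReflTransGen.cases_head hxy with rfl | ⟨z, hxz, _⟩
  · right
    exact mul_inv_cancel x
  · left
    obtain ⟨s, hsK, hsx⟩ := hxz.1
    have key : ∀ w, Relation.ReflTransGen (Lk K (nbhd K U)) x w →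
        ∃ r ∈ K, r * w ∈ U ∧ Relation.ReflTransGen (Lk (K * K * K) U) (s * x) (r * w) := by
      intro w hw
      induction hw with
      | refl => exact ⟨s, hsK, hsx, Relation.ReflTransGen.refl⟩
      | @tail v w _ hvw ih =>
        obtain ⟨r, hr, hrv, hrt⟩ := ih
        obtain ⟨q, hq, hqw⟩ := hvw.2.1
        refine ⟨q, hq, hqw, hrt.tail ⟨hrv, hqw, ?_⟩⟩
        have e : q * w * (r * v)⁻¹ = q * (w * v⁻¹) * r⁻¹ := by group
        rw [e]
        exact Set.mul_mem_mul (Set.mul_mem_mul hq hvw.2.2) (hs r hr)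
    obtain ⟨r, hr, _, hrt⟩ := key y hxy
    have h1 := hFU _ _ hrt
    have e : y * x⁻¹ = r⁻¹ * (r * y * (s * x)⁻¹) * s := by group
    rw [e]
    exact Set.mul_mem_mul (Set.mul_mem_mul (hs r hr) h1) hsK

theorem Fam.mono {n d : ℕ} {S S' : Set G} (h : S ⊆ S') (hF : Fam n d S') : Fam n d S := by
  obtain ⟨U, h1, h2⟩ := hF
  exact ⟨U, fun t => (h1 t).mono h, h2⟩

theorem fam_base {d : ℕ} (h : AsdimLE G d) {S : Set G} (hS : S.Finite) : Fam (d + 1) d S := by
  obtain ⟨U, hU, N, hN⟩ := h hS.toFinset
  refine ⟨U, fun t => ?_, fun x => ?_⟩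
  · have := bd_of_ncard (hN t)
    rwa [Set.Finite.coe_toFinset] at this
  · obtain ⟨c, hc⟩ := hU x
    have h1 : 0 < ({t | x ∈ U t} : Set (Fin (d + 1))).ncard :=
      (Set.ncard_pos (Set.toFinite _)).mpr ⟨c, hc⟩
    omega

theorem fam_step {n d : ℕ} (hn : d < n) (h : ∀ S : Set G, S.Finite → Fam n d S)
    {S : Set G} (hS : S.Finite) : Fam (n + 1) d S := by
  set K : Set G := {1} ∪ S ∪ S⁻¹ with hKdef
  have hK : K.Finite := ((Set.finite_singleton 1).union hS).union hS.inv
  have h1 : (1 : G) ∈ K := Or.inl (Or.inl rfl)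
  have hSK : S ⊆ K := fun s hs => Or.inl (Or.inr hs)
  have hs : ∀ s ∈ K, s⁻¹ ∈ K := by
    rintro s ((hs | hs) | hs)
    · have : s = 1 := hs
      rw [this, inv_one]
      exact h1
    · right
      rw [Set.mem_inv, inv_inv]
      exact hs
    · exact Or.inl (Or.inr hs)
  refine Fam.mono hSK ?_
  obtain ⟨U, hU, hc⟩ := h (K * K * K) ((hK.mul hK).mul hK)
  set V : Set G := {x | ({t | x ∈ nbhd K (U t)} : Set (Fin n)).ncard + d ≤ n} with hV
  have hsub : ∀ x, ({t | x ∈ U t} : Set (Fin n)) ⊆ {t | x ∈ nbhd K (U t)} := fun x t ht =>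
    ⟨1, h1, by rw [one_mul]; exact ht⟩
  refine ⟨Fin.cons V fun t => nbhd K (U t), fun t => ?_, fun x => ?_⟩
  · refine Fin.cases ?_ (fun t => ?_) t
    · rw [Fin.cons_zero]
      choose F hF hFU using hU
      refine ⟨(⋃ t, F t) ∪ {1}, (Set.finite_iUnion hF).union (Set.finite_singleton 1),
        fun x y hxy => ?_⟩
      rcases Relation.ReflTransGen.cases_head hxy with rfl | ⟨z, hxz, _⟩
      · right
        exact mul_inv_cancel x
      · left
        have hx : x ∈ V := hxz.1
        have h2 : 0 < ({t | x ∈ U t} : Set (Fin n)).ncard := by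
          have := hc x
          omega
        obtain ⟨t, ht⟩ := (Set.ncard_pos (Set.toFinite _)).mp h2
        have key : ∀ w, Relation.ReflTransGen (Lk K V) x w →
            w ∈ U t ∧ Relation.ReflTransGen (Lk (K * K * K) (U t)) x w := by
          intro w hw
          induction hw with
          | refl => exact ⟨ht, Relation.ReflTransGen.refl⟩
          | @tail v w _ hvw ih =>
            have hw : w ∈ V := hvw.2.1
            have h3 : t ∈ ({t | w ∈ nbhd K (U t)} : Set (Fin n)) := by
              refine ⟨v * w⁻¹, ?_, ?_⟩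
              · have := hs _ hvw.2.2
                rwa [mul_inv_rev, inv_inv] at this
              · rw [inv_mul_cancel_right]
                exact ih.1
            have h4 : ({t | w ∈ U t} : Set (Fin n)) = {t | w ∈ nbhd K (U t)} := by
              refine Set.eq_of_subset_of_ncard_le (hsub w) ?_ (Set.toFinite _)
              have h5 := hc w
              have h6 : ({t | w ∈ nbhd K (U t)} : Set (Fin n)).ncard + d ≤ n := hw
              omega
            rw [← h4] at h3
            refine ⟨h3, ih.2.tail ⟨ih.1, h3, ?_⟩⟩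
            have := Set.mul_mem_mul (Set.mul_mem_mul hvw.2.2 h1) h1
            rwa [mul_one, mul_one] at this
        exact Set.mem_iUnion.mpr ⟨t, hFU t x y (key y hxy).2⟩
    · rw [Fin.cons_succ]
      exact bd_nbhd hK hs (hU t)
  · by_cases hx : x ∈ V
    · have h2 : insert (0 : Fin (n + 1)) (Fin.succ '' ({t | x ∈ nbhd K (U t)} : Set (Fin n))) ⊆
          {t | x ∈ (Fin.cons V fun t => nbhd K (U t) : Fin (n + 1) → Set G) t} := by
        rintro t (rfl | ⟨s, hs', rfl⟩)
        · exact hx
        · exact hs'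
      have h3 := Set.ncard_le_ncard h2 (Set.toFinite _)
      have h4 : (0 : Fin (n + 1)) ∉ Fin.succ '' ({t | x ∈ nbhd K (U t)} : Set (Fin n)) := by
        rintro ⟨s, _, hs'⟩
        exact Fin.succ_ne_zero s hs'
      rw [Set.ncard_insert_of_notMem h4 (Set.toFinite _),
        Set.ncard_image_of_injective _ (Fin.succ_injective n)] at h3
      have h5 := Set.ncard_le_ncard (hsub x) (Set.toFinite _)
      have h6 := hc x
      omega
    · have h2 : Fin.succ '' ({t | x ∈ nbhd K (U t)} : Set (Fin n)) ⊆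
          {t | x ∈ (Fin.cons V fun t => nbhd K (U t) : Fin (n + 1) → Set G) t} := by
        rintro t ⟨s, hs', rfl⟩
        exact hs'
      have h3 := Set.ncard_le_ncard h2 (Set.toFinite _)
      rw [Set.ncard_image_of_injective _ (Fin.succ_injective n)] at h3
      have h4 : ¬ ({t | x ∈ nbhd K (U t)} : Set (Fin n)).ncard + d ≤ n := hx
      omega

theorem fam_all {d : ℕ} (h : AsdimLE G d) (n : ℕ) (hn : d < n) :
    ∀ S : Set G, S.Finite → Fam n d S := by
  induction n, hn using Nat.le_induction with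
  | base => exact fun S hS => fam_base h hS
  | succ n hn ih => exact fun S hS => fam_step hn ih hS

theorem ball_sub {C T : Set G} (hC : C ⊆ T) (h1 : (1 : G) ∈ T) (n : ℕ) : Ball C n ⊆ T ^ n := by
  rintro u ⟨l, hl, hn, rfl⟩
  have key : ∀ l : List G, (∀ c ∈ l, c ∈ C) → l.prod ∈ T ^ l.length := by
    intro l
    induction l with
    | nil =>
      intro _
      rw [List.prod_nil, List.length_nil, pow_zero]
      exact Set.mem_one.mpr rfl
    | cons a l ih =>
      intro hl
      rw [List.prod_cons, List.length_cons, pow_succ']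
      exact Set.mul_mem_mul (hC (hl a List.mem_cons_self))
        (ih fun c hc => hl c (List.mem_cons_of_mem a hc))
  exact Set.pow_subset_pow_right h1 hn (key l hl)

open Classical in
/-- a point of the set -/
noncomputable def rep (s : Set G) : G := if h : s.Nonempty then h.some else 1

theorem rep_mem {s : Set G} (h : s.Nonempty) : rep s ∈ s := by
  unfold rep
  rw [dif_pos h]
  exact h.some_mem

theorem kolH {d : ℕ} (h : AsdimLE G d) {C : Set G} (hC : C.Finite) (ρ n : ℕ) :
    ∃ β : Fin n → G → G, (∀ t, (Set.range (β t)).Finite) ∧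
      ∀ a : G, ({t | ∃ u ∈ Ball C ρ, ∃ c ∈ C, β t (c * (u * a)) ≠ c * β t (u * a)} :
        Set (Fin n)).ncard ≤ d := by
  classical
  rcases Nat.lt_or_ge d n with hn | hn
  swap
  · refine ⟨fun _ _ => 1, fun t => ?_, fun a => ?_⟩
    · exact (Set.finite_singleton (1 : G)).subset (by rintro _ ⟨_, rfl⟩; rfl)
    · refine le_trans (Set.ncard_le_ncard (Set.subset_univ _) (Set.toFinite _)) ?_
      rw [Set.ncard_univ, Nat.card_eq_fintype_card, Fintype.card_fin]
      exact hn
  set T : Set G := {1} ∪ C ∪ C⁻¹ with hT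
  have hTf : T.Finite := ((Set.finite_singleton 1).union hC).union hC.inv
  have h1 : (1 : G) ∈ T := Or.inl (Or.inl rfl)
  have hCT : C ⊆ T := fun s hs => Or.inl (Or.inr hs)
  have hTi : T⁻¹ = T := by
    rw [hT, Set.union_inv, Set.union_inv, inv_inv, Set.inv_singleton, inv_one, Set.union_assoc,
      Set.union_comm C⁻¹ C, ← Set.union_assoc]
  set K : Set G := T ^ (ρ + 1) with hK
  have hKf : K.Finite := pow_finite hTf _
  have hK1 : (1 : G) ∈ K := Set.pow_subset_pow_right h1 (Nat.zero_le _) (by
    rw [pow_zero]; exact Set.mem_one.mpr rfl)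
  have hTK : T ⊆ K := by
    have := Set.pow_subset_pow_right h1 (Nat.succ_le_succ (Nat.zero_le ρ))
    rwa [pow_one] at this
  have hKs : ∀ s ∈ K, s⁻¹ ∈ K := by
    intro s hs
    have h2 : s⁻¹ ∈ K⁻¹ := Set.inv_mem_inv.mpr hs
    rwa [hK, ← inv_pow, hTi] at h2
  obtain ⟨U, hU, hc⟩ := fam_all h n hn (K * K * K) ((hKf.mul hKf).mul hKf)
  set W : Fin n → Set G := fun t => nbhd K (U t) with hW
  have hWb : ∀ t, Bd K (W t) := fun t => bd_nbhd hKf hKs (hU t)
  set cmp : Fin n → G → Set G := fun t x => {y | Relation.ReflTransGen (Lk K (W t)) x y} with hcmp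
  have hsym : ∀ t x y, Lk K (W t) x y → Lk K (W t) y x := by
    intro t x y hxy
    refine ⟨hxy.2.1, hxy.1, ?_⟩
    have := hKs _ hxy.2.2
    rwa [mul_inv_rev, inv_inv] at this
  have hcmpeq : ∀ t x y, Lk K (W t) x y → cmp t y = cmp t x := by
    intro t x y hxy
    ext z
    exact ⟨fun hz => Relation.ReflTransGen.head hxy hz,
      fun hz => Relation.ReflTransGen.head (hsym t x y hxy) hz⟩
  refine ⟨fun t x => if x ∈ W t then x * (rep (cmp t x))⁻¹ else 1, fun t => ?_, fun a => ?_⟩
  · obtain ⟨F, hF, hFU⟩ := hWb t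
    refine (hF.inv.union (Set.finite_singleton 1)).subset ?_
    rintro _ ⟨x, rfl⟩
    dsimp only
    split_ifs with hx
    · left
      have h2 := hFU x _ (rep_mem (s := cmp t x) ⟨x, Relation.ReflTransGen.refl⟩)
      rw [Set.mem_inv, mul_inv_rev, inv_inv]
      exact h2
    · right
      rfl
  · have hsubs : ({t | ∃ u ∈ Ball C ρ, ∃ c ∈ C,
        (if c * (u * a) ∈ W t then c * (u * a) * (rep (cmp t (c * (u * a))))⁻¹ else 1) ≠
          c * (if u * a ∈ W t then u * a * (rep (cmp t (u * a)))⁻¹ else 1)} : Set (Fin n)) ⊆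
        ({t | a ∈ U t} : Set (Fin n))ᶜ := by
      rintro t ⟨u, hu, c, hcC, hne⟩ hat
      apply hne
      have huT : u ∈ T ^ ρ := ball_sub hCT h1 ρ hu
      have huK : u ∈ K := Set.pow_subset_pow_right h1 (Nat.le_succ ρ) huT
      have hcuK : c * u ∈ K := by
        rw [hK, pow_succ']
        exact Set.mul_mem_mul (hCT hcC) huT
      have hw : ∀ k ∈ K, k * a ∈ W t := fun k hk =>
        ⟨k⁻¹, hKs k hk, by rw [inv_mul_cancel_left]; exact hat⟩
      have hw1 : u * a ∈ W t := hw u huK
      have hw2 : c * (u * a) ∈ W t := by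
        rw [← mul_assoc]
        exact hw _ hcuK
      have hlk : Lk K (W t) (u * a) (c * (u * a)) :=
        ⟨hw1, hw2, by rw [mul_inv_cancel_right]; exact hTK (hCT hcC)⟩
      rw [if_pos hw1, if_pos hw2, hcmpeq t _ _ hlk]
      group
    refine le_trans (Set.ncard_le_ncard hsubs (Set.toFinite _)) ?_
    rw [Set.ncard_compl, Nat.card_eq_fintype_card, Fintype.card_fin]
    have := hc a
    omega

end KL

theorem kol_of_locFinAsdim {A : Type u} [Group A] (h : LocFinAsdim A) : Kol A := by
  intro C hC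
  set H : Subgroup A := Subgroup.closure C with hH
  have hFG : H.FG := ⟨hC.toFinset, by rw [Set.Finite.coe_toFinset]⟩
  obtain ⟨d, hd⟩ := h H hFG
  refine ⟨d, fun ρ n => ?_⟩
  have hCH : ∀ c ∈ C, c ∈ H := fun c hc => Subgroup.subset_closure hc
  set CH : Set H := {c | (c : A) ∈ C} with hCHdef
  have hCHf : CH.Finite := Set.Finite.preimage (Subtype.val_injective.injOn) hC
  obtain ⟨β, hβ1, hβ2⟩ := KL.kolH hd hCHf ρ n
  -- the coset representative
  set r : A → A := fun a => (Quotient.mk (QuotientGroup.rightRel H) a).out with hr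
  have hr1 : ∀ a, a * (r a)⁻¹ ∈ H := fun a => by
    have h1 : (QuotientGroup.rightRel H) (r a) a := Quotient.mk_out (s := QuotientGroup.rightRel H) a
    rwa [QuotientGroup.rightRel_apply] at h1
  have hr2 : ∀ (k : H) (a : A), r (k * a) = r a := fun k a => by
    have h1 : Quotient.mk (QuotientGroup.rightRel H) (k * a) =
        Quotient.mk (QuotientGroup.rightRel H) a := by
      refine Quotient.sound ?_
      change (QuotientGroup.rightRel H) _ _
      rw [QuotientGroup.rightRel_apply, mul_inv_rev, mul_inv_cancel_left]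
      exact H.inv_mem k.2
    change (Quotient.mk (QuotientGroup.rightRel H) (k * a)).out = _
    rw [h1]
  set hh : A → H := fun a => ⟨a * (r a)⁻¹, hr1 a⟩ with hhdef
  have hh2 : ∀ (k : H) (a : A), hh (k * a) = k * hh a := fun k a => by
    refine Subtype.ext ?_
    change (k : A) * a * (r (k * a))⁻¹ = k * (a * (r a)⁻¹)
    rw [hr2, mul_assoc]
  refine ⟨fun t a => (β t (hh a) : A), fun t => ?_, fun a => ?_⟩
  · refine ((hβ1 t).image (Subtype.val)).subset ?_
    rintro _ ⟨a, rfl⟩
    exact ⟨_, ⟨hh a, rfl⟩, rfl⟩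
  · refine le_trans (Set.ncard_le_ncard ?_ (Set.toFinite _)) (hβ2 (hh a))
    rintro t ⟨u, ⟨l, hl, hln, rfl⟩, c, hc, hne⟩
    have hlift : ∀ l : List A, (∀ c ∈ l, c ∈ C) → ∃ l' : List H, (∀ c ∈ l', c ∈ CH) ∧
        l'.length = l.length ∧ (l'.prod : A) = l.prod := by
      intro l
      induction l with
      | nil => exact fun _ => ⟨[], by simp, rfl, by simp⟩
      | cons b l ih =>
        intro hl
        obtain ⟨l', h1, h2, h3⟩ := ih fun c hc => hl c (List.mem_cons_of_mem b hc)
        have hb : b ∈ C := hl b List.mem_cons_self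
        refine ⟨⟨b, hCH b hb⟩ :: l', ?_, ?_, ?_⟩
        · intro c hc
          rcases List.mem_cons.mp hc with rfl | hc
          · exact hb
          · exact h1 c hc
        · rw [List.length_cons, List.length_cons, h2]
        · rw [List.prod_cons, List.prod_cons, Subgroup.coe_mul, h3]
    obtain ⟨l', h1, h2, h3⟩ := hlift l hl
    refine ⟨l'.prod, ⟨l', h1, by omega, rfl⟩, ⟨c, hCH c hc⟩, hc, fun heq => hne ?_⟩
    have e1 : hh (l.prod * a) = l'.prod * hh a := by rw [← h3, hh2]
    have e2 : hh (c * (l.prod * a)) = ⟨c, hCH c hc⟩ * (l'.prod * hh a) := by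
      have := hh2 ⟨c, hCH c hc⟩ (l.prod * a)
      rw [e1] at this
      exact this
    change (β t (hh (c * (l.prod * a))) : A) = c * (β t (hh (l.prod * a)) : A)
    rw [e1, e2, heq]
    rfl

end HypSub
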