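import Pool.Agent.Lib.MP_16db06_lc.Defs

/-!
# MP_16db06_lc : the data of one layer from the Kolmogorov property
-/

set_option autoImplicit false

namespace HypSub

open Set Topology

universe u

namespace LayerSetting

variable {G : Type u} [Group G] (A : Subgroup G) [A.Normal]

/-- a section of the quotient map -/
noncomputable def sig (q : G ⧸ A) : G := Quotient.out q

theorem mk_sig (q : G ⧸ A) : QuotientGroup.mk' A (sig A q) = q := QuotientGroup.out_eq' q

theorem alpha_mem (g : G) : (sig A (QuotientGroup.mk' A g))⁻¹ * g ∈ A := by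
  have h : QuotientGroup.mk' A ((sig A (QuotientGroup.mk' A g))⁻¹ * g) = 1 := by
    rw [map_mul, map_inv, mk_sig, inv_mul_cancel]
  exact (QuotientGroup.eq_one_iff _).mp h

/-- the component in `A` -/
noncomputable def alpha (g : G) : A := ⟨_, alpha_mem A g⟩

theorem conn_mem (s : G) (q : G ⧸ A) :
    (sig A (QuotientGroup.mk' A s * q))⁻¹ * s * sig A q ∈ A := by
  have h : QuotientGroup.mk' A ((sig A (QuotientGroup.mk' A s * q))⁻¹ * s * sig A q) = 1 := by
    rw [map_mul, map_mul, map_inv, mk_sig, mk_sig]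
    group
  exact (QuotientGroup.eq_one_iff _).mp h

/-- the connection -/
noncomputable def conn (s : G) (q : G ⧸ A) : A := ⟨_, conn_mem A s q⟩

theorem alpha_mul (s g : G) :
    alpha A (s * g) = conn A s (QuotientGroup.mk' A g) * alpha A g := by
  apply Subtype.ext
  show (sig A (QuotientGroup.mk' A (s * g)))⁻¹ * (s * g) =
    ((sig A (QuotientGroup.mk' A s * QuotientGroup.mk' A g))⁻¹ * s *
      sig A (QuotientGroup.mk' A g)) * ((sig A (QuotientGroup.mk' A g))⁻¹ * g)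
  rw [map_mul]
  group

/-- the finite set of the connections -/
def Cset (L : Set (G ⧸ A)) (S : Set G) : Set A :=
  {c | ∃ s ∈ S, ∃ q ∈ L, QuotientGroup.mk' A s * q ∈ L ∧ c = conn A s q}

theorem Cset_finite {L : Set (G ⧸ A)} {S : Set G} (hL : L.Finite) (hS : S.Finite) :
    (Cset A L S).Finite := by
  refine ((hS.prod hL).image fun z => conn A z.1 z.2).subset ?_
  rintro c ⟨s, hs, q, hq, -, rfl⟩
  exact ⟨(s, q), ⟨hs, hq⟩, rfl⟩

theorem reach_mem {L : Set (G ⧸ A)} {S : Set G} {g : G} (hg : QuotientGroup.mk' A g ∈ L) {n : ℕ}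
    {γ : G} (h : Reach (QuotientGroup.mk' A) S L (QuotientGroup.mk' A g) n γ) :
    QuotientGroup.mk' A (γ * g) ∈ L ∧
      ∃ u ∈ Ball (Cset A L S) n, alpha A (γ * g) = u * alpha A g := by
  induction h with
  | base n =>
    refine ⟨by rwa [one_mul], 1, ⟨[], by simp, by simp, by simp⟩, by rw [one_mul, one_mul]⟩
  | step n γ s _ hs hT ih =>
    obtain ⟨h1, u, ⟨l, hl1, hl2, hl3⟩, h2⟩ := ih
    have h3 : QuotientGroup.mk' A (s * γ * g) ∈ L := by
      rw [map_mul]
      exact hT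
    refine ⟨h3, conn A s (QuotientGroup.mk' A (γ * g)) * u,
      ⟨conn A s (QuotientGroup.mk' A (γ * g)) :: l, ?_, ?_, ?_⟩, ?_⟩
    · intro c hc
      rcases List.mem_cons.mp hc with rfl | hc
      · refine ⟨s, hs, _, h1, ?_, rfl⟩
        rw [← map_mul, ← mul_assoc]
        exact h3
      · exact hl1 c hc
    · rw [List.length_cons]
      omega
    · rw [List.prod_cons, hl3]
    · rw [mul_assoc s γ g, alpha_mul, h2, mul_assoc]

open Classical in
/-- the indices `(T, r)` -/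
noncomputable def idx {L : Set (G ⧸ A)} (hL : L.Finite) (N : ℕ) : Finset (Set (G ⧸ A) × ℕ) :=
  hL.finite_subsets.toFinset ×ˢ Finset.range (N + 1)

theorem mem_idx {L : Set (G ⧸ A)} (hL : L.Finite) {N : ℕ} {p : Set (G ⧸ A) × ℕ} :
    p ∈ idx A hL N ↔ p.1 ⊆ L ∧ p.2 ≤ N := by
  unfold idx
  rw [Finset.mem_product, Set.Finite.mem_toFinset, Finset.mem_range, Nat.lt_succ_iff]
  rfl

open Classical in
/-- the maps of a level -/
noncomputable def lamOf {L : Set (G ⧸ A)} (hL : L.Finite) (N : ℕ)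
    (β : Fin (idx A hL N).card → A → A) (T : Set (G ⧸ A)) (r : ℕ) (g : G) : G :=
  if h : (T, r) ∈ idx A hL N then
    sig A (QuotientGroup.mk' A g) * (β ((idx A hL N).equivFin ⟨(T, r), h⟩) (alpha A g) : G)
  else 1

/-- the values of these maps -/
def LamOf {L : Set (G ⧸ A)} (hL : L.Finite) (N : ℕ)
    (β : Fin (idx A hL N).card → A → A) : Set G :=
  {1} ∪ {u | ∃ q ∈ L, ∃ t, ∃ b ∈ Set.range (β t), u = sig A q * (b : G)}

theorem LamOf_finite {L : Set (G ⧸ A)} (hL : L.Finite) (N : ℕ)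
    (β : Fin (idx A hL N).card → A → A) (hβ : ∀ t, (Set.range (β t)).Finite) :
    (LamOf A hL N β).Finite := by
  refine (Set.finite_singleton 1).union ?_
  have h : {u : G | ∃ q ∈ L, ∃ t, ∃ b ∈ Set.range (β t), u = sig A q * (b : G)} ⊆
      (fun z : (G ⧸ A) × A => sig A z.1 * (z.2 : G)) '' (L ×ˢ ⋃ t, Set.range (β t)) := by
    rintro u ⟨q, hq, t, b, hb, rfl⟩
    exact ⟨(q, b), ⟨hq, Set.mem_iUnion.mpr ⟨t, hb⟩⟩, rfl⟩
  exact ((hL.prod (Set.finite_iUnion hβ)).image _).subset h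

theorem lamOf_mem {L : Set (G ⧸ A)} (hL : L.Finite) (N : ℕ)
    (β : Fin (idx A hL N).card → A → A) (T : Set (G ⧸ A)) (r : ℕ) (g : G)
    (hg : QuotientGroup.mk' A g ∈ L) : lamOf A hL N β T r g ∈ LamOf A hL N β := by
  unfold lamOf LamOf
  split_ifs with h
  · exact Or.inr ⟨_, hg, _, _, ⟨_, rfl⟩, rfl⟩
  · exact Or.inl rfl

theorem broken_card {L : Set (G ⧸ A)} (hL : L.Finite) (S : Set G) (N d ρ : ℕ)
    (β : Fin (idx A hL N).card → A → A)
    (hβ : ∀ a : A, ({t | ∃ u ∈ Ball (Cset A L S) ρ, ∃ c ∈ Cset A L S,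
      β t (c * (u * a)) ≠ c * β t (u * a)} : Set (Fin (idx A hL N).card)).ncard ≤ d)
    (g : G) (hg : QuotientGroup.mk' A g ∈ L) (J : Finset (Set (G ⧸ A) × ℕ))
    (hJ : ∀ p ∈ J, p.1 ⊆ L ∧ p.2 ≤ N ∧
      ∃ γ, Reach (QuotientGroup.mk' A) S L (QuotientGroup.mk' A g) ρ γ ∧ ∃ s ∈ S,
        QuotientGroup.mk' A (s * (γ * g)) ∈ L ∧
        lamOf A hL N β p.1 p.2 (s * (γ * g)) ≠ s * lamOf A hL N β p.1 p.2 (γ * g)) :
    J.card ≤ d := by
  classical
  refine le_trans ?_ (hβ (alpha A g))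
  have hm : ∀ p ∈ J, p ∈ idx A hL N := fun p hp => (mem_idx A hL).mpr ⟨(hJ p hp).1, (hJ p hp).2.1⟩
  have h1 : J.card = (J.attach.image fun p =>
      (idx A hL N).equivFin ⟨p.1, hm p.1 p.2⟩).card := by
    rw [Finset.card_image_of_injective, Finset.card_attach]
    intro p q hpq
    have := (idx A hL N).equivFin.injective hpq
    exact Subtype.ext (Subtype.mk.inj this)
  rw [h1, ← Set.ncard_coe_finset]
  refine Set.ncard_le_ncard ?_ (Set.toFinite _)
  intro t ht
  rw [Finset.mem_coe, Finset.mem_image] at ht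
  obtain ⟨⟨p, hp⟩, -, rfl⟩ := ht
  obtain ⟨-, -, γ, hγ, s, hs, h2, h3⟩ := hJ p hp
  obtain ⟨h4, u, hu, h5⟩ := reach_mem A hg hγ
  refine ⟨u, hu, conn A s (QuotientGroup.mk' A (γ * g)), ⟨s, hs, _, h4, ?_, rfl⟩, ?_⟩
  · rw [← map_mul]
    exact h2
  · intro h6
    apply h3
    have hp' : ((p.1, p.2) : Set (G ⧸ A) × ℕ) ∈ idx A hL N := hm p hp
    unfold lamOf
    rw [dif_pos hp', dif_pos hp', alpha_mul, h5]
    have h7 : β ((idx A hL N).equivFin ⟨(p.1, p.2), hp'⟩)
        (conn A s (QuotientGroup.mk' A (γ * g)) * (u * alpha A g)) =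
        conn A s (QuotientGroup.mk' A (γ * g)) *
          β ((idx A hL N).equivFin ⟨(p.1, p.2), hp'⟩) (u * alpha A g) := h6
    rw [h7, Subgroup.coe_mul]
    show sig A (QuotientGroup.mk' A (s * (γ * g))) *
      (((sig A (QuotientGroup.mk' A s * QuotientGroup.mk' A (γ * g)))⁻¹ * s *
        sig A (QuotientGroup.mk' A (γ * g))) * _) = _
    rw [map_mul (QuotientGroup.mk' A) s (γ * g)]
    group

end LayerSetting

open LayerSetting

theorem exists_layer {G : Type u} [Group G] (A : Subgroup G) [A.Normal] (hA : Kol A)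
    (L : ℕ → Set (G ⧸ A)) (S : ℕ → Set G) (hL : ∀ m, (L m).Finite) (hS : ∀ m, (S m).Finite) :
    Nonempty (Layer (QuotientGroup.mk' A) L S) := by
  classical
  choose d hd using fun m => hA (Cset A (L m) (S m)) (Cset_finite A (hL m) (hS m))
  -- the maps for the radius `ρ`
  choose β hβ1 hβ2 using fun (m ρ : ℕ) => hd m ρ (idx A (hL m) (d (m + 1) + 1)).card
  -- the number `D` for the radius `ρ`
  let Df : ℕ → ℕ → ℕ := fun m ρ =>
    {u : G | ∃ a ∈ LamOf A (hL m) (d (m + 1) + 1) (β m ρ),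
      ∃ b ∈ LamOf A (hL m) (d (m + 1) + 1) (β m ρ), u = a * b⁻¹}.ncard
  let st : ℕ → ℕ × ℕ := fun m => Nat.rec (1, 0) (fun m z =>
    (2 * (Df m z.1 + z.1) * (d (m + 1) + 1 + 2) + (1 + (z.2 + Df m z.1)), z.2 + Df m z.1)) m
  have hst : ∀ m, st (m + 1) = (2 * (Df m (st m).1 + (st m).1) * (d (m + 1) + 1 + 2) +
    (1 + ((st m).2 + Df m (st m).1)), (st m).2 + Df m (st m).1) := fun _ => rfl
  have hsum : ∀ m, (st m).2 = ∑ i ∈ Finset.range m, Df i (st i).1 := by
    intro m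
    induction m with
    | zero => rfl
    | succ m ih => rw [hst, Finset.sum_range_succ, ← ih]
  refine ⟨{
    lam := fun m => lamOf A (hL m) (d (m + 1) + 1) (β m (st m).1)
    Λ := fun m => LamOf A (hL m) (d (m + 1) + 1) (β m (st m).1)
    N := fun m => d (m + 1) + 1
    d := d
    ρ := fun m => (st m).1
    D := fun m => Df m (st m).1
    finΛ := fun m => LamOf_finite A (hL m) _ _ (hβ1 m _)
    memΛ := fun m T r g hg => lamOf_mem A (hL m) _ _ T r g hg
    hD := fun m => le_rfl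
    hN := fun m => rfl
    hρ := fun m => ?_
    hρ' := fun m => ?_
    broken := fun m g hg J hJ => broken_card A (hL m) (S m) _ _ _ _ (hβ2 m _) g hg J hJ }⟩
  · rw [hst]
    exact Nat.le_add_right _ _
  · cases m with
    | zero => simp [st]
    | succ m =>
      rw [Finset.sum_range_succ, ← hsum, hst]
      exact Nat.le_add_left _ _

end HypSub
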