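import Pool.Agent.Lib.MP_16db06_lc.Defs

/-! Module M4: commutative groups have locally finite asymptotic dimension, and solvable groups have
towers. -/

set_option autoImplicit false

namespace HypSub

open Set Topology

universe u

/-- A group with a homomorphism to `ℤ^J` with finite fibres has finite asymptotic dimension. -/
theorem slv_asdim {A : Type u} [Group A] {J F : Type} [Fintype J] [Finite F]
    (f : A → J → ℤ) (hf : ∀ a b j, f (a * b) j = f a j + f b j)
    (q : A → F) (hinj : ∀ a b, f a = f b → q a = q b → a = b) :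
    AsdimLE A (2 ^ Fintype.card J - 1) := by
  classical
  have := Fintype.ofFinite F
  intro S
  obtain ⟨M, hM0, hM⟩ : ∃ M : ℕ, 0 < M ∧ ∀ s ∈ S, ∀ j, (f s j).natAbs < M := by
    refine ⟨1 + ∑ s ∈ S, ∑ j, (f s j).natAbs, by omega, ?_⟩
    intro s hs j
    have h1 : (f s j).natAbs ≤ ∑ j, (f s j).natAbs :=
      Finset.single_le_sum (f := fun j => (f s j).natAbs) (fun _ _ => Nat.zero_le _)
        (Finset.mem_univ j)
    have h2 : ∑ j, (f s j).natAbs ≤ ∑ s ∈ S, ∑ j, (f s j).natAbs :=
      Finset.single_le_sum (f := fun s => ∑ j, (f s j).natAbs) (fun _ _ => Nat.zero_le _) hs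
    omega
  have hcard : Fintype.card (Fin (2 ^ Fintype.card J - 1 + 1)) = Fintype.card (J → Bool) := by
    have := Nat.one_le_two_pow (n := Fintype.card J)
    simp only [Fintype.card_fin, Fintype.card_pi, Fintype.card_bool, Finset.prod_const,
      Finset.card_univ]
    omega
  let eq := Fintype.equivOfCardEq hcard
  let par : A → J → Bool := fun a j => decide ((f a j / (M : ℤ)) % 2 = 0)
  have hMz : (0 : ℤ) < (M : ℤ) := by exact_mod_cast hM0
  refine ⟨fun c => {a | par a = eq c}, fun g => ⟨eq.symm (par g), by simp⟩,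
    M ^ Fintype.card J * Fintype.card F, ?_⟩
  intro c g _
  have hclose : ∀ a b : A, ∀ s ∈ S, b = s * a → ∀ j, par a j = par b j →
      f a j / (M : ℤ) = f b j / (M : ℤ) := by
    intro a b s hs hb j hp
    have h1 : f b j = f s j + f a j := by rw [hb, hf]
    have h2 := hM s hs j
    have hp' : (f a j / (M : ℤ)) % 2 = 0 ↔ (f b j / (M : ℤ)) % 2 = 0 := by
      simpa [par, decide_eq_decide] using hp
    have h3 : f b j / (M : ℤ) ≤ f a j / (M : ℤ) + 1 := by
      have : f b j ≤ f a j + (M : ℤ) := by omega
      calc f b j / (M : ℤ) ≤ (f a j + (M : ℤ)) / (M : ℤ) := Int.ediv_le_ediv hMz this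
        _ = f a j / (M : ℤ) + 1 := by rw [Int.add_ediv_of_dvd_right (dvd_refl _), Int.ediv_self (by omega)]
    have h4 : f a j / (M : ℤ) ≤ f b j / (M : ℤ) + 1 := by
      have : f a j ≤ f b j + (M : ℤ) := by omega
      calc f a j / (M : ℤ) ≤ (f b j + (M : ℤ)) / (M : ℤ) := Int.ediv_le_ediv hMz this
        _ = f b j / (M : ℤ) + 1 := by rw [Int.add_ediv_of_dvd_right (dvd_refl _), Int.ediv_self (by omega)]
    omega
  have hstep : ∀ a b, LinkIn S {a | par a = eq c} a b → ∀ j,
      f a j / (M : ℤ) = f b j / (M : ℤ) := by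
    rintro a b ⟨ha, hb, s, hs, h | h⟩ j
    · have hab : par a = par b := by
        rw [show par a = eq c from ha, show par b = eq c from hb]
      exact hclose a b s hs h j (by rw [hab])
    · have hab : par a = par b := by
        rw [show par a = eq c from ha, show par b = eq c from hb]
      exact (hclose b a s hs h j (by rw [hab])).symm
  have hcomp : ∀ b, Relation.ReflTransGen (LinkIn S {a | par a = eq c}) g b → ∀ j,
      f g j / (M : ℤ) = f b j / (M : ℤ) := by
    intro b hb
    induction hb with
    | refl => intro j; rfl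
    | tail _ h ih => intro j; rw [ih j]; exact hstep _ _ h j
  let φ : A → (J → Fin M) × F := fun a =>
    (fun j => ⟨(f a j % (M : ℤ)).toNat, by
      have h1 := Int.emod_nonneg (f a j) (by omega : (M : ℤ) ≠ 0)
      have h2 := Int.emod_lt_of_pos (f a j) hMz
      omega⟩, q a)
  have hφ : Set.InjOn φ {h | Relation.ReflTransGen (LinkIn S {a | par a = eq c}) g h} := by
    intro a ha b hb hab
    have h1 : (φ a).1 = (φ b).1 := by rw [hab]
    have h2 : q a = q b := congrArg Prod.snd hab
    refine hinj a b ?_ h2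
    funext j
    have h3 := congrFun h1 j
    have h4 : (f a j % (M : ℤ)).toNat = (f b j % (M : ℤ)).toNat := congrArg Fin.val h3
    have h5 := Int.emod_nonneg (f a j) (by omega : (M : ℤ) ≠ 0)
    have h6 := Int.emod_nonneg (f b j) (by omega : (M : ℤ) ≠ 0)
    have h7 : f a j % (M : ℤ) = f b j % (M : ℤ) := by omega
    have h8 : f a j / (M : ℤ) = f b j / (M : ℤ) := (hcomp a ha j).symm.trans (hcomp b hb j)
    rw [← Int.mul_ediv_add_emod (f a j) (M : ℤ), ← Int.mul_ediv_add_emod (f b j) (M : ℤ), h7, h8]
  refine ⟨Set.Finite.of_finite_image (Set.toFinite _) hφ, ?_⟩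
  rw [← hφ.ncard_image]
  calc (φ '' {h | Relation.ReflTransGen (LinkIn S {a | par a = eq c}) g h}).ncard
      ≤ (Set.univ : Set ((J → Fin M) × F)).ncard :=
        Set.ncard_le_ncard (Set.subset_univ _) (Set.toFinite _)
    _ = M ^ Fintype.card J * Fintype.card F := by
        rw [Set.ncard_univ, Nat.card_eq_fintype_card]
        simp

theorem locFinAsdim_of_comm {A : Type u} [Group A] (h : ∀ a b : A, a * b = b * a) :
    LocFinAsdim A := by
  intro H hH
  let : CommGroup H :=
    { (inferInstance : Group H) with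
      mul_comm := fun a b => Subtype.ext (h a.1 b.1) }
  have : Group.FG H := (Group.fg_iff_subgroup_fg H).mpr hH
  obtain ⟨ι, J, _, _, p, hp, e, ⟨E⟩⟩ := CommGroup.equiv_free_prod_prod_multiplicative_zmod H
  have : ∀ i, NeZero (p i ^ e i) := fun i => ⟨pow_ne_zero _ (hp i).ne_zero⟩
  have : ∀ i, Finite (Multiplicative (ZMod (p i ^ e i))) := fun i =>
    inferInstanceAs (Finite (ZMod (p i ^ e i)))
  refine ⟨_, slv_asdim (F := (i : ι) → Multiplicative (ZMod (p i ^ e i)))
    (fun a j => Multiplicative.toAdd ((E a).1 j)) ?_ (fun a => (E a).2) ?_⟩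
  · intro a b j
    have : E (a * b) = E a * E b := map_mul E a b
    rw [this]
    rfl
  · intro a b h1 h2
    apply E.injective
    refine Prod.ext ?_ h2
    funext j
    exact Multiplicative.toAdd.injective (congrFun h1 j)

open scoped commutatorElement in
theorem slv_tower (n : ℕ) : ∀ (G : Type u) [Group G], derivedSeries G n = ⊥ → Tower n G := by
  induction n with
  | zero =>
    intro G _ hG
    rw [derivedSeries_zero] at hG
    exact (Subgroup.subsingleton_iff.mp (subsingleton_of_bot_eq_top hG.symm))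
  | succ n ih =>
    intro G _ hG
    refine ⟨derivedSeries G n, derivedSeries_normal G n, ?_, ?_⟩
    · refine locFinAsdim_of_comm ?_
      rintro ⟨a, ha⟩ ⟨b, hb⟩
      rw [derivedSeries_succ] at hG
      have h1 : ⁅a, b⁆ ∈ (⊥ : Subgroup G) := hG ▸ Subgroup.commutator_mem_commutator ha hb
      rw [Subgroup.mem_bot, commutatorElement_eq_one_iff_mul_comm] at h1
      exact Subtype.ext h1
    · have := derivedSeries_normal G n
      refine ih _ ?_
      rw [← map_derivedSeries_eq (QuotientGroup.mk'_surjective (derivedSeries G n)) n]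
      rw [Subgroup.map_eq_bot_iff, QuotientGroup.ker_mk']

theorem tower_of_solvable {G : Type u} [Group G] (h : Group.IsSolvable G) : ∃ n, Tower n G := by
  obtain ⟨n, hn⟩ := h.solvable
  exact ⟨n, slv_tower n G hn⟩

end HypSub
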