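import Pool.Agent.Lib.MP_16db06_lc.Alg
import Pool.Agent.Lib.MP_16db06_lc.AEHyp
import Pool.Agent.Lib.MP_16db06_lc.Generic
import Pool.Agent.Lib.MP_16db06_lc.KolLFA
import Pool.Agent.Lib.MP_16db06_lc.LayerCore
import Pool.Agent.Lib.MP_16db06_lc.Setting
import Pool.Agent.Lib.MP_16db06_lc.Solvable

/-! # MP_16db06_lc : the generic subshift over the Hilbert cube is hyperfinite for all groups with a
finite normal series whose factors have locally finite asymptotic dimension. -/

set_option autoImplicit false

namespace HypSub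

open Set Topology

universe u

/-- Lifting asymptotically equivariant maps through a normal subgroup with the Kolmogorov
property. -/
theorem ae_lift {Γ Y G : Type u} [Group Γ] [Countable Γ] [TopologicalSpace Y] [CompactSpace Y]
    [MulAction Γ Y] (hY : LCL Γ Y) [Group G] (A : Subgroup G) [A.Normal] (hA : Kol A)
    (θ : Γ →* G) (h : AE Y ((QuotientGroup.mk' A).comp θ)) : AE Y θ :=
  LStep.ae_lift_of hY A θ (exists_layer A hA) (alg (QuotientGroup.mk' A)) h

/-- Asymptotically equivariant maps exist along all homomorphisms to tower groups. -/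
theorem ae_of_tower {Γ Y : Type u} [Group Γ] [Countable Γ] [TopologicalSpace Y] [CompactSpace Y]
    [MulAction Γ Y] (hY : LCL Γ Y) (n : ℕ) : ∀ (G : Type u) [Group G], Tower n G →
      ∀ θ : Γ →* G, AE Y θ := by
  induction n with
  | zero =>
    intro G _ hG θ
    have : Subsingleton G := hG
    exact ⟨fun _ _ => 1, fun _ => IsLocallyConstant.const _, fun _ => Set.toFinite _,
      fun _ _ => Filter.Eventually.of_forall fun _ => Subsingleton.elim _ _⟩
  | succ n ih =>
    intro G _ hG θ
    obtain ⟨A, hA, hlfa, ht⟩ := hG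
    exact ae_lift hY A (kol_of_locFinAsdim hlfa) θ (ih (G ⧸ A) ht _)

theorem generic_of_tower (Γ : Type u) [Group Γ] [Countable Γ] (n : ℕ) (hn : Tower n Γ) :
    {Y : Subshift Γ | Hyperfinite (orbitRel Y)} ∈ residual (Subshift Γ) :=
  Filter.mem_of_superset (lcl_residual Γ) fun Y hY =>
    hyperfinite_of_ae Y (ae_of_tower hY n Γ hn _)

theorem generic_of_solvable (Γ : Type u) [Group Γ] [Countable Γ] (hs : Group.IsSolvable Γ) :
    {Y : Subshift Γ | Hyperfinite (orbitRel Y)} ∈ residual (Subshift Γ) := by
  obtain ⟨n, hn⟩ := tower_of_solvable hs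
  exact generic_of_tower Γ n hn

end HypSub
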